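import Pool.Agent.Helper653_Tor.Mom

/-!
# Determinants of block matrices
-/

set_option autoImplicit false
set_option linter.unusedSectionVars false
open scoped InnerProductSpace Topology ComplexConjugate InnerProduct

noncomputable section

namespace Pool.Agent.Helper653_Tor
open Pool.Agent.Helper993.FK Pool.Agent.H712R5.BO

theorem inner_smul_self' {H : Type} [NormedAddCommGroup H] [InnerProductSpace ℂ H] (v : H)
    (hv : ‖v‖ = 1) (c : ℝ) : (⟪v, (c : ℂ) • v⟫_ℂ).re = c := by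
  rw [inner_smul_right, inner_self_eq_norm_sq_to_K, hv]
  simp

section
variable {G : Type} [Group G] {ι κ μ ν : Type} [Fintype ι] [Fintype κ] [Fintype μ] [Fintype ν]

/-- if `A A*` is a scalar -/
theorem LL_scalar (A : Matrix ι κ (MonoidAlgebra ℤ G)) (c : ℝ) (hc : 0 ≤ c)
    (h : opp A = (c : ℂ) • 1) (ε : ℝ) (hε : 0 < ε) :
    LL ε A = Fintype.card ι * Real.log (ε + c) := by
  unfold LL Ph traceVal
  have h1 : ∀ i, (⟪(unitVec i : L2Pow G (Fintype.card ι)), cfc (lg ε) (opp A) (unitVec i)⟫_ℂ).re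
      = Real.log (ε + c) := by
    intro i
    have h2 : opp A (unitVec i) = (c : ℂ) • (unitVec i : L2Pow G (Fintype.card ι)) := by
      rw [h]
      rfl
    have h3 : ‖opp A‖ ≤ max c ‖opp A‖ := le_max_right _ _
    rw [cfc_apply_eigen (opp A) (opp_nonneg A) h3 (lg_cont hε) (unitVec i)
      ⟨hc, le_max_left _ _⟩ h2]
    refine (inner_smul_self' _ (norm_unitVec i) _).trans ?_
    unfold lg
    rw [max_eq_left hc]
  simp only [h1]
  simp

theorem opp_of_eq_one [DecidableEq ι] (A : Matrix ι κ (MonoidAlgebra ℤ G))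
    (h : A * adj A = 1) : opp A = ((1 : ℝ) : ℂ) • 1 := by
  unfold opp
  rw [h]
  have h1 : ((fz (1 : Matrix ι ι (MonoidAlgebra ℤ G))).map toQ)
      = (1 : Matrix (Fin (Fintype.card ι)) (Fin (Fintype.card ι)) (MonoidAlgebra ℚ G)) := by
    unfold fz
    rw [Matrix.submatrix_one_equiv]
    exact (Matrix.map_one _ (map_zero (MonoidAlgebra.mapRingHom G (Int.castRingHom ℚ)))
        (map_one (MonoidAlgebra.mapRingHom G (Int.castRingHom ℚ))))
  rw [h1, rMul_one]
  simp

theorem Dt_of_eq_one [DecidableEq ι] (A : Matrix ι κ (MonoidAlgebra ℤ G))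
    (h : A * adj A = 1) : Dt A = 1 := by
  refine tendsto_nhds_unique (Dt_tendsto A) ?_
  have h1 : Filter.Tendsto (fun ε : ℝ => Real.exp (Fintype.card ι * Real.log (ε + 1))) (𝓝[>] 0)
      (𝓝 (Real.exp (Fintype.card ι * Real.log (0 + 1)))) := by
    refine Filter.Tendsto.mono_left ?_ nhdsWithin_le_nhds
    refine (Real.continuous_exp.tendsto _).comp (Filter.Tendsto.const_mul _ ?_)
    refine (Real.continuousAt_log (by norm_num)).tendsto.comp ?_
    exact (continuous_id.add continuous_const).tendsto 0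
  rw [zero_add, Real.log_one, mul_zero, Real.exp_zero] at h1
  refine h1.congr' ?_
  filter_upwards [self_mem_nhdsWithin] with ε hε
  rw [LL_scalar A 1 zero_le_one (opp_of_eq_one A h) ε hε]

theorem Dt_one [DecidableEq ι] : Dt (1 : Matrix ι ι (MonoidAlgebra ℤ G)) = 1 :=
  Dt_of_eq_one _ (by rw [adj_one, Matrix.one_mul])

theorem Dt_zero [Nonempty ι] : Dt (0 : Matrix ι κ (MonoidAlgebra ℤ G)) = 0 := by
  have h0 : opp (0 : Matrix ι κ (MonoidAlgebra ℤ G)) = ((0 : ℝ) : ℂ) • 1 := by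
    unfold opp
    rw [Matrix.zero_mul]
    have : ((fz (0 : Matrix ι ι (MonoidAlgebra ℤ G))).map toQ)
        = (0 : Matrix (Fin (Fintype.card ι)) (Fin (Fintype.card ι)) (MonoidAlgebra ℚ G)) := by
      ext1 i j
      exact map_zero (MonoidAlgebra.mapRingHom G (Int.castRingHom ℚ))
    rw [this, rMul_eq_sc]
    simp [sc_zero]
  refine le_antisymm ?_ (Dt_nonneg _)
  have h1 : ∀ ε : ℝ, 0 < ε → Dt (0 : Matrix ι κ (MonoidAlgebra ℤ G)) ≤ ε ^ (Fintype.card ι) := by
    intro ε hε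
    refine (Dt_le _ hε).trans (le_of_eq ?_)
    rw [LL_scalar _ 0 le_rfl h0 ε hε, add_zero, mul_comm, Real.exp_mul, Real.exp_log hε,
      Real.rpow_natCast]
  have h2 : Filter.Tendsto (fun ε : ℝ => ε ^ (Fintype.card ι)) (𝓝[>] 0) (𝓝 0) := by
    refine Filter.Tendsto.mono_left ?_ nhdsWithin_le_nhds
    have h3 := (continuous_pow (M := ℝ) (Fintype.card ι)).tendsto 0
    rwa [zero_pow Fintype.card_ne_zero] at h3
  refine ge_of_tendsto h2 ?_
  filter_upwards [self_mem_nhdsWithin] with ε hε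
  exact h1 ε hε

/-- the operator norm -/
def nr (A : Matrix ι κ (MonoidAlgebra ℤ G)) : ℝ := ‖rMul ((fz A).map toQ)‖

theorem toQ_add' {r s : ℕ} (A B : Matrix (Fin r) (Fin s) (MonoidAlgebra ℤ G)) :
    (A + B).map toQ = A.map toQ + B.map toQ := by
  ext1 i j
  exact map_add (MonoidAlgebra.mapRingHom G (Int.castRingHom ℚ)) _ _

theorem nr_add (A B : Matrix ι κ (MonoidAlgebra ℤ G)) : nr (A + B) ≤ nr A + nr B := by
  unfold nr
  have : (fz (A + B)) = fz A + fz B := rfl
  rw [this, toQ_add', rMul_add]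
  exact norm_add_le _ _

theorem nr_nsmul (k : ℕ) (A : Matrix ι κ (MonoidAlgebra ℤ G)) : nr (k • A) ≤ k * nr A := by
  induction k with
  | zero =>
    rw [zero_smul]
    unfold nr
    have : ((fz (0 : Matrix ι κ (MonoidAlgebra ℤ G))).map toQ)
        = (0 : Matrix (Fin (Fintype.card ι)) (Fin (Fintype.card κ)) (MonoidAlgebra ℚ G)) := by
      ext1 i j
      exact map_zero (MonoidAlgebra.mapRingHom G (Int.castRingHom ℚ))
    rw [this, rMul_eq_sc]
    simp [sc_zero]
  | succ k ih =>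
    rw [succ_nsmul]
    refine (nr_add _ _).trans ?_
    push_cast
    linarith

theorem nr_nonneg (A : Matrix ι κ (MonoidAlgebra ℤ G)) : 0 ≤ nr A := norm_nonneg _

theorem norm_opp_le (A : Matrix ι κ (MonoidAlgebra ℤ G)) : ‖opp A‖ ≤ nr A ^ 2 := by
  rw [opp_eq, ← adjoint_comp_rMul]
  refine (ContinuousLinearMap.opNorm_comp_le _ _).trans ?_
  rw [LinearIsometryEquiv.norm_map, sq]
  exact le_rfl

theorem Dt_le_nr (A : Matrix ι κ (MonoidAlgebra ℤ G)) : Dt A ≤ (1 + nr A ^ 2) ^ Fintype.card ι := by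
  refine (Dt_le A one_pos).trans ?_
  have hpos : 0 < 1 + nr A ^ 2 := by positivity
  have h1 : LL 1 A ≤ Fintype.card ι * Real.log (1 + nr A ^ 2) := by
    unfold LL Ph
    have h2 : traceVal unitVec (opp A) (lg 1)
        ≤ traceVal unitVec (opp A) (fun _ => Real.log (1 + nr A ^ 2)) := by
      refine traceVal_mono unitVec (opp A) (opp_nonneg A) le_rfl (lg_cont one_pos)
        continuous_const fun x hx => ?_
      unfold lg
      rw [max_eq_left hx.1]
      have := hx.2.trans (norm_opp_le A)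
      exact Real.log_le_log (by linarith [hx.1]) (by linarith)
    refine h2.trans (le_of_eq ?_)
    unfold traceVal
    have h3 : cfc (fun _ : ℝ => Real.log (1 + nr A ^ 2)) (opp A)
        = algebraMap ℝ _ (Real.log (1 + nr A ^ 2)) :=
      cfc_const _ _ (IsSelfAdjoint.of_nonneg (opp_nonneg A))
    have h4 : ∀ i, (⟪(unitVec i : L2Pow G (Fintype.card ι)),
        cfc (fun _ : ℝ => Real.log (1 + nr A ^ 2)) (opp A) (unitVec i)⟫_ℂ).re
        = Real.log (1 + nr A ^ 2) := by
      intro i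
      rw [h3]
      have h5 : (algebraMap ℝ (L2Pow G (Fintype.card ι) →L[ℂ] L2Pow G (Fintype.card ι))
          (Real.log (1 + nr A ^ 2))) (unitVec i)
          = ((Real.log (1 + nr A ^ 2) : ℝ) : ℂ) • (unitVec i : L2Pow G (Fintype.card ι)) := by
        rw [Algebra.algebraMap_eq_smul_one]
        rfl
      rw [h5]
      exact inner_smul_self' _ (norm_unitVec i) _
    simp only [h4]
    simp
  calc Real.exp (LL 1 A) ≤ Real.exp (Fintype.card ι * Real.log (1 + nr A ^ 2)) :=
        Real.exp_le_exp.2 h1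
    _ = (1 + nr A ^ 2) ^ Fintype.card ι := by
        rw [mul_comm, Real.exp_mul, Real.exp_log hpos, Real.rpow_natCast]

theorem nr_one_le [DecidableEq ι] : nr (1 : Matrix ι ι (MonoidAlgebra ℤ G)) ≤ 1 := by
  unfold nr
  have h1 : ((fz (1 : Matrix ι ι (MonoidAlgebra ℤ G))).map toQ)
      = (1 : Matrix (Fin (Fintype.card ι)) (Fin (Fintype.card ι)) (MonoidAlgebra ℚ G)) := by
    unfold fz
    rw [Matrix.submatrix_one_equiv]
    exact (Matrix.map_one _ (map_zero (MonoidAlgebra.mapRingHom G (Int.castRingHom ℚ)))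
        (map_one (MonoidAlgebra.mapRingHom G (Int.castRingHom ℚ))))
  rw [h1, rMul_one]
  exact ContinuousLinearMap.norm_id_le

/-- a power bounded by a polynomial -/
theorem le_one_of_pow_le {a c : ℝ} (hc : 0 ≤ c) (r : ℕ)
    (h : ∀ k : ℕ, a ^ k ≤ (1 + (1 + k * c) ^ 2) ^ r) : a ≤ 1 := by
  by_contra hcon
  push Not at hcon
  have ha : 0 < a := by linarith
  have h1 := tendsto_pow_const_div_const_pow_of_one_lt (2 * r) hcon
  have h2 : ∀ k : ℕ, 1 ≤ k → 1 ≤ (1 + (1 + c) ^ 2) ^ r * (((k : ℝ) ^ (2 * r)) / a ^ k) := by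
    intro k hk
    have hk' : (1 : ℝ) ≤ k := by exact_mod_cast hk
    have h3 : (1 + (1 + k * c) ^ 2) ≤ (1 + (1 + c) ^ 2) * (k : ℝ) ^ 2 := by
      have h4 : 1 + k * c ≤ (1 + c) * k := by nlinarith
      have h5 : (1 + k * c) ^ 2 ≤ ((1 + c) * k) ^ 2 :=
        pow_le_pow_left₀ (by positivity) h4 2
      nlinarith
    have h6 : (1 + (1 + k * c) ^ 2) ^ r ≤ (1 + (1 + c) ^ 2) ^ r * (k : ℝ) ^ (2 * r) := by
      calc (1 + (1 + k * c) ^ 2) ^ r ≤ ((1 + (1 + c) ^ 2) * (k : ℝ) ^ 2) ^ r :=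
            pow_le_pow_left₀ (by positivity) h3 r
        _ = (1 + (1 + c) ^ 2) ^ r * (k : ℝ) ^ (2 * r) := by rw [mul_pow, ← pow_mul]
    rw [← mul_div_assoc, le_div_iff₀ (by positivity), one_mul]
    exact (h k).trans h6
  have h3 := h1.const_mul ((1 + (1 + c) ^ 2) ^ r)
  rw [mul_zero] at h3
  have h4 : (1 : ℝ) ≤ 0 := by
    refine ge_of_tendsto h3 ?_
    filter_upwards [Filter.eventually_ge_atTop 1] with k hk
    exact h2 k hk
  linarith

theorem Dt_pow [DecidableEq ι] (A : Matrix ι ι (MonoidAlgebra ℤ G)) (k : ℕ) :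
    Dt (A ^ k) = Dt A ^ k := by
  induction k with
  | zero => rw [pow_zero, pow_zero, Dt_one]
  | succ k ih => rw [pow_succ, pow_succ, Dt_mul', ih]

theorem uni_pow [DecidableEq ι] (N : Matrix ι ι (MonoidAlgebra ℤ G)) (hN : N * N = 0) (k : ℕ) :
    (1 + N) ^ k = 1 + k • N := by
  induction k with
  | zero => rw [pow_zero, zero_smul, add_zero]
  | succ k ih =>
    rw [pow_succ, ih, mul_add, mul_one, add_mul, one_mul, smul_mul_assoc, hN, smul_zero, add_zero,
      succ_nsmul, add_assoc]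

theorem Dt_uni_le [DecidableEq ι] (N : Matrix ι ι (MonoidAlgebra ℤ G)) (hN : N * N = 0) :
    Dt (1 + N) ≤ 1 := by
  refine le_one_of_pow_le (nr_nonneg N) (Fintype.card ι) fun k => ?_
  rw [← Dt_pow, uni_pow N hN]
  refine (Dt_le_nr _).trans ?_
  have h1 : nr (1 + k • N) ≤ 1 + k * nr N :=
    (nr_add _ _).trans (add_le_add nr_one_le (nr_nsmul _ _))
  have h2 : nr (1 + k • N) ^ 2 ≤ (1 + k * nr N) ^ 2 := pow_le_pow_left₀ (nr_nonneg _) h1 2
  exact pow_le_pow_left₀ (by positivity) (by linarith) _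

theorem Dt_uni [DecidableEq ι] (N : Matrix ι ι (MonoidAlgebra ℤ G)) (hN : N * N = 0) :
    Dt (1 + N) = 1 := by
  have h1 := Dt_uni_le N hN
  have h2 := Dt_uni_le (-N) (by rw [neg_mul_neg, hN])
  have h3 : Dt ((1 + N) * (1 + -N)) = 1 := by
    have : (1 + N) * (1 + -N) = 1 := by
      have e : (1 + N) * (1 + -N) = 1 - N * N := by noncomm_ring
      rw [e, hN, sub_zero]
    rw [this, Dt_one]
  rw [Dt_mul'] at h3
  have h4 := Dt_nonneg (1 + N)
  have h5 := Dt_nonneg (1 + -N)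
  nlinarith

theorem mt_add (A B : Matrix ι ι (MonoidAlgebra ℤ G)) : mt (A + B) = mt A + mt B := by
  unfold mt
  rw [← Finset.sum_add_distrib]
  rfl

theorem mt_fromBlocks (A : Matrix ι ι (MonoidAlgebra ℤ G)) (B : Matrix ι κ (MonoidAlgebra ℤ G))
    (C : Matrix κ ι (MonoidAlgebra ℤ G)) (D : Matrix κ κ (MonoidAlgebra ℤ G)) :
    mt (Matrix.fromBlocks A B C D) = mt A + mt D := by
  unfold mt
  rw [Fintype.sum_sum_type]
  rfl

theorem adj_fromBlocks (A : Matrix ι μ (MonoidAlgebra ℤ G)) (B : Matrix ι ν (MonoidAlgebra ℤ G))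
    (C : Matrix κ μ (MonoidAlgebra ℤ G)) (D : Matrix κ ν (MonoidAlgebra ℤ G)) :
    adj (Matrix.fromBlocks A B C D) = Matrix.fromBlocks (adj A) (adj C) (adj B) (adj D) := by
  ext1 i j
  rcases i with i | i <;> rcases j with j | j <;> rfl

theorem Dt_diag [DecidableEq ι] [DecidableEq κ] (A : Matrix ι μ (MonoidAlgebra ℤ G))
    (B : Matrix κ ν (MonoidAlgebra ℤ G)) :
    Dt (Matrix.fromBlocks A 0 0 B) = Dt A * Dt B := by
  refine Dt_mul_of_mt _ _ _ fun m => ?_
  rw [adj_fromBlocks, Matrix.fromBlocks_multiply]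
  simp only [adj_zero, Matrix.zero_mul, Matrix.mul_zero, add_zero, zero_add]
  rw [Matrix.fromBlocks_diagonal_pow, mt_fromBlocks]

theorem Dt_lower_one [DecidableEq ι] [DecidableEq κ] (N : Matrix κ ι (MonoidAlgebra ℤ G)) :
    Dt (Matrix.fromBlocks 1 0 N 1 : Matrix (ι ⊕ κ) (ι ⊕ κ) (MonoidAlgebra ℤ G)) = 1 := by
  have h : (Matrix.fromBlocks 1 0 N 1 : Matrix (ι ⊕ κ) (ι ⊕ κ) (MonoidAlgebra ℤ G))
      = 1 + Matrix.fromBlocks 0 0 N 0 := by
    rw [← Matrix.fromBlocks_one, Matrix.fromBlocks_add]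
    simp
  rw [h]
  apply Dt_uni
  rw [Matrix.fromBlocks_multiply]
  simp

theorem Dt_upper_one [DecidableEq ι] [DecidableEq κ] (N : Matrix ι κ (MonoidAlgebra ℤ G)) :
    Dt (Matrix.fromBlocks 1 N 0 1 : Matrix (ι ⊕ κ) (ι ⊕ κ) (MonoidAlgebra ℤ G)) = 1 := by
  have h : (Matrix.fromBlocks 1 N 0 1 : Matrix (ι ⊕ κ) (ι ⊕ κ) (MonoidAlgebra ℤ G))
      = 1 + Matrix.fromBlocks 0 N 0 0 := by
    rw [← Matrix.fromBlocks_one, Matrix.fromBlocks_add]
    simp
  rw [h]
  apply Dt_uni
  rw [Matrix.fromBlocks_multiply]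
  simp

/-- block triangular matrices -/
theorem Dt_lower [DecidableEq ι] [DecidableEq κ] (A : Matrix ι ι (MonoidAlgebra ℤ G))
    (N : Matrix κ ι (MonoidAlgebra ℤ G)) (B : Matrix κ κ (MonoidAlgebra ℤ G)) :
    Dt (Matrix.fromBlocks A 0 N B) = Dt A * Dt B := by
  have h : Matrix.fromBlocks A 0 N B = Matrix.fromBlocks A 0 0 1 * Matrix.fromBlocks 1 0 N 1
      * Matrix.fromBlocks 1 0 0 B := by
    rw [Matrix.fromBlocks_multiply, Matrix.fromBlocks_multiply]
    simp
  rw [h, Dt_mul', Dt_mul', Dt_diag, Dt_diag, Dt_lower_one, Dt_one, Dt_one]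
  ring

theorem Dt_upper [DecidableEq ι] [DecidableEq κ] (A : Matrix ι ι (MonoidAlgebra ℤ G))
    (N : Matrix ι κ (MonoidAlgebra ℤ G)) (B : Matrix κ κ (MonoidAlgebra ℤ G)) :
    Dt (Matrix.fromBlocks A N 0 B) = Dt A * Dt B := by
  have h : Matrix.fromBlocks A N 0 B = Matrix.fromBlocks 1 0 0 B * Matrix.fromBlocks 1 N 0 1
      * Matrix.fromBlocks A 0 0 1 := by
    rw [Matrix.fromBlocks_multiply, Matrix.fromBlocks_multiply]
    simp
  rw [h, Dt_mul', Dt_mul', Dt_diag, Dt_diag, Dt_upper_one, Dt_one, Dt_one]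
  ring

end

/-- the diagonal blocks -/
def blk {G : Type} [Group G] {ι : Type} (M : Matrix ι ι (MonoidAlgebra ℤ G)) (b : ι → ℕ) (k : ℕ) :
    Matrix {i // b i = k} {i // b i = k} (MonoidAlgebra ℤ G) :=
  M.submatrix Subtype.val Subtype.val

theorem Dt_triangular {G : Type} [Group G] (N : ℕ) : ∀ {ι : Type} [Fintype ι] [DecidableEq ι]
    (M : Matrix ι ι (MonoidAlgebra ℤ G)) (b : ι → ℕ) (_ : ∀ i j, b j < b i → M i j = 0)
    (_ : ∀ i, b i < N), Dt M = ∏ k ∈ Finset.range N, Dt (blk M b k) := by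
  classical
  induction N with
  | zero =>
    intro ι _ _ M b _ hb
    have : IsEmpty ι := ⟨fun i => absurd (hb i) (Nat.not_lt_zero _)⟩
    rw [Finset.range_zero, Finset.prod_empty]
    apply Dt_of_eq_one
    ext1 i j
    exact isEmptyElim i
  | succ N ih =>
    intro ι _ _ M b hM hb
    set e := Equiv.sumCompl (fun i => b i < N) with he
    have h1 : M.submatrix e e = Matrix.fromBlocks
        (M.submatrix (Subtype.val : {i // b i < N} → ι) (Subtype.val : {i // b i < N} → ι))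
        (M.submatrix (Subtype.val : {i // b i < N} → ι) (Subtype.val : {i // ¬ b i < N} → ι))
        0
        (M.submatrix (Subtype.val : {i // ¬ b i < N} → ι) (Subtype.val : {i // ¬ b i < N} → ι)) := by
      ext1 i j
      rcases i with i | i <;> rcases j with j | j
      · rfl
      · rfl
      · exact hM _ _ (lt_of_lt_of_le j.2 (not_lt.1 i.2))
      · rfl
    rw [← Dt_submatrix M e e, h1, Dt_upper, Finset.prod_range_succ]
    congr 1
    · rw [ih (M.submatrix (Subtype.val : {i // b i < N} → ι) (Subtype.val : {i // b i < N} → ι))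
        (fun i => b i.1) (fun i j hij => hM _ _ hij) (fun i => i.2)]
      refine Finset.prod_congr rfl fun k hk => ?_
      have hk' : k < N := Finset.mem_range.1 hk
      let f : {i // b i = k} ≃ {i : {i // b i < N} // b i.1 = k} :=
        { toFun := fun i => ⟨⟨i.1, by rw [i.2]; exact hk'⟩, i.2⟩
          invFun := fun i => ⟨i.1.1, i.2⟩
          left_inv := fun i => rfl
          right_inv := fun i => rfl }
      exact (Dt_submatrix _ f f).symm
    · let f : {i // b i = N} ≃ {i // ¬ b i < N} :=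
        { toFun := fun i => ⟨i.1, by rw [i.2]; exact lt_irrefl _⟩
          invFun := fun i => ⟨i.1, by
            have h2 := hb i.1
            have h3 := i.2
            omega⟩
          left_inv := fun i => rfl
          right_inv := fun i => rfl }
      exact (Dt_submatrix _ f f).symm

end Pool.Agent.Helper653_Tor
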