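import Pool.Agent.Helper653_Tor.Tot
import Pool.Agent.TH630.Tor.Defs

/-!
# The torsion of a complex with twisted contraction
-/

set_option autoImplicit false
set_option linter.unusedSectionVars false
open scoped InnerProductSpace Topology ComplexConjugate InnerProduct

noncomputable section

namespace Pool.Agent.Helper653_Tor
open Pool.Agent.Helper993.FK Pool.Agent.H712R5.BO Pool.Agent.TH630.Tor

section
variable {G : Type} [Group G]

/-- scalar matrices -/
def sc' (n : ℕ) (a : MonoidAlgebra ℤ G) : Matrix (Fin n) (Fin n) (MonoidAlgebra ℤ G) :=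
  Matrix.diagonal fun _ => a

variable (C : FreeCx G)

/-- scalar matrices of the size of the `n`-th term -/
def sR (n : ℕ) (a : MonoidAlgebra ℤ G) :
    Matrix (Fin (C.rank n)) (Fin (C.rank n)) (MonoidAlgebra ℤ G) := sc' (C.rank n) a

/-- the matrices of the Laplacians -/
def lapM : ∀ n, Matrix (Fin (C.rank n)) (Fin (C.rank n)) (MonoidAlgebra ℤ G)
  | 0 => adj (C.d 0) * C.d 0
  | n + 1 => adj (C.d (n + 1)) * C.d (n + 1) + C.d n * adj (C.d n)

/-- a twisted contraction -/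
structure Hty where
  σ : ℕ → MonoidAlgebra ℤ G
  dp : ∀ n, Matrix (Fin (C.rank (n + 1))) (Fin (C.rank n)) (MonoidAlgebra ℤ G)
  h : ∀ n, Matrix (Fin (C.rank n)) (Fin (C.rank (n + 1))) (MonoidAlgebra ℤ G)
  comm : ∀ n, sR C (n + 1) (σ (n + 1)) * C.d n = dp n * sR C n (σ n)
  h0 : h 0 * C.d 0 = sR C 0 (σ 0)
  h1 : ∀ n, h (n + 1) * C.d (n + 1) + dp n * h n = sR C (n + 1) (σ (n + 1))
  det : ∀ n m, Dt (sR C m (σ n)) = 1
  canc : ∀ n k l (M : Matrix (Fin (C.rank k)) (Fin (C.rank l)) (MonoidAlgebra ℤ G)),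
    M * sR C l (σ n) = 0 → M = 0
  ore : ∀ n m (M : Matrix (Fin (C.rank m)) (Fin (C.rank m)) (MonoidAlgebra ℤ G)),
    ∃ (s : MonoidAlgebra ℤ G) (X : Matrix (Fin (C.rank m)) (Fin (C.rank m)) (MonoidAlgebra ℤ G)),
      Dt (sR C m s) = 1 ∧ sR C m s * M = X * sR C m (σ n)

variable {C} (H : Hty C)

/-- the first half -/
def mV : ∀ n, Matrix (Fin (C.rank n)) (Fin (C.rank n)) (MonoidAlgebra ℤ G)
  | 0 => H.h 0 * C.d 0
  | n + 1 => sR C (n + 1) (H.σ (n + 1)) * (C.d n * adj (C.d n)) + H.h (n + 1) * C.d (n + 1)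

/-- the second half -/
def mU : ∀ n, Matrix (Fin (C.rank n)) (Fin (C.rank n)) (MonoidAlgebra ℤ G)
  | 0 => sR C 0 (H.σ 0) * (adj (C.d 0) * C.d 0)
  | n + 1 => sR C (n + 1) (H.σ (n + 1)) * (adj (C.d (n + 1)) * C.d (n + 1)) + H.dp n * H.h n

theorem Dt_mV_succ (n : ℕ) : Dt (mV H (n + 1)) = Dt (mU H n) := by
  have key := exchange (sR C (n + 1) (H.σ (n + 1))) (sR C n (H.σ n)) (C.d n) (H.dp n)
    (H.h n - sR C n (H.σ n) * adj (C.d n)) (H.comm n)
  rw [H.det, H.det, mul_one, one_mul] at key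
  have e1 : sR C (n + 1) (H.σ (n + 1)) - H.dp n * (H.h n - sR C n (H.σ n) * adj (C.d n)) = mV H (n + 1) := by
    show _ = sR C (n + 1) (H.σ (n + 1)) * (C.d n * adj (C.d n)) + H.h (n + 1) * C.d (n + 1)
    rw [Matrix.mul_sub, ← Matrix.mul_assoc (H.dp n), ← H.comm n, Matrix.mul_assoc]
    nth_rw 1 [← H.h1 n]
    abel
  have e2 : sR C n (H.σ n) - (H.h n - sR C n (H.σ n) * adj (C.d n)) * C.d n = mU H n := by
    rw [Matrix.sub_mul, Matrix.mul_assoc]
    cases n with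
    | zero =>
      show _ = sR C 0 (H.σ 0) * (adj (C.d 0) * C.d 0)
      rw [H.h0]
      abel
    | succ n =>
      show _ = sR C (n + 1) (H.σ (n + 1)) * (adj (C.d (n + 1)) * C.d (n + 1)) + H.dp n * H.h n
      nth_rw 1 [← H.h1 n]
      abel
  rw [← e1, ← e2, key]

theorem lap_identity (n : ℕ) (s : MonoidAlgebra ℤ G)
    (X : Matrix (Fin (C.rank n)) (Fin (C.rank n)) (MonoidAlgebra ℤ G))
    (hX : sR C n s * mU H n = X * sR C n (H.σ n)) :
    X * mV H n = sR C n s * (sR C n (H.σ n) * lapM C n) := by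
  cases n with
  | zero =>
    show X * (H.h 0 * C.d 0) = sR C 0 s * (sR C 0 (H.σ 0) * (adj (C.d 0) * C.d 0))
    rw [H.h0, ← hX]
    rfl
  | succ n =>
    show X * (sR C (n + 1) (H.σ (n + 1)) * (C.d n * adj (C.d n)) + H.h (n + 1) * C.d (n + 1))
      = sR C (n + 1) s * (sR C (n + 1) (H.σ (n + 1)) * (adj (C.d (n + 1)) * C.d (n + 1) + C.d n * adj (C.d n)))
    have hU : mU H (n + 1) = sR C (n + 1) (H.σ (n + 1)) * (adj (C.d (n + 1)) * C.d (n + 1))
      + H.dp n * H.h n := rfl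
    -- `dp h d = σ d`
    have a1 : H.dp n * (H.h n * C.d n) = sR C (n + 1) (H.σ (n + 1)) * C.d n := by
      have := congrArg (fun Z => Z * C.d n) (H.h1 n)
      simp only [Matrix.add_mul, Matrix.mul_assoc, C.d_comp_d, Matrix.mul_zero, zero_add] at this
      exact this
    have a2 : mU H (n + 1) * C.d n = sR C (n + 1) (H.σ (n + 1)) * C.d n := by
      rw [hU, Matrix.add_mul, Matrix.mul_assoc, Matrix.mul_assoc, Matrix.mul_assoc, C.d_comp_d,
        Matrix.mul_zero, Matrix.mul_zero, zero_add, a1]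
    -- `X dp = s dp`
    have a3 : X * H.dp n = sR C (n + 1) s * H.dp n := by
      rw [← sub_eq_zero]
      apply H.canc n
      rw [Matrix.sub_mul, Matrix.mul_assoc, Matrix.mul_assoc, ← H.comm n, ← Matrix.mul_assoc, ← hX,
        Matrix.mul_assoc, a2, sub_self]
    have a4 : X * (H.h (n + 1) * C.d (n + 1))
        = sR C (n + 1) s * (sR C (n + 1) (H.σ (n + 1)) * (adj (C.d (n + 1)) * C.d (n + 1))) := by
      have e1 : H.h (n + 1) * C.d (n + 1) = sR C (n + 1) (H.σ (n + 1)) - H.dp n * H.h n := by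
        rw [← H.h1 n]; abel
      rw [e1, Matrix.mul_sub, ← hX, ← Matrix.mul_assoc X, a3, Matrix.mul_assoc, hU, Matrix.mul_add]
      abel
    have a5 : X * (sR C (n + 1) (H.σ (n + 1)) * (C.d n * adj (C.d n)))
        = sR C (n + 1) s * (sR C (n + 1) (H.σ (n + 1)) * (C.d n * adj (C.d n))) := by
      rw [← Matrix.mul_assoc X, ← hX, Matrix.mul_assoc, ← Matrix.mul_assoc (mU H (n + 1)), a2,
        Matrix.mul_assoc]
    rw [Matrix.mul_add, a4, a5, Matrix.mul_add, Matrix.mul_add]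
    exact add_comm _ _

theorem Dt_lapM (n : ℕ) : Dt (lapM C n) = Dt (mU H n) * Dt (mV H n) := by
  obtain ⟨s, X, hs, hX⟩ := H.ore n _ (mU H n)
  have h1 := congrArg Dt hX
  have h2 := congrArg Dt (lap_identity H n s X hX)
  rw [Dt_mul', Dt_mul', hs, H.det, one_mul, mul_one] at h1
  rw [Dt_mul', Dt_mul', Dt_mul', hs, H.det, one_mul, one_mul] at h2
  rw [← h2, h1]

/-- the numbers `m_n` -/
def mm (n : ℕ) : ℝ := Dt (mV H n)

theorem mm_zero : mm H 0 = 1 := by
  show Dt (H.h 0 * C.d 0) = 1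
  rw [H.h0, H.det]

theorem mm_mul (n : ℕ) : Dt (lapM C n) = mm H (n + 1) * mm H n := by
  rw [Dt_lapM H]
  unfold mm
  rw [Dt_mV_succ]

theorem mm_large {n : ℕ} (hn : C.dim < n) : mm H n = 1 := by
  have h0 := C.rank_eq_zero n hn
  have : IsEmpty (Fin (C.rank n)) := by rw [h0]; infer_instance
  apply Dt_of_eq_one
  ext1 i j
  exact isEmptyElim i

theorem sc_mul_zero {a b c : ℕ} (S : Matrix (Fin a) (Fin a) (MonoidAlgebra ℤ G))
    (X : Matrix (Fin a) (Fin b) (MonoidAlgebra ℤ G)) (Y : Matrix (Fin b) (Fin c) (MonoidAlgebra ℤ G))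
    (h : X * Y = 0) : (S * X) * Y = 0 := by
  rw [Matrix.mul_assoc, h, Matrix.mul_zero]

/-- odd and even products coincide -/
theorem prod_eq (hpos : ∀ n, 0 < Dt (lapM C n))
    (hint : ∀ {ι : Type} [Fintype ι] [DecidableEq ι] (M : Matrix ι ι (MonoidAlgebra ℤ G)),
      0 < Dt M → 1 ≤ Dt M) (N : ℕ) (hN : C.dim < 2 * N) :
    ∏ l ∈ Finset.range N, mm H (2 * l + 1) = ∏ k ∈ Finset.range N, mm H (2 * k) := by
  classical
  have hN0 : 0 < N := by omega
  have hmpos : ∀ n, 0 < mm H n := by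
    intro n
    have h1 := hpos n
    rw [mm_mul H] at h1
    have h2 : 0 ≤ mm H n := Dt_nonneg _
    have h3 : 0 ≤ mm H (n + 1) := Dt_nonneg _
    rcases h2.lt_or_eq with h | h
    · exact h
    · rw [← h, mul_zero] at h1
      exact absurd h1 (lt_irrefl _)
  -- the families
  let p : ℕ → ℕ := fun l => C.rank (2 * l + 1)
  let q : ℕ → ℕ := fun k => C.rank (2 * k)
  let A : ∀ l, Matrix (Fin (p l)) (Fin (q l)) (MonoidAlgebra ℤ G) := fun l => C.d (2 * l)
  let B : ∀ l, Matrix (Fin (p l)) (Fin (q (l + 1))) (MonoidAlgebra ℤ G) :=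
    fun l => adj (C.d (2 * l + 1))
  let C' : ∀ k, Matrix (Fin (q k)) (Fin (p k)) (MonoidAlgebra ℤ G) := fun k => adj (C.d (2 * k))
  let D : ∀ k, Matrix (Fin (q (k + 1))) (Fin (p k)) (MonoidAlgebra ℤ G) :=
    fun k => C.d (2 * k + 1)
  let A' : ∀ l, Matrix (Fin (p l)) (Fin (q l)) (MonoidAlgebra ℤ G) :=
    fun l => sR C (2 * l + 1) (H.σ (2 * l + 1)) * C.d (2 * l)
  let B' : ∀ l, Matrix (Fin (p l)) (Fin (q (l + 1))) (MonoidAlgebra ℤ G) :=
    fun l => H.h (2 * l + 1)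
  let C'' : ∀ k, Matrix (Fin (q k)) (Fin (p k)) (MonoidAlgebra ℤ G) := fun k => H.h (2 * k)
  let D' : ∀ k, Matrix (Fin (q (k + 1))) (Fin (p k)) (MonoidAlgebra ℤ G) :=
    fun k => sR C (2 * k + 2) (H.σ (2 * k + 2)) * C.d (2 * k + 1)
  have hq : q N = 0 := C.rank_eq_zero _ hN
  have hdd1 : ∀ l, C.d (2 * (l + 1)) * C.d (2 * l + 1) = 0 := fun l => C.d_comp_d (2 * l + 1)
  have hdd2 : ∀ l, C.d (2 * l + 1) * C.d (2 * l) = 0 := fun l => C.d_comp_d (2 * l)
  set EOE : Matrix (Ix N p) (Ix N q) (MonoidAlgebra ℤ G) := tot N (up A B) with hEOE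
  set EEO : Matrix (Ix N q) (Ix N p) (MonoidAlgebra ℤ G) := tot N (lo C' D) with hEEO
  set TOE : Matrix (Ix N p) (Ix N q) (MonoidAlgebra ℤ G) := tot N (up A' B') with hTOE
  set TEO : Matrix (Ix N q) (Ix N p) (MonoidAlgebra ℤ G) := tot N (lo C'' D') with hTEO
  have hadj : adj EOE = EEO := by
    rw [hEOE, hEEO, adj_tot]
    congr 1
    funext k l
    rw [adj_up]
    congr 1
    funext k
    exact adj_adj _
  -- the products
  have p1 : Dt (EOE * EEO) = ∏ l ∈ Finset.range N, Dt (lapM C (2 * l + 1)) := by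
    rw [hEOE, hEEO, Dt_up_lo N A B C' D hq hdd1]
    refine Finset.prod_congr rfl fun l _ => ?_
    congr 1
    show C.d (2 * l) * adj (C.d (2 * l)) + adj (C.d (2 * l + 1)) * C.d (2 * l + 1)
      = adj (C.d (2 * l + 1)) * C.d (2 * l + 1) + C.d (2 * l) * adj (C.d (2 * l))
    exact add_comm _ _
  have p2 : Dt (EEO * EOE) = ∏ k ∈ Finset.range N, Dt (lapM C (2 * k)) := by
    rw [hEOE, hEEO, Dt_lo_up N A B C' D hdd2 (fun k => lapM C (2 * k)) rfl (fun k => rfl)]
  have p3 : Dt (TOE * EEO) = ∏ l ∈ Finset.range N, mm H (2 * l + 1) := by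
    rw [hTOE, hEEO, Dt_up_lo N A' B' C' D hq (fun l => sc_mul_zero _ _ _ (hdd1 l))]
    refine Finset.prod_congr rfl fun l _ => ?_
    unfold mm
    congr 1
    show sR C (2 * l + 1) (H.σ (2 * l + 1)) * C.d (2 * l) * adj (C.d (2 * l))
        + H.h (2 * l + 1) * C.d (2 * l + 1)
      = sR C (2 * l + 1) (H.σ (2 * l + 1)) * (C.d (2 * l) * adj (C.d (2 * l)))
        + H.h (2 * l + 1) * C.d (2 * l + 1)
    rw [Matrix.mul_assoc]
  have p4 : Dt (TEO * EOE) = ∏ k ∈ Finset.range N, mm H (2 * k) := by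
    rw [hTEO, hEOE, Dt_lo_up N A B C'' D' (fun l => sc_mul_zero _ _ _ (hdd2 l))
      (fun k => mV H (2 * k)) rfl]
    · rfl
    · intro k
      show sR C (2 * k + 2) (H.σ (2 * k + 2)) * (C.d (2 * k + 1) * adj (C.d (2 * k + 1)))
          + H.h (2 * k + 2) * C.d (2 * k + 2)
        = H.h (2 * k + 2) * C.d (2 * k + 2)
          + sR C (2 * k + 2) (H.σ (2 * k + 2)) * C.d (2 * k + 1) * adj (C.d (2 * k + 1))
      rw [Matrix.mul_assoc]
      exact add_comm _ _
  -- sizes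
  have q1 : 0 < Dt (EOE * EEO) := by
    rw [p1]
    exact Finset.prod_pos fun l _ => hpos _
  have q2 : 0 < Dt (EEO * EOE) := by
    rw [p2]
    exact Finset.prod_pos fun l _ => hpos _
  have hcard : Fintype.card (Ix N p) = Fintype.card (Ix N q) := by
    apply le_antisymm
    · apply card_le_of_pos EOE
      rw [hadj]
      exact q1
    · apply card_le_of_pos EEO
      rw [← hadj, adj_adj, hadj]
      exact q2
  have hE : Dt EEO = Dt EOE := by
    rw [← hadj]
    exact Dt_adj hcard EOE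
  rw [Dt_mul hcard hcard.symm, hE] at p1
  rw [Dt_mul hcard.symm hcard, hE] at p2
  rw [Dt_mul hcard hcard.symm, hE] at p3
  rw [Dt_mul hcard.symm hcard] at p4
  -- the squares
  have hPe : ∏ k ∈ Finset.range N, Dt (lapM C (2 * k))
      = (∏ l ∈ Finset.range N, mm H (2 * l + 1)) * ∏ k ∈ Finset.range N, mm H (2 * k) := by
    rw [← Finset.prod_mul_distrib]
    exact Finset.prod_congr rfl fun k _ => mm_mul H (2 * k)
  have hPo0 : 0 < ∏ l ∈ Finset.range N, mm H (2 * l + 1) := Finset.prod_pos fun l _ => hmpos _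
  have hPe0 : 0 < ∏ k ∈ Finset.range N, mm H (2 * k) := Finset.prod_pos fun l _ => hmpos _
  rw [hPe] at p2
  set Po := ∏ l ∈ Finset.range N, mm H (2 * l + 1) with hPo
  set Pe := ∏ k ∈ Finset.range N, mm H (2 * k) with hPe'
  set e := Dt EOE with he
  have he0 : 0 < e := by
    have h1 : 0 ≤ e := Dt_nonneg _
    rcases h1.lt_or_eq with h | h
    · exact h
    · rw [← h, mul_zero] at p2
      exact absurd p2.symm (mul_pos hPo0 hPe0).ne'
  have hT1 : 0 < Dt TOE := by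
    have h1 : 0 ≤ Dt TOE := Dt_nonneg _
    rcases h1.lt_or_eq with h | h
    · exact h
    · rw [← h, zero_mul] at p3
      exact absurd p3.symm hPo0.ne'
  have hT2 : 0 < Dt TEO := by
    have h1 : 0 ≤ Dt TEO := Dt_nonneg _
    rcases h1.lt_or_eq with h | h
    · exact h
    · rw [← h, zero_mul] at p4
      exact absurd p4.symm hPe0.ne'
  -- integrality
  have i1 : 1 ≤ Dt TOE := by
    let f : Ix N q ≃ Ix N p := Fintype.equivOfCardEq hcard.symm
    have h1 : Dt (TOE.submatrix (Equiv.refl _) f.symm) = Dt TOE := Dt_submatrix _ _ _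
    rw [← h1]
    apply hint
    rw [h1]
    exact hT1
  have i2 : 1 ≤ Dt TEO := by
    let f : Ix N p ≃ Ix N q := Fintype.equivOfCardEq hcard
    have h1 : Dt (TEO.submatrix (Equiv.refl _) f.symm) = Dt TEO := Dt_submatrix _ _ _
    rw [← h1]
    apply hint
    rw [h1]
    exact hT2
  have hprod : Dt TOE * Dt TEO = 1 := by
    have h1 : (Dt TOE * e) * (Dt TEO * e) = Po * Pe := by rw [p3, p4]
    have h2 : (Dt TOE * Dt TEO) * (Po * Pe) = Po * Pe := by
      rw [← p2] at h1 ⊢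
      linarith
    have h3 : Po * Pe ≠ 0 := (mul_pos hPo0 hPe0).ne'
    exact mul_right_cancel₀ h3 (by rw [h2, one_mul])
  have j1 : Dt TOE = 1 := by nlinarith
  have j2 : Dt TEO = 1 := by rw [j1, one_mul] at hprod; exact hprod
  rw [j1, one_mul] at p3
  rw [j2, one_mul] at p4
  rw [← p3, ← p4]

end
end Pool.Agent.Helper653_Tor
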