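import Pool.Agent.Helper653_Tor.Inj

/-!
# The torsion in terms of the differentials
-/

set_option autoImplicit false
set_option linter.unusedSectionVars false
open scoped InnerProductSpace Topology

noncomputable section

namespace Pool.Agent.Helper653_Tor
open Pool.Agent.Helper993.FK Pool.Agent.Helper993.Delta Pool.Agent.H712R5.BO MeasureTheory
open Pool.Agent.TH630.Tor

section meas

/-- measures on the positive half line are determined by test functions which vanish on the
nonpositive half line -/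
theorem ext_Ioi (μ ν : Measure ℝ) [IsLocallyFiniteMeasure μ] [IsLocallyFiniteMeasure ν]
    (h : ∀ f : ℝ → ℝ, Continuous f → HasCompactSupport f → (∀ x ≤ 0, f x = 0) →
      ∫ x, f x ∂μ = ∫ x, f x ∂ν) :
    μ.restrict (Set.Ioi 0) = ν.restrict (Set.Ioi 0) := by
  have hm : Measurable fun x : ℝ => ENNReal.ofReal x := ENNReal.measurable_ofReal
  have h1 : μ.withDensity (fun x => ENNReal.ofReal x)
      = ν.withDensity (fun x => ENNReal.ofReal x) := by
    have i1 : IsLocallyFiniteMeasure (μ.withDensity fun x => ENNReal.ofReal x) :=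
      IsLocallyFiniteMeasure.withDensity_ofReal continuous_id
    have i2 : IsLocallyFiniteMeasure (ν.withDensity fun x => ENNReal.ofReal x) :=
      IsLocallyFiniteMeasure.withDensity_ofReal continuous_id
    apply Measure.ext_of_integral_eq_on_compactlySupported
    intro f
    rw [integral_withDensity_eq_integral_toReal_smul hm
        (Filter.Eventually.of_forall fun x => ENNReal.ofReal_lt_top),
      integral_withDensity_eq_integral_toReal_smul hm
        (Filter.Eventually.of_forall fun x => ENNReal.ofReal_lt_top)]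
    have hx : ∀ x : ℝ, (ENNReal.ofReal x).toReal • f x = max x 0 * f x := fun x => by
      rw [ENNReal.toReal_ofReal', smul_eq_mul]
    simp only [hx]
    refine h (fun x => max x 0 * f x) ?_ ?_ ?_
    · have := f.continuous
      fun_prop
    · exact f.hasCompactSupport.mul_left
    · intro x hx0
      show max x 0 * f x = 0
      rw [max_eq_right hx0, zero_mul]
  have h2 : ∀ ρ : Measure ℝ, ρ.restrict (Set.Ioi 0)
      = ((ρ.withDensity fun x => ENNReal.ofReal x).restrict (Set.Ioi 0)).withDensity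
        (fun x => (ENNReal.ofReal x)⁻¹) := by
    intro ρ
    rw [restrict_withDensity measurableSet_Ioi]
    symm
    apply withDensity_inv_same hm
    · refine (ae_restrict_iff' measurableSet_Ioi).mpr (Filter.Eventually.of_forall ?_)
      intro x hx
      have hx' : (0 : ℝ) < x := hx
      exact (ENNReal.ofReal_pos.2 hx').ne'
    · exact Filter.Eventually.of_forall fun x => ENNReal.ofReal_ne_top
  rw [h2 μ, h2 ν, h1]

/-- the squaring map -/
def sq' (x : ℝ) : ℝ := x ^ 2

theorem sq'_cont : Continuous sq' := by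
  unfold sq'
  fun_prop

theorem lf_sq (μ : Measure ℝ) [IsLocallyFiniteMeasure μ] : IsLocallyFiniteMeasure (μ.map sq') := by
  constructor
  intro x
  refine ⟨Set.Ioo (x - 1) (x + 1), Ioo_mem_nhds (by linarith) (by linarith), ?_⟩
  rw [Measure.map_apply sq'_cont.measurable measurableSet_Ioo]
  refine lt_of_le_of_lt (measure_mono (t := Set.Icc (-(|x| + 2)) (|x| + 2)) ?_)
    (isCompact_Icc.measure_lt_top)
  intro y hy
  have h1 : y ^ 2 < x + 1 := hy.2
  have h2 := le_abs_self x
  have h3 := abs_nonneg x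
  constructor <;> nlinarith [sq_nonneg (y + 1), sq_nonneg (y - 1)]

/-- the restriction of the push-forward -/
theorem restrict_map_sq (μ : Measure ℝ) :
    ((μ.restrict (Set.Ioi 0)).map sq').restrict (Set.Ioi 0) = (μ.restrict (Set.Ioi 0)).map sq' := by
  rw [Measure.restrict_map sq'_cont.measurable measurableSet_Ioi, Measure.restrict_restrict
    (sq'_cont.measurable measurableSet_Ioi)]
  congr 2
  ext x
  simp only [Set.mem_inter_iff, Set.mem_preimage, Set.mem_Ioi, sq']
  constructor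
  · exact fun h => h.2
  · exact fun h => ⟨by positivity, h⟩

theorem intOn_map (μ : Measure ℝ) : IntegrableOn Real.log (Set.Ioi 0)
    ((μ.restrict (Set.Ioi 0)).map sq') ↔ IntegrableOn Real.log (Set.Ioi 0) μ := by
  unfold IntegrableOn
  rw [restrict_map_sq, integrable_map_measure Real.measurable_log.aestronglyMeasurable
    sq'_cont.measurable.aemeasurable]
  have : Real.log ∘ sq' = fun x => 2 * Real.log x := by
    funext x
    show Real.log (x ^ 2) = _
    rw [Real.log_pow]
    push_cast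
    ring
  rw [this, integrable_const_mul_iff (IsUnit.mk0 (2 : ℝ) two_ne_zero)]

theorem int_map (μ : Measure ℝ) : ∫ x in Set.Ioi (0 : ℝ), Real.log x
    ∂((μ.restrict (Set.Ioi 0)).map sq') = 2 * ∫ x in Set.Ioi (0 : ℝ), Real.log x ∂μ := by
  rw [restrict_map_sq, integral_map sq'_cont.measurable.aemeasurable
    Real.measurable_log.aestronglyMeasurable, ← integral_const_mul]
  refine integral_congr_ae (Filter.Eventually.of_forall fun x => ?_)
  show Real.log (x ^ 2) = _
  rw [Real.log_pow]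
  push_cast
  ring

end meas

section phi
variable {G : Type} [Group G] {ι κ : Type} [Fintype ι] [Fintype κ]

theorem Ph_add (A : Matrix ι κ (MonoidAlgebra ℤ G)) {f g : ℝ → ℝ} (hf : Continuous f)
    (hg : Continuous g) : Ph (fun x => f x + g x) A = Ph f A + Ph g A := by
  unfold Ph traceVal
  rw [← Finset.sum_add_distrib]
  refine Finset.sum_congr rfl fun i _ => ?_
  rw [cfc_add (R := ℝ) (a := opp A) (f := f) (g := g) (by fun_prop) (by fun_prop)]
  have key : ∀ {H : Type} [NormedAddCommGroup H] [InnerProductSpace ℂ H] (v a b : H),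
      (⟪v, a + b⟫_ℂ).re = (⟪v, a⟫_ℂ).re + (⟪v, b⟫_ℂ).re := by
    intro H _ _ v a b
    rw [inner_add_right, Complex.add_re]
  exact key _ _ _

theorem Ph_smul (A : Matrix ι κ (MonoidAlgebra ℤ G)) {f : ℝ → ℝ} (hf : Continuous f)
    (c : ℝ) : Ph (fun x => c * f x) A = c * Ph f A := by
  have := Ph_lin A hf c 0
  simpa using this

theorem Ph_pow [DecidableEq ι] (A : Matrix ι κ (MonoidAlgebra ℤ G)) (m : ℕ) :
    Ph (fun x => x ^ m) A = ((mt ((A * adj A) ^ m) : ℤ) : ℝ) := by
  have h := Ph_poly A (Polynomial.X ^ m)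
  have h1 : (fun x : ℝ => (Polynomial.X ^ m : Polynomial ℝ).eval x) = fun x => x ^ m := by
    funext x
    simp
  rw [h1] at h
  rw [h, Polynomial.natDegree_X_pow, Finset.sum_eq_single m]
  · rw [Polynomial.coeff_X_pow, if_pos rfl, one_mul]
  · intro k _ hk
    rw [Polynomial.coeff_X_pow, if_neg hk, zero_mul]
  · intro hm
    exact absurd (Finset.mem_range.2 (Nat.lt_succ_self m)) hm

theorem Ph_sum [DecidableEq ι] (A : Matrix ι κ (MonoidAlgebra ℤ G)) (s : Finset ℕ) (c : ℕ → ℝ)
    (k : ℕ → ℕ) : Ph (fun x => ∑ i ∈ s, c i * x ^ k i) A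
      = ∑ i ∈ s, c i * ((mt ((A * adj A) ^ k i) : ℤ) : ℝ) := by
  classical
  induction s using Finset.induction_on with
  | empty =>
    simp only [Finset.sum_empty]
    have := Ph_smul A (f := fun _ => 0) continuous_const 0
    simpa using this
  | insert a s ha ih =>
    simp only [Finset.sum_insert ha]
    rw [Ph_add A (by fun_prop) (by fun_prop), ih, Ph_smul A (by fun_prop), Ph_pow]

end phi

section split
variable {G : Type} [Group G] {r s t u w : ℕ}

/-- moments of positive order determine the traces of functions which vanish at zero -/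
theorem Ph_split (L : Matrix (Fin r) (Fin r) (MonoidAlgebra ℤ G))
    (A : Matrix (Fin s) (Fin t) (MonoidAlgebra ℤ G)) (B : Matrix (Fin u) (Fin w) (MonoidAlgebra ℤ G))
    (h : ∀ m, mt ((L * adj L) ^ (m + 1))
      = mt ((A * adj A) ^ (2 * (m + 1))) + mt ((B * adj B) ^ (2 * (m + 1))))
    {f g : ℝ → ℝ} (hf : Continuous f) (hg : Continuous g) (h0 : f 0 = 0)
    (hfg : ∀ x, 0 ≤ x → g x = f (x ^ 2)) : Ph f L = Ph g A + Ph g B := by
  have key : ∀ ε : ℝ, 0 < ε → |Ph f L - (Ph g A + Ph g B)| ≤ (r + s + u) * (2 * ε) := by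
    intro ε hε
    set K : ℝ := max ‖opp L‖ (max (‖opp A‖ ^ 2) (‖opp B‖ ^ 2)) with hK
    have hKL : ‖opp L‖ ≤ K := le_max_left _ _
    have hKA : ‖opp A‖ ^ 2 ≤ K := (le_max_left _ _).trans (le_max_right _ _)
    have hKB : ‖opp B‖ ^ 2 ≤ K := (le_max_right _ _).trans (le_max_right _ _)
    have hK0 : 0 ≤ K := (norm_nonneg _).trans hKL
    obtain ⟨p, hp⟩ := exists_polynomial_near_of_continuousOn 0 K f hf.continuousOn ε hε
    set q : ℝ → ℝ := fun x => ∑ i ∈ Finset.range p.natDegree, p.coeff (i + 1) * x ^ (i + 1) with hq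
    have hqp : ∀ x, q x = p.eval x - p.eval 0 := by
      intro x
      rw [hq]
      simp only
      rw [Polynomial.eval_eq_sum_range, Finset.sum_range_succ', ← Polynomial.coeff_zero_eq_eval_zero]
      ring
    have hqf : ∀ x ∈ Set.Icc 0 K, |f x - q x| ≤ 2 * ε := by
      intro x hx
      have h1 := hp x hx
      have h2 := hp 0 ⟨le_rfl, hK0⟩
      rw [h0] at h2
      rw [hqp, abs_le]
      rw [abs_lt] at h1 h2
      constructor <;> linarith [h1.1, h1.2, h2.1, h2.2]
    set q2 : ℝ → ℝ := fun x => ∑ i ∈ Finset.range p.natDegree, p.coeff (i + 1) * x ^ (2 * (i + 1))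
      with hq2
    have hq2q : ∀ x, q2 x = q (x ^ 2) := by
      intro x
      rw [hq2, hq]
      simp only [pow_mul]
    have hqg : ∀ N : ℝ, N ^ 2 ≤ K → ∀ x ∈ Set.Icc 0 N, |g x - q2 x| ≤ 2 * ε := by
      intro N hN x hx
      rw [hfg x hx.1, hq2q]
      apply hqf
      exact ⟨by positivity, le_trans (pow_le_pow_left₀ hx.1 hx.2 2) hN⟩
    have hqc : Continuous q := by
      rw [hq]
      fun_prop
    have hq2c : Continuous q2 := by
      rw [hq2]
      fun_prop
    have a1 := Ph_near L hKL hf hqc (by positivity) hqf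
    have a2 := Ph_near A le_rfl hg hq2c (by positivity) (hqg _ hKA)
    have a3 := Ph_near B le_rfl hg hq2c (by positivity) (hqg _ hKB)
    have a4 : Ph q L = Ph q2 A + Ph q2 B := by
      rw [hq, hq2, Ph_sum L _ (fun i => p.coeff (i + 1)) (fun i => i + 1),
        Ph_sum A _ (fun i => p.coeff (i + 1)) (fun i => 2 * (i + 1)),
        Ph_sum B _ (fun i => p.coeff (i + 1)) (fun i => 2 * (i + 1)), ← Finset.sum_add_distrib]
      refine Finset.sum_congr rfl fun m _ => ?_
      rw [h m]
      push_cast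
      ring
    rw [Fintype.card_fin] at a1 a2 a3
    rw [abs_le] at a1 a2 a3 ⊢
    constructor <;> nlinarith [a1.1, a1.2, a2.1, a2.2, a3.1, a3.2]
  have h0 : |Ph f L - (Ph g A + Ph g B)| ≤ 0 := by
    refine le_of_forall_pos_le_add fun ε hε => ?_
    have hc : (0 : ℝ) ≤ (r + s + u : ℝ) := by positivity
    have := key (ε / (2 * (r + s + u + 1))) (by positivity)
    rw [zero_add]
    refine this.trans ?_
    have e1 : ((r : ℝ) + s + u) * (2 * (ε / (2 * (r + s + u + 1))))
        = ((r : ℝ) + s + u) * ε / (r + s + u + 1) := by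
      field_simp
    rw [e1, div_le_iff₀ (by positivity)]
    nlinarith
  exact sub_eq_zero.1 (abs_nonpos_iff.1 h0)

/-- the spectral measure -/
abbrev sm (A : Matrix (Fin s) (Fin t) (MonoidAlgebra ℤ G)) : Measure ℝ :=
  specMeas unitVec (rMul (A.map toQ))

instance (A : Matrix (Fin s) (Fin t) (MonoidAlgebra ℤ G)) : IsLocallyFiniteMeasure (sm A) := by
  have hreg : Measure.Regular (sm A) := by
    unfold sm specMeas spectralMeasure
    infer_instance
  infer_instance

theorem int_sm (A : Matrix (Fin s) (Fin t) (MonoidAlgebra ℤ G)) {f : ℝ → ℝ} (hf : Continuous f)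
    (hc : HasCompactSupport f) : ∫ x, f x ∂(sm A) = Ph f A := by
  rw [Ph_fin A hf, ← rMul_gram]
  exact integral_spectralMeasure unitVec
    (ContinuousLinearMap.adjoint (rMul (A.map toQ)) ∘L rMul (A.map toQ)) ⟨⟨f, hf⟩, hc⟩

theorem int_map_sm (A : Matrix (Fin s) (Fin t) (MonoidAlgebra ℤ G)) {f : ℝ → ℝ}
    (hf : Continuous f) (hc : HasCompactSupport f) (h0 : ∀ x ≤ 0, f x = 0) :
    ∫ x, f x ∂(((sm A).restrict (Set.Ioi 0)).map sq') = Ph (fun x => f ((max x 0) ^ 2)) A := by
  rw [integral_map sq'_cont.measurable.aemeasurable hf.aestronglyMeasurable]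
  have hg : Continuous fun x : ℝ => f ((max x 0) ^ 2) := by fun_prop
  have hgc : HasCompactSupport fun x : ℝ => f ((max x 0) ^ 2) := by
    obtain ⟨R, hR⟩ := hc.isCompact.isBounded.subset_closedBall (0 : ℝ)
    apply HasCompactSupport.intro (isCompact_Icc (a := (0 : ℝ)) (b := |R| + 1))
    intro x hx
    by_contra hne
    have h1 : (max x 0) ^ 2 ∈ tsupport f := subset_tsupport _ hne
    have h2 := hR h1
    rw [mem_closedBall_zero_iff, Real.norm_eq_abs, abs_of_nonneg (sq_nonneg _)] at h2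
    rw [Set.mem_Icc, not_and_or, not_le, not_le] at hx
    rcases hx with hx | hx
    · rw [max_eq_right hx.le] at hne
      exact hne (h0 _ (by norm_num))
    · have h3 := abs_nonneg R
      have h4 := le_abs_self R
      rw [max_eq_left (by linarith)] at h2
      nlinarith
  rw [← int_sm A hg hgc, ← integral_add_compl (measurableSet_Ioi : MeasurableSet (Set.Ioi (0:ℝ)))
    (hg.integrable_of_hasCompactSupport hgc)]
  have h2 : ∫ x in (Set.Ioi (0 : ℝ))ᶜ, f ((max x 0) ^ 2) ∂(sm A) = 0 := by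
    apply setIntegral_eq_zero_of_forall_eq_zero
    intro x hx
    rw [Set.compl_Ioi, Set.mem_Iic] at hx
    rw [max_eq_right hx]
    exact h0 _ (by norm_num)
  rw [h2, add_zero]
  apply setIntegral_congr_fun measurableSet_Ioi
  intro x hx
  have hx' : (0 : ℝ) < x := hx
  show f (x ^ 2) = f ((max x 0) ^ 2)
  rw [max_eq_left hx'.le]

theorem sm_split (L : Matrix (Fin r) (Fin r) (MonoidAlgebra ℤ G))
    (A : Matrix (Fin s) (Fin t) (MonoidAlgebra ℤ G)) (B : Matrix (Fin u) (Fin w) (MonoidAlgebra ℤ G))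
    (h : ∀ m, mt ((L * adj L) ^ (m + 1))
      = mt ((A * adj A) ^ (2 * (m + 1))) + mt ((B * adj B) ^ (2 * (m + 1)))) :
    (sm L).restrict (Set.Ioi 0)
      = (((sm A).restrict (Set.Ioi 0)).map sq').restrict (Set.Ioi 0)
        + (((sm B).restrict (Set.Ioi 0)).map sq').restrict (Set.Ioi 0) := by
  have i1 : IsLocallyFiniteMeasure (((sm A).restrict (Set.Ioi 0)).map sq') := lf_sq _
  have i2 : IsLocallyFiniteMeasure (((sm B).restrict (Set.Ioi 0)).map sq') := lf_sq _
  rw [← Measure.restrict_add]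
  have i3 : IsLocallyFiniteMeasure (((sm A).restrict (Set.Ioi 0)).map sq'
      + ((sm B).restrict (Set.Ioi 0)).map sq') := by
    constructor
    intro x
    obtain ⟨a, ha, ha'⟩ := i1.finiteAtNhds x
    obtain ⟨b, hb, hb'⟩ := i2.finiteAtNhds x
    refine ⟨a ∩ b, Filter.inter_mem ha hb, ?_⟩
    rw [Measure.add_apply]
    exact ENNReal.add_lt_top.2 ⟨lt_of_le_of_lt (measure_mono Set.inter_subset_left) ha',
      lt_of_le_of_lt (measure_mono Set.inter_subset_right) hb'⟩
  apply ext_Ioi
  intro f hf hc h0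
  rw [integral_add_measure (hf.integrable_of_hasCompactSupport hc)
    (hf.integrable_of_hasCompactSupport hc), int_sm L hf hc, int_map_sm A hf hc h0,
    int_map_sm B hf hc h0]
  refine Ph_split L A B h hf (by fun_prop) (h0 0 le_rfl) fun x hx => ?_
  show f ((max x 0) ^ 2) = f (x ^ 2)
  rw [max_eq_left hx]

theorem fkDet_split (L : Matrix (Fin r) (Fin r) (MonoidAlgebra ℤ G))
    (A : Matrix (Fin s) (Fin t) (MonoidAlgebra ℤ G)) (B : Matrix (Fin u) (Fin w) (MonoidAlgebra ℤ G))
    (h : ∀ m, mt ((L * adj L) ^ (m + 1))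
      = mt ((A * adj A) ^ (2 * (m + 1))) + mt ((B * adj B) ^ (2 * (m + 1))))
    (hL : 0 < fkDet (rMul (L.map toQ))) :
    0 < fkDet (rMul (A.map toQ)) ∧ 0 < fkDet (rMul (B.map toQ)) ∧
      Real.log (fkDet (rMul (L.map toQ))) = 2 * Real.log (fkDet (rMul (A.map toQ)))
        + 2 * Real.log (fkDet (rMul (B.map toQ))) := by
  have h1 := sm_split L A B h
  have hlog : IntegrableOn Real.log (Set.Ioi 0) (sm L) := by
    by_contra hcon
    unfold fkDet detOf at hL
    rw [if_neg hcon] at hL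
    exact lt_irrefl _ hL
  have h2 := hlog
  unfold IntegrableOn at h2
  rw [h1, integrable_add_measure] at h2
  have hA : IntegrableOn Real.log (Set.Ioi 0) (sm A) := (intOn_map _).1 h2.1
  have hB : IntegrableOn Real.log (Set.Ioi 0) (sm B) := (intOn_map _).1 h2.2
  have h3 : ∫ x in Set.Ioi (0 : ℝ), Real.log x ∂(sm L)
      = 2 * (∫ x in Set.Ioi (0 : ℝ), Real.log x ∂(sm A))
        + 2 * ∫ x in Set.Ioi (0 : ℝ), Real.log x ∂(sm B) := by
    rw [h1, integral_add_measure h2.1 h2.2, int_map, int_map]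
  unfold fkDet detOf
  rw [if_pos hlog, if_pos hA, if_pos hB]
  refine ⟨Real.exp_pos _, Real.exp_pos _, ?_⟩
  rw [Real.log_exp, Real.log_exp, Real.log_exp, h3]
  ring

/-- the determinant of an operator on the zero module -/
theorem fkDet_empty (A : Matrix (Fin 0) (Fin t) (MonoidAlgebra ℤ G)) :
    fkDet (rMul (A.map toQ)) = 1 := by
  have h1 : sm A = 0 := by
    have hreg : Measure.Regular (sm A) := by
      unfold sm specMeas spectralMeasure
      infer_instance
    apply Measure.ext_of_integral_eq_on_compactlySupported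
    intro f
    refine (int_sm A f.continuous f.hasCompactSupport).trans ?_
    rw [integral_zero_measure]
    exact Ph_empty A f
  unfold fkDet detOf
  have h2 : specMeas unitVec (rMul (A.map toQ)) = 0 := h1
  have h3 : IntegrableOn Real.log (Set.Ioi 0) (0 : Measure ℝ) := by
    unfold IntegrableOn
    rw [Measure.restrict_zero]
    exact integrable_zero_measure
  rw [h2, if_pos h3, Measure.restrict_zero, integral_zero_measure, mul_zero, Real.exp_zero]

end split

section cx
variable {G : Type} [Group G] {s t : ℕ}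

theorem fkDet_of_eq_zero (hs : s = 0) (A : Matrix (Fin s) (Fin t) (MonoidAlgebra ℤ G)) :
    fkDet (rMul (A.map toQ)) = 1 := by
  subst hs
  exact fkDet_empty A

theorem add_pow_orth {r : ℕ} (X Y : Matrix (Fin r) (Fin r) (MonoidAlgebra ℤ G)) (h1 : X * Y = 0)
    (h2 : Y * X = 0) (k : ℕ) : (X + Y) ^ (k + 1) = X ^ (k + 1) + Y ^ (k + 1) := by
  induction k with
  | zero => simp
  | succ k ih =>
    rw [pow_succ, ih, pow_succ (n := k + 1) (a := X), pow_succ (n := k + 1) (a := Y)]
    have h3 : X ^ (k + 1) * Y = 0 := by rw [pow_succ, mul_assoc, h1, mul_zero]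
    have h4 : Y ^ (k + 1) * X = 0 := by rw [pow_succ, mul_assoc, h2, mul_zero]
    rw [add_mul, mul_add, mul_add, h3, h4, add_zero, zero_add]

theorem mt_gram_comm (A : Matrix (Fin s) (Fin t) (MonoidAlgebra ℤ G)) (k : ℕ) :
    mt ((adj A * A) ^ (k + 1)) = mt ((A * adj A) ^ (k + 1)) := by
  rw [pow_succ, ← Matrix.mul_assoc, mul_adj_pow_comm, Matrix.mul_assoc, mt_comm, Matrix.mul_assoc,
    ← pow_succ]

theorem mt_sq {r : ℕ} (L : Matrix (Fin r) (Fin r) (MonoidAlgebra ℤ G)) (hL : adj L = L) (m : ℕ) :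
    mt ((L * adj L) ^ (m + 1)) = mt (L ^ (2 * m + 1 + 1)) := by
  rw [hL, ← sq, ← pow_mul]
  rfl

variable (C : FreeCx G)

theorem lapM_adj (n : ℕ) : adj (lapM C n) = lapM C n := by
  cases n with
  | zero =>
    show adj (adj (C.d 0) * C.d 0) = adj (C.d 0) * C.d 0
    rw [adj_mul, adj_adj]
  | succ n =>
    show adj (adj (C.d (n + 1)) * C.d (n + 1) + C.d n * adj (C.d n))
      = adj (C.d (n + 1)) * C.d (n + 1) + C.d n * adj (C.d n)
    rw [adj_add, adj_mul, adj_mul, adj_adj, adj_adj]

theorem lap_mom_succ (n m : ℕ) : mt ((lapM C (n + 1) * adj (lapM C (n + 1))) ^ (m + 1))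
    = mt ((C.d (n + 1) * adj (C.d (n + 1))) ^ (2 * (m + 1)))
      + mt ((C.d n * adj (C.d n)) ^ (2 * (m + 1))) := by
  rw [mt_sq _ (lapM_adj C (n + 1))]
  have h0 : lapM C (n + 1) = adj (C.d (n + 1)) * C.d (n + 1) + C.d n * adj (C.d n) := rfl
  have h1 : adj (C.d (n + 1)) * C.d (n + 1) * (C.d n * adj (C.d n)) = 0 := by
    rw [Matrix.mul_assoc, ← Matrix.mul_assoc (C.d (n + 1)), C.d_comp_d, Matrix.zero_mul,
      Matrix.mul_zero]
  have h2 : C.d n * adj (C.d n) * (adj (C.d (n + 1)) * C.d (n + 1)) = 0 := by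
    have h3 : adj (C.d n) * adj (C.d (n + 1)) = 0 := by
      rw [← adj_mul, C.d_comp_d, adj_zero]
    rw [Matrix.mul_assoc, ← Matrix.mul_assoc (adj (C.d n)), h3, Matrix.zero_mul, Matrix.mul_zero]
  have h4 : ∀ {a : ℕ} (X Y : Matrix (Fin a) (Fin a) (MonoidAlgebra ℤ G)),
      mt (X + Y) = mt X + mt Y := by
    intro a X Y
    unfold mt
    rw [← Finset.sum_add_distrib]
    rfl
  rw [h0, add_pow_orth _ _ h1 h2, h4, mt_gram_comm]
  rfl

theorem lap_mom_zero (m : ℕ) : mt ((lapM C 0 * adj (lapM C 0)) ^ (m + 1))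
    = mt ((C.d 0 * adj (C.d 0)) ^ (2 * (m + 1)))
      + mt (((0 : Matrix (Fin 0) (Fin 0) (MonoidAlgebra ℤ G)) * adj 0) ^ (2 * (m + 1))) := by
  rw [mt_sq _ (lapM_adj C 0), mt_pow_empty ((_ : Matrix (Fin 0) (Fin 0) (MonoidAlgebra ℤ G))),
    add_zero]
  have h0 : lapM C 0 = adj (C.d 0) * C.d 0 := rfl
  rw [h0, mt_gram_comm]
  rfl

/-- the logarithm of the determinant of the boundary map out of degree `n` -/
def bl : ℕ → ℝ
  | 0 => 0
  | n + 1 => Real.log (fkDet (C.l2d n))

theorem split_lap (n : ℕ) (h : 0 < fkDet (C.laplacian n)) :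
    0 < fkDet (C.l2d n) ∧ Real.log (fkDet (C.laplacian n)) = 2 * (bl C n + bl C (n + 1)) := by
  rw [laplacian_eq] at h ⊢
  cases n with
  | zero =>
    obtain ⟨h1, -, h3⟩ := fkDet_split _ _ _ (lap_mom_zero C) h
    refine ⟨h1, ?_⟩
    rw [h3, fkDet_empty, Real.log_one]
    show _ = 2 * ((0 : ℝ) + Real.log (fkDet (C.l2d 0)))
    have h4 : C.l2d 0 = rMul ((C.d 0).map toQ) := rfl
    rw [h4]
    ring
  | succ n =>
    obtain ⟨h1, -, h3⟩ := fkDet_split _ _ _ (lap_mom_succ C n) h
    refine ⟨h1, ?_⟩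
    rw [h3]
    show _ = 2 * (Real.log (fkDet (C.l2d n)) + Real.log (fkDet (C.l2d (n + 1))))
    have h4 : C.l2d n = rMul ((C.d n).map toQ) := rfl
    have h5 : C.l2d (n + 1) = rMul ((C.d (n + 1)).map toQ) := rfl
    rw [h4, h5]
    ring

theorem bl_dim : bl C (C.dim + 1) = 0 := by
  show Real.log (fkDet (C.l2d C.dim)) = 0
  have h : fkDet (C.l2d C.dim) = 1 :=
    fkDet_of_eq_zero (C.rank_eq_zero (C.dim + 1) (Nat.lt_succ_self _)) (C.d C.dim)
  rw [h, Real.log_one]

/-- the torsion is the alternating sum over the boundary maps -/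
theorem l2torsion_eq (h : ∀ n, 0 < fkDet (C.laplacian n)) :
    C.l2torsion = ∑ n ∈ Finset.range C.dim, (-1 : ℝ) ^ n * Real.log (fkDet (C.l2d n)) := by
  have h1 : ∑ n ∈ Finset.range (C.dim + 1), (-1 : ℝ) ^ n * n * Real.log (fkDet (C.laplacian n))
      = 2 * ∑ n ∈ Finset.range (C.dim + 1), (-1 : ℝ) ^ n * n * (bl C n + bl C (n + 1)) := by
    rw [Finset.mul_sum]
    refine Finset.sum_congr rfl fun n _ => ?_
    rw [(split_lap C n (h n)).2]
    ring
  have h2 := alt_sum (bl C) C.dim
  rw [bl_dim] at h2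
  have h3 : ∑ n ∈ Finset.range (C.dim + 1), (-1 : ℝ) ^ n * bl C n
      = - ∑ n ∈ Finset.range C.dim, (-1 : ℝ) ^ n * Real.log (fkDet (C.l2d n)) := by
    rw [Finset.sum_range_succ', ← Finset.sum_neg_distrib]
    have h4 : bl C 0 = 0 := rfl
    rw [h4, mul_zero, add_zero]
    refine Finset.sum_congr rfl fun n _ => ?_
    show (-1 : ℝ) ^ (n + 1) * Real.log (fkDet (C.l2d n)) = _
    ring
  have h5 : bl C 0 = 0 := rfl
  unfold FreeCx.l2torsion
  rw [h1, h2, h3, h5]
  ring

end cx

end Pool.Agent.Helper653_Tor
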