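import Pool.Agent.Helper653_Tor.Inj

/-!
# Free resolutions, Ore sets and twisted contractions
-/

set_option autoImplicit false
set_option linter.unusedSectionVars false
open scoped InnerProductSpace Topology

noncomputable section

namespace Pool.Agent.Helper653_Tor
open Pool.Agent.TH630.Tor Pool.Agent.Helper993.FK

section
variable {G : Type} [Group G]

/-- the augmentation of the integral group ring (the sum of the coefficients) -/
def aug (a : MonoidAlgebra ℤ G) : ℤ := a.coeff.sum fun _ c => c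

theorem aug_zero : aug (0 : MonoidAlgebra ℤ G) = 0 := by
  unfold aug
  rw [MonoidAlgebra.coeff_zero, Finsupp.sum_zero_index]

/-- The complex `C` is a resolution of the trivial module `ℤ`, with the augmentation
`C_0 → ℤ` which sends the `i`-th basis vector to `a i`. -/
structure IsResolution (C : FreeCx G) (a : Fin (C.rank 0) → ℤ) : Prop where
  surj : ∃ x : Fin (C.rank 0) → ℤ, ∑ i, x i * a i = 1
  exact_zero : ∀ x : Fin (C.rank 0) → MonoidAlgebra ℤ G,
    ∑ i, aug (x i) * a i = 0 ↔ ∃ y : Fin (C.rank 1) → MonoidAlgebra ℤ G, Matrix.vecMul y (C.d 0) = x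
  exact_succ : ∀ (n : ℕ) (x : Fin (C.rank (n + 1)) → MonoidAlgebra ℤ G),
    Matrix.vecMul x (C.d n) = 0 →
      ∃ y : Fin (C.rank (n + 2)) → MonoidAlgebra ℤ G, Matrix.vecMul y (C.d (n + 1)) = x

/-- an Ore set of elements of determinant one which contains an element of the augmentation
ideal -/
structure OreSet (S : Submonoid (MonoidAlgebra ℤ G)) : Prop where
  ore : ∀ s ∈ S, ∀ x : MonoidAlgebra ℤ G, ∃ s' ∈ S, ∃ x' : MonoidAlgebra ℤ G, s' * x = x' * s
  aug : ∃ s ∈ S, aug s = 0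
  det : ∀ s ∈ S, Dt (sc' 1 s) = 1

theorem OreSet.fam {S : Submonoid (MonoidAlgebra ℤ G)} (hS : OreSet S) {t : MonoidAlgebra ℤ G}
    (ht : t ∈ S) {ι : Type} [Fintype ι] (y : ι → MonoidAlgebra ℤ G) :
    ∃ s ∈ S, ∀ i, ∃ r : MonoidAlgebra ℤ G, s * y i = r * t := by
  classical
  have key : ∀ F : Finset ι, ∃ s ∈ S, ∀ i ∈ F, ∃ r : MonoidAlgebra ℤ G, s * y i = r * t := by
    intro F
    induction F using Finset.induction_on with
    | empty => exact ⟨1, one_mem _, fun i hi => by simp at hi⟩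
    | insert i F _ ih =>
      obtain ⟨s, hs, h⟩ := ih
      obtain ⟨s', hs', x', hx⟩ := hS.ore t ht (s * y i)
      refine ⟨s' * s, mul_mem hs' hs, fun j hj => ?_⟩
      rcases Finset.mem_insert.1 hj with rfl | hj
      · exact ⟨x', by rw [mul_assoc, hx]⟩
      · obtain ⟨r, hr⟩ := h j hj
        exact ⟨s' * r, by rw [mul_assoc, hr, mul_assoc]⟩
  obtain ⟨s, hs, h⟩ := key Finset.univ
  exact ⟨s, hs, fun i => h i (Finset.mem_univ i)⟩

theorem sc'_mul {a b : ℕ} (s : MonoidAlgebra ℤ G) (M : Matrix (Fin a) (Fin b) (MonoidAlgebra ℤ G))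
    (i : Fin a) (j : Fin b) : (sc' a s * M) i j = s * M i j := by
  unfold sc'
  rw [Matrix.diagonal_mul]

theorem mul_sc' {a b : ℕ} (s : MonoidAlgebra ℤ G) (M : Matrix (Fin a) (Fin b) (MonoidAlgebra ℤ G))
    (i : Fin a) (j : Fin b) : (M * sc' b s) i j = M i j * s := by
  unfold sc'
  rw [Matrix.mul_diagonal]

theorem adj_sc' (m : ℕ) (a : MonoidAlgebra ℤ G) : adj (sc' m a) = sc' m (inv' a) := by
  ext1 i j
  unfold sc'
  rw [adj_apply, Matrix.diagonal_apply, Matrix.diagonal_apply]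
  by_cases h : i = j
  · rw [if_pos h, if_pos h.symm]
  · rw [if_neg h, if_neg (Ne.symm h), inv'_zero]

theorem sc'_mul_sc' (m : ℕ) (a b : MonoidAlgebra ℤ G) : sc' m a * sc' m b = sc' m (a * b) := by
  unfold sc'
  rw [Matrix.diagonal_mul_diagonal]

theorem sc'_pow (m : ℕ) (a : MonoidAlgebra ℤ G) (k : ℕ) : sc' m a ^ k = sc' m (a ^ k) := by
  unfold sc'
  rw [Matrix.diagonal_pow]
  rfl

theorem mt_sc' (m : ℕ) (a : MonoidAlgebra ℤ G) : mt (sc' m a) = m * a.coeff 1 := by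
  unfold mt sc'
  simp

theorem mt_gram_sc' (m k : ℕ) (a : MonoidAlgebra ℤ G) :
    mt ((sc' m a * adj (sc' m a)) ^ k) = m * ((a * inv' a) ^ k).coeff 1 := by
  rw [adj_sc', sc'_mul_sc', sc'_pow, mt_sc']

theorem Dt_sc'_of_one {s : MonoidAlgebra ℤ G} (h : Dt (sc' 1 s) = 1) (m : ℕ) :
    Dt (sc' m s) = 1 := by
  induction m with
  | zero =>
    apply Dt_of_eq_one
    ext1 i j
    exact Fin.elim0 i
  | succ m ih =>
    have h1 : Dt (sc' (m + 1) s) = Dt (sc' m s) * Dt (sc' 1 s) := by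
      refine Dt_mul_of_mt _ _ _ fun k => ?_
      rw [mt_gram_sc', mt_gram_sc', mt_gram_sc']
      push_cast
      ring
    rw [h1, ih, h, one_mul]

theorem canc_one {s : MonoidAlgebra ℤ G} (h : Dt (sc' 1 s) = 1) {a : MonoidAlgebra ℤ G}
    (ha : a * s = 0) : a = 0 := by
  have hinj : ∀ v : L2Pow G 1, rZ (sc' 1 s) v = 0 → v = 0 :=
    inj_of_noAt _ (noAt_of_pos _ (by rw [h]; exact one_pos))
  have h1 : ∀ b : MonoidAlgebra ℤ G, b * s = 0 → b.coeff 1 = 0 := by
    intro b hb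
    have h2 : rZ (sc' 1 b) (unitVec 0) = 0 := by
      apply hinj
      rw [← rZ_mul, sc'_mul_sc', hb]
      have : sc' 1 (0 : MonoidAlgebra ℤ G) = 0 := by
        unfold sc'
        exact Matrix.diagonal_zero
      rw [this, rZ_zero]
    have h3 := inner_rMul_unitVec ((sc' 1 b).map toQ) (0 : Fin 1) (0 : Fin 1)
    have h4 : (rMul ((sc' 1 b).map toQ)) (unitVec 0) = (0 : L2Pow G 1) := h2
    rw [h4] at h3
    have h5 : (((((sc' 1 b).map toQ) 0 0).coeff 1 : ℚ) : ℂ) = 0 := by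
      rw [← h3]
      exact inner_zero_right (𝕜 := ℂ) (unitVec 0 : L2Pow G 1)
    rw [Matrix.map_apply, toQ_coeff] at h5
    unfold sc' at h5
    rw [Matrix.diagonal_apply_eq] at h5
    exact_mod_cast h5
  apply MonoidAlgebra.coeff_injective
  ext g
  have h2 := h1 (MonoidAlgebra.single g⁻¹ 1 * a) (by rw [mul_assoc, ha, mul_zero])
  rw [MonoidAlgebra.coeff_single_mul_apply] at h2
  simpa using h2

theorem OreSet.mat {S : Submonoid (MonoidAlgebra ℤ G)} (hS : OreSet S) {t : MonoidAlgebra ℤ G}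
    (ht : t ∈ S) {a b : ℕ} (M : Matrix (Fin a) (Fin b) (MonoidAlgebra ℤ G)) :
    ∃ s ∈ S, ∃ X : Matrix (Fin a) (Fin b) (MonoidAlgebra ℤ G), sc' a s * M = X * sc' b t := by
  obtain ⟨s, hs, hr⟩ := hS.fam ht (fun p : Fin a × Fin b => M p.1 p.2)
  choose r hr using hr
  refine ⟨s, hs, Matrix.of fun i j => r (i, j), ?_⟩
  ext1 i j
  rw [sc'_mul, mul_sc']
  exact hr (i, j)

theorem OreSet.canc {S : Submonoid (MonoidAlgebra ℤ G)} (hS : OreSet S) {t : MonoidAlgebra ℤ G}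
    (ht : t ∈ S) {a b : ℕ} (M : Matrix (Fin a) (Fin b) (MonoidAlgebra ℤ G))
    (h : M * sc' b t = 0) : M = 0 := by
  ext1 i j
  apply canc_one (hS.det t ht)
  rw [← mul_sc', h]
  rfl

theorem mat_of_rows {m k l : ℕ} (M : Matrix (Fin m) (Fin l) (MonoidAlgebra ℤ G))
    (B : Matrix (Fin k) (Fin l) (MonoidAlgebra ℤ G))
    (h : ∀ i, ∃ y : Fin k → MonoidAlgebra ℤ G, Matrix.vecMul y B = M i) :
    ∃ Y : Matrix (Fin m) (Fin k) (MonoidAlgebra ℤ G), Y * B = M := by
  choose Y hY using h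
  refine ⟨Matrix.of Y, ?_⟩
  ext1 i j
  have h1 := congrFun (hY i) j
  rw [← h1]
  rfl

theorem exact_mat {C : FreeCx G} {a : Fin (C.rank 0) → ℤ} (hC : IsResolution C a) (n m : ℕ)
    (M : Matrix (Fin m) (Fin (C.rank (n + 1))) (MonoidAlgebra ℤ G)) (h : M * C.d n = 0) :
    ∃ Y : Matrix (Fin m) (Fin (C.rank (n + 2))) (MonoidAlgebra ℤ G), Y * C.d (n + 1) = M := by
  have h1 : ∀ i, Matrix.vecMul (M i) (C.d n) = 0 := by
    intro i
    rw [← Matrix.mul_apply_eq_vecMul, h]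
    rfl
  exact mat_of_rows _ _ fun i => hC.exact_succ n (M i) (h1 i)

variable (C : FreeCx G) (S : Submonoid (MonoidAlgebra ℤ G))

/-- a stage of the construction -/
structure Stage (n : ℕ) where
  σ : MonoidAlgebra ℤ G
  mem : σ ∈ S
  h : Matrix (Fin (C.rank n)) (Fin (C.rank (n + 1))) (MonoidAlgebra ℤ G)
  Q : ∀ (t : MonoidAlgebra ℤ G)
    (D : Matrix (Fin (C.rank (n + 1))) (Fin (C.rank n)) (MonoidAlgebra ℤ G)),
    sR C (n + 1) t * C.d n = D * sR C n σ → (sR C (n + 1) t - D * h) * C.d n = 0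

variable {C S}

theorem stage_zero {a : Fin (C.rank 0) → ℤ} (hC : IsResolution C a) (hS : OreSet S) :
    ∃ x : Stage C S 0, x.h * C.d 0 = sR C 0 x.σ := by
  obtain ⟨s, hs, hs0⟩ := hS.aug
  have h1 : ∀ i : Fin (C.rank 0), ∃ y : Fin (C.rank 1) → MonoidAlgebra ℤ G,
      Matrix.vecMul y (C.d 0) = sR C 0 s i := by
    intro i
    rw [← hC.exact_zero]
    apply Finset.sum_eq_zero
    intro j _
    have h2 : aug (sR C 0 s i j) = 0 := by
      unfold sR sc'
      rw [Matrix.diagonal_apply]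
      split_ifs
      · exact hs0
      · exact aug_zero
    rw [h2, zero_mul]
  obtain ⟨Y, h2⟩ := mat_of_rows _ _ h1
  refine ⟨⟨s, hs, Y, ?_⟩, h2⟩
  intro t D hD
  rw [Matrix.sub_mul, Matrix.mul_assoc, h2, hD, sub_self]

theorem stage_succ {a : Fin (C.rank 0) → ℤ} (hC : IsResolution C a) (hS : OreSet S) (n : ℕ)
    (x : Stage C S n) :
    ∃ (y : Stage C S (n + 1))
      (D : Matrix (Fin (C.rank (n + 1))) (Fin (C.rank n)) (MonoidAlgebra ℤ G)),
      sR C (n + 1) y.σ * C.d n = D * sR C n x.σ ∧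
      y.h * C.d (n + 1) + D * x.h = sR C (n + 1) y.σ := by
  obtain ⟨s, hs, D, hD⟩ := hS.mat x.mem (C.d n)
  have hD' : sR C (n + 1) s * C.d n = D * sR C n x.σ := hD
  have h1 := x.Q s D hD'
  obtain ⟨Y, hY⟩ := exact_mat hC n _ _ h1
  refine ⟨⟨s, hs, Y, ?_⟩, D, hD', ?_⟩
  · intro t E hE
    rw [Matrix.sub_mul, Matrix.mul_assoc, hY, Matrix.mul_sub, hE, sub_sub_cancel]
    have h2 : E * D = 0 := by
      apply hS.canc x.mem
      show E * D * sR C n x.σ = 0
      rw [Matrix.mul_assoc, ← hD', ← Matrix.mul_assoc, ← hE, Matrix.mul_assoc, C.d_comp_d,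
        Matrix.mul_zero]
    rw [← Matrix.mul_assoc, h2, Matrix.zero_mul]
  · show Y * C.d (n + 1) + D * x.h = sR C (n + 1) s
    rw [hY]
    abel

theorem exists_Hty {a : Fin (C.rank 0) → ℤ} (hC : IsResolution C a) (hS : OreSet S) :
    Nonempty (Hty C) := by
  obtain ⟨x0, hx0⟩ := stage_zero hC hS
  choose nx D h1 h2 using stage_succ hC hS
  let f : ∀ n, Stage C S n := fun n => Nat.rec x0 (fun n x => nx n x) n
  have hf : ∀ n, f (n + 1) = nx n (f n) := fun n => rfl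
  refine ⟨⟨fun n => (f n).σ, fun n => D n (f n), fun n => (f n).h, ?_, ?_, ?_, ?_, ?_, ?_⟩⟩
  · intro n
    rw [hf]
    exact h1 n (f n)
  · exact hx0
  · intro n
    rw [hf]
    exact h2 n (f n)
  · intro n m
    exact Dt_sc'_of_one (hS.det _ (f n).mem) _
  · intro n k l M hM
    exact hS.canc (f n).mem M hM
  · intro n m M
    obtain ⟨s, hs, X, hX⟩ := hS.mat (f n).mem M
    exact ⟨s, X, Dt_sc'_of_one (hS.det s hs) _, hX⟩

theorem torsion_of_oreSet (hG : IsSofic G) {a : Fin (C.rank 0) → ℤ} (hC : IsResolution C a)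
    (hS : OreSet S) : C.DetL2Acyclic ∧ C.l2torsion = 0 := by
  obtain ⟨H⟩ := exists_Hty hC hS
  exact ⟨detL2Acyclic H hG, torsion_eq_zero H hG⟩

end
end Pool.Agent.Helper653_Tor
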