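import Pool.Agent.Helper653_Tor.Ore
import Pool.Agent.Helper653_Tor.Res

/-!
# The determinants of the scalar matrices `u - 1`
-/

set_option autoImplicit false
set_option linter.unusedSectionVars false
open scoped Topology Matrix

noncomputable section

namespace Pool.Agent.Helper653_Tor
open Pool.Agent.Helper993.FK Pool.Agent.H712R5.BO

section
variable {G : Type} [Group G]

/-- the group `ℤ` -/
abbrev Zm : Type := Multiplicative ℤ

/-- the generator -/
abbrev tz : Zm := Multiplicative.ofAdd 1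

/-- evaluation at `u` -/
def evU (u : G) : MonoidAlgebra ℤ Zm →+* MonoidAlgebra ℤ G :=
  MonoidAlgebra.mapDomainRingHom ℤ (zpowersHom G u)

theorem evU_single (u : G) (z : Zm) (c : ℤ) : evU u (MonoidAlgebra.single z c)
    = MonoidAlgebra.single (u ^ (Multiplicative.toAdd z)) c := by
  unfold evU
  rw [MonoidAlgebra.mapDomainRingHom_apply, MonoidAlgebra.mapDomain_single]
  rfl

theorem zpow_eq_one {u : G} (hu : ¬ IsOfFinOrder u) (n : ℤ) : u ^ n = 1 ↔ n = 0 := by
  constructor
  · intro h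
    have h1 : Function.Injective (fun n : ℤ => u ^ n) := injective_zpow_iff_not_isOfFinOrder.mpr hu
    apply h1
    simpa using h
  · rintro rfl
    exact zpow_zero u

theorem evU_coeff {u : G} (hu : ¬ IsOfFinOrder u) (a : MonoidAlgebra ℤ Zm) :
    (evU u a).coeff 1 = a.coeff 1 := by
  classical
  induction a using MonoidAlgebra.induction_linear with
  | zero => rw [map_zero]; rfl
  | add a b h1 h2 =>
    rw [map_add, MonoidAlgebra.coeff_add, MonoidAlgebra.coeff_add, Finsupp.add_apply,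
      Finsupp.add_apply, h1, h2]
  | single z c =>
    rw [evU_single, MonoidAlgebra.coeff_single, MonoidAlgebra.coeff_single, Finsupp.single_apply,
      Finsupp.single_apply]
    have : u ^ (Multiplicative.toAdd z) = 1 ↔ z = 1 := by
      rw [zpow_eq_one hu]
      exact Iff.rfl
    simp only [this]

/-- the sign character -/
def sgn : Zm →* MonoidAlgebra ℤ Zm where
  toFun z := MonoidAlgebra.single z (((-1 : ℤˣ) ^ (Multiplicative.toAdd z) : ℤˣ) : ℤ)
  map_one' := by
    rw [toAdd_one, zpow_zero, Units.val_one]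
    rfl
  map_mul' a b := by
    rw [MonoidAlgebra.single_mul_single, toAdd_mul, zpow_add, Units.val_mul]

/-- the twist `t ↦ -t` -/
def tw : MonoidAlgebra ℤ Zm →ₐ[ℤ] MonoidAlgebra ℤ Zm :=
  MonoidAlgebra.lift ℤ (MonoidAlgebra ℤ Zm) Zm sgn

theorem tw_single (z : Zm) (c : ℤ) : tw (MonoidAlgebra.single z c)
    = MonoidAlgebra.single z (c * (((-1 : ℤˣ) ^ (Multiplicative.toAdd z) : ℤˣ) : ℤ)) := by
  unfold tw
  rw [MonoidAlgebra.lift_single]
  show c • MonoidAlgebra.single z _ = _
  rw [MonoidAlgebra.smul_single, smul_eq_mul]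

theorem tw_coeff (a : MonoidAlgebra ℤ Zm) : (tw a).coeff 1 = a.coeff 1 := by
  classical
  induction a using MonoidAlgebra.induction_linear with
  | zero => rw [map_zero]
  | add a b h1 h2 =>
    rw [map_add, MonoidAlgebra.coeff_add, MonoidAlgebra.coeff_add, Finsupp.add_apply,
      Finsupp.add_apply, h1, h2]
  | single z c =>
    rw [tw_single, MonoidAlgebra.coeff_single, MonoidAlgebra.coeff_single, Finsupp.single_apply,
      Finsupp.single_apply]
    by_cases h : z = 1
    · rw [if_pos h, if_pos h, h, toAdd_one, zpow_zero, Units.val_one, mul_one]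
    · rw [if_neg h, if_neg h]

/-- the element `(t - 1)(t⁻¹ - 1)` -/
def wz : MonoidAlgebra ℤ Zm :=
  (MonoidAlgebra.single tz 1 - 1) * (MonoidAlgebra.single tz⁻¹ 1 - 1)

theorem inv'_sub (a b : MonoidAlgebra ℤ G) : inv' (a - b) = inv' a - inv' b := by
  have h := inv'_add (a - b) b
  rw [sub_add_cancel] at h
  rw [h, add_sub_cancel_right]

theorem om_gram (u : G) : om u * inv' (om u) = evU u wz := by
  unfold om wz
  rw [map_mul, map_sub, map_sub, map_one, evU_single, evU_single, inv'_sub, inv'_single, inv'_one]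
  simp

/-- the element `u + 1` -/
def op' (u : G) : MonoidAlgebra ℤ G := MonoidAlgebra.single u 1 + 1

theorem op'_gram (u : G) : op' u * inv' (op' u) = evU u (tw wz) := by
  unfold op' wz
  rw [map_mul, map_sub, map_sub, map_one, tw_single, tw_single, map_mul, map_sub, map_sub, map_one,
    evU_single, evU_single, inv'_add, inv'_single, inv'_one]
  have e1 : (1 : ℤ) * (((-1 : ℤˣ) ^ (Multiplicative.toAdd tz) : ℤˣ) : ℤ) = -1 := by simp
  have e2 : (1 : ℤ) * (((-1 : ℤˣ) ^ (Multiplicative.toAdd tz⁻¹) : ℤˣ) : ℤ) = -1 := by simp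
  rw [e1, e2]
  have e3 : u ^ Multiplicative.toAdd tz = u := by simp
  have e4 : u ^ Multiplicative.toAdd tz⁻¹ = u⁻¹ := by simp
  have e5 : ∀ v : G, MonoidAlgebra.single v (-1 : ℤ) = - MonoidAlgebra.single v (1 : ℤ) := by
    intro v
    rw [← MonoidAlgebra.single_neg]
  rw [e3, e4, e5, e5]
  noncomm_ring

/-- equality of determinants of scalar matrices -/
theorem Dt_sc_eq {u v : G} (hu : ¬ IsOfFinOrder u) (hv : ¬ IsOfFinOrder v) (m : ℕ)
    (a b : MonoidAlgebra ℤ G) (f : MonoidAlgebra ℤ Zm →+* MonoidAlgebra ℤ Zm)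
    (hf : ∀ x, (f x).coeff 1 = x.coeff 1)
    (ha : a * inv' a = evU u wz) (hb : b * inv' b = evU v (f wz)) :
    Dt (sc' m a) = Dt (sc' m b) := by
  refine Dt_eq_of_mt _ _ fun k => ?_
  rw [adj_sc', adj_sc', sc'_mul_sc', sc'_mul_sc', sc'_pow, sc'_pow, mt_sc', mt_sc', ha, hb,
    ← map_pow, ← map_pow, ← map_pow, evU_coeff hu, evU_coeff hv, hf]

theorem om_sq (u : G) : om u * op' u = om (u ^ 2) := by
  unfold om op'
  have : MonoidAlgebra.single (u ^ 2) (1 : ℤ) = MonoidAlgebra.single u 1 * MonoidAlgebra.single u 1 := by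
    rw [MonoidAlgebra.single_mul_single, sq, one_mul]
  rw [this]
  noncomm_ring

theorem Dt_om_sq {u : G} (hu : ¬ IsOfFinOrder u) (m : ℕ) :
    Dt (sc' m (om u)) = Dt (sc' m (om u)) * Dt (sc' m (om u)) := by
  have hu2 : ¬ IsOfFinOrder (u ^ 2) := by
    intro h
    exact hu (h.of_pow (by norm_num))
  have h1 : Dt (sc' m (om u)) = Dt (sc' m (op' u)) :=
    Dt_sc_eq hu hu m _ _ tw.toRingHom tw_coeff (om_gram u) (op'_gram u)
  have h2 : Dt (sc' m (om u)) = Dt (sc' m (om (u ^ 2))) :=
    Dt_sc_eq hu hu2 m _ _ (RingHom.id _) (fun _ => rfl) (om_gram u) (om_gram (u ^ 2))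
  have h3 : Dt (sc' m (om (u ^ 2))) = Dt (sc' m (om u)) * Dt (sc' m (op' u)) := by
    rw [← om_sq, ← sc'_mul_sc', Dt_mul']
  rw [← h1, ← h2] at h3
  exact h3

theorem fz_sc' (m : ℕ) (a : MonoidAlgebra ℤ G) : fz (sc' m a) = sc' (Fintype.card (Fin m)) a := by
  unfold fz sc'
  rw [Matrix.submatrix_diagonal_equiv]
  rfl

theorem toQ_om (u : G) (m : ℕ) : (sc' m (om u)).map toQ = zeta u m := by
  have h0 : MonoidAlgebra.mapRingHom G (Int.castRingHom ℚ) (om u) = MonoidAlgebra.single u 1 - 1 := by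
    unfold om
    rw [map_sub, map_one, MonoidAlgebra.mapRingHom_single]
    simp
  unfold sc' zeta
  ext1 i j
  rw [Matrix.map_apply, Matrix.diagonal_apply, Matrix.diagonal_apply]
  by_cases h : i = j
  · rw [if_pos h, if_pos h]
    exact h0
  · rw [if_neg h, if_neg h]
    exact map_zero (MonoidAlgebra.mapRingHom G (Int.castRingHom ℚ))

/-- no atom at zero -/
theorem noAt_om {u : G} (hu : ¬ IsOfFinOrder u) (m : ℕ) : NoAt (sc' m (om u)) := by
  apply noAt_of_inj
  intro v hv
  rw [opp_eq, ← adjoint_comp_rMul] at hv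
  have h1 := ker_adjoint_comp _ v hv
  rw [fz_sc', toQ_om] at h1
  exact zeta_inj hu v h1

/-- the determinant of `u - 1` -/
theorem Dt_om (hG : IsSofic G) {u : G} (hu : ¬ IsOfFinOrder u) (m : ℕ) : Dt (sc' m (om u)) = 1 := by
  have h1 := Dt_om_sq hu m
  have h2 := sofic_integral hG _ (noAt_om hu m)
  nlinarith

theorem Dt_SS (hG : IsSofic G) {g : G} (hg : ¬ IsOfFinOrder g) {s : MonoidAlgebra ℤ G}
    (hs : s ∈ SS g) : ∀ m : ℕ, Dt (sc' m s) = 1 := by
  unfold SS at hs
  induction hs using Submonoid.closure_induction with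
  | mem x hx =>
    obtain ⟨u, hu, rfl⟩ := hx
    exact Dt_om hG (US_order hg hu)
  | one =>
    intro m
    have : sc' m (1 : MonoidAlgebra ℤ G) = 1 := by
      unfold sc'
      exact Matrix.diagonal_one
    rw [this, Dt_one]
  | mul a b _ _ h1 h2 =>
    intro m
    rw [← sc'_mul_sc', Dt_mul', h1, h2, mul_one]

theorem aug_om (u : G) : aug (om u) = 0 := by
  unfold aug om
  rw [MonoidAlgebra.coeff_sub, Finsupp.sum_sub_index (fun _ _ _ => rfl), MonoidAlgebra.coeff_single,
    MonoidAlgebra.one_def, MonoidAlgebra.coeff_single, Finsupp.sum_single_index rfl,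
    Finsupp.sum_single_index rfl, sub_self]

/-- the set `SS g` is an Ore set -/
theorem oreSet_SS (hG : IsSofic G) {g : G} (hg : ¬ IsOfFinOrder g) (hc : CommPow g) :
    OreSet (SS g) := by
  refine ⟨?_, ?_, ?_⟩
  · intro s hs x
    obtain ⟨s', hs', h⟩ := ore_fam hc hs (fun _ : Unit => x)
    obtain ⟨r, hr⟩ := h ()
    exact ⟨s', hs', r, hr⟩
  · exact ⟨om g, om_mem (US_self g), aug_om g⟩
  · intro s hs
    exact Dt_SS hG hg hs 1

end
end Pool.Agent.Helper653_Tor
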