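import Pool.Agent.Helper653_Tor.Blk

/-!
# Atoms at zero
-/

set_option autoImplicit false
set_option linter.unusedSectionVars false
open scoped InnerProductSpace Topology ComplexConjugate InnerProduct

noncomputable section

namespace Pool.Agent.Helper653_Tor
open Pool.Agent.Helper993.FK Pool.Agent.H712R5.BO

section
variable {G : Type} [Group G] {ι κ μ ν : Type} [Fintype ι] [Fintype κ] [Fintype μ] [Fintype ν]

theorem Ph_lin (A : Matrix ι κ (MonoidAlgebra ℤ G)) {f : ℝ → ℝ} (hf : Continuous f) (a b : ℝ) :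
    Ph (fun x => a * f x + b) A = a * Ph f A + Fintype.card ι * b := by
  unfold Ph traceVal
  have hsa : IsSelfAdjoint (opp A) := IsSelfAdjoint.of_nonneg (opp_nonneg A)
  have h1 : cfc (fun x => a * f x + b) (opp A) = a • cfc f (opp A) + algebraMap ℝ _ b := by
    rw [cfc_add_const b (fun x => a * f x) (opp A) (by fun_prop), cfc_const_mul a f (opp A)
      (by fun_prop)]
  have h2 : ∀ i, (⟪(unitVec i : L2Pow G (Fintype.card ι)),
      cfc (fun x => a * f x + b) (opp A) (unitVec i)⟫_ℂ).re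
      = a * (⟪(unitVec i : L2Pow G (Fintype.card ι)), cfc f (opp A) (unitVec i)⟫_ℂ).re + b := by
    intro i
    rw [h1]
    have h3 : (algebraMap ℝ (L2Pow G (Fintype.card ι) →L[ℂ] L2Pow G (Fintype.card ι)) b)
        (unitVec i) = ((b : ℝ) : ℂ) • (unitVec i : L2Pow G (Fintype.card ι)) := by
      rw [Algebra.algebraMap_eq_smul_one]
      rfl
    have h4 : (a • cfc f (opp A) + algebraMap ℝ _ b) (unitVec i)
        = ((a : ℝ) : ℂ) • (cfc f (opp A) (unitVec i)) + ((b : ℝ) : ℂ) • (unitVec i : L2Pow G _) := by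
      rw [add_apply, h3]
      rfl
    have key : ∀ {H : Type} [NormedAddCommGroup H] [InnerProductSpace ℂ H] (v w : H), ‖v‖ = 1 →
        (⟪v, ((a : ℝ) : ℂ) • w + ((b : ℝ) : ℂ) • v⟫_ℂ).re = a * (⟪v, w⟫_ℂ).re + b := by
      intro H _ _ v w hv
      rw [inner_add_right, inner_smul_right, Complex.add_re, inner_smul_self' v hv,
        Complex.re_ofReal_mul]
    rw [h4]
    exact key _ _ (norm_unitVec i)
  simp only [h2]
  rw [Finset.sum_add_distrib, ← Finset.mul_sum]
  simp

theorem Ph_mono (A : Matrix ι κ (MonoidAlgebra ℤ G)) {f g : ℝ → ℝ} (hf : Continuous f)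
    (hg : Continuous g) (h : ∀ x ∈ Set.Icc 0 ‖opp A‖, f x ≤ g x) : Ph f A ≤ Ph g A :=
  traceVal_mono unitVec (opp A) (opp_nonneg A) le_rfl hf hg h

/-- the spectral measure of `A A*` has no atom at zero -/
def NoAt (A : Matrix ι κ (MonoidAlgebra ℤ G)) : Prop :=
  ∀ η : ℝ, 0 < η → ∃ δ : ℝ, 0 < δ ∧ Ph (bump δ) A ≤ η

theorem noAt_of_inj (A : Matrix ι κ (MonoidAlgebra ℤ G)) (h : ∀ v, opp A v = 0 → v = 0) :
    NoAt A := fun _ hη =>
  bump_small unitVec (fun i => (norm_unitVec i).le) (opp A) (opp_nonneg A) h hη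

theorem noAt_of_pos (A : Matrix ι κ (MonoidAlgebra ℤ G)) (h : 0 < Dt A) : NoAt A := by
  by_contra hcon
  unfold NoAt at hcon
  push Not at hcon
  obtain ⟨η, hη, hcon⟩ := hcon
  set K := ‖opp A‖ with hK
  have hK0 : 0 ≤ K := norm_nonneg _
  have h1 : ∀ ε : ℝ, 0 < ε → ε ≤ 1 / 2 →
      Dt A ≤ Real.exp (η * Real.log (2 * ε) + Fintype.card ι * Real.log (1 + K)) := by
    intro ε hε hε2
    refine (Dt_le A hε).trans (Real.exp_le_exp.2 ?_)
    have hlog : Real.log (2 * ε) ≤ 0 := Real.log_nonpos (by positivity) (by linarith)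
    have h2 : LL ε A ≤ Ph (fun x => Real.log (2 * ε) * bump ε x + Real.log (1 + K)) A := by
      refine Ph_mono A (lg_cont hε) ?_ ?_
      · have := bump_continuous ε
        fun_prop
      · intro x hx
        unfold lg
        rw [max_eq_left hx.1]
        have hlK : 0 ≤ Real.log (1 + K) := Real.log_nonneg (by linarith)
        rcases lt_or_ge x ε with hxe | hxe
        · have h3 : Real.log (ε + x) ≤ Real.log (2 * ε) :=
            Real.log_le_log (by linarith [hx.1]) (by linarith)
          have h4 := bump_le_one ε x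
          have h5 : Real.log (2 * ε) ≤ Real.log (2 * ε) * bump ε x := by nlinarith
          linarith
        · rw [bump_of_le hε hxe, mul_zero, zero_add]
          exact Real.log_le_log (by linarith [hx.1]) (by linarith [hx.2])
    refine h2.trans ?_
    rw [Ph_lin A (bump_continuous ε)]
    have h3 := (hcon ε hε).le
    have h4 : Real.log (2 * ε) * Ph (bump ε) A ≤ Real.log (2 * ε) * η :=
      mul_le_mul_of_nonpos_left h3 hlog
    linarith
  have h2 : Filter.Tendsto (fun ε : ℝ =>
      Real.exp (η * Real.log (2 * ε) + Fintype.card ι * Real.log (1 + K))) (𝓝[>] 0) (𝓝 0) := by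
    refine Real.tendsto_exp_atBot.comp (Filter.tendsto_atBot_add_const_right _ _ ?_)
    refine Filter.Tendsto.const_mul_atBot hη ?_
    have h3 : Filter.Tendsto (fun ε : ℝ => 2 * ε) (𝓝[>] 0) (𝓝[>] 0) := by
      refine tendsto_nhdsWithin_iff.2 ⟨?_, ?_⟩
      · have : Filter.Tendsto (fun ε : ℝ => 2 * ε) (𝓝 0) (𝓝 (2 * 0)) :=
          (continuous_const.mul continuous_id).tendsto 0
        rw [mul_zero] at this
        exact this.mono_left nhdsWithin_le_nhds
      · filter_upwards [self_mem_nhdsWithin] with ε hε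
        have : (0 : ℝ) < ε := hε
        exact Set.mem_Ioi.2 (by linarith)
    exact Real.tendsto_log_nhdsGT_zero.comp h3
  have h3 : Dt A ≤ 0 := by
    refine ge_of_tendsto h2 ?_
    have h4 : Set.Ioo (0 : ℝ) (1 / 2) ∈ 𝓝[>] (0 : ℝ) := Ioo_mem_nhdsGT (by norm_num)
    filter_upwards [h4] with ε hε
    exact h1 ε hε.1 hε.2.le
  linarith

end
end Pool.Agent.Helper653_Tor
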