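import Pool.Agent.Helper653_Tor.SofA
import Pool.Agent.Helper653_Tor.Kr
import Pool.Agent.TH322.AC.Lim

/-!
# Sofic groups: integrality of determinants
-/

set_option autoImplicit false
set_option linter.unusedSectionVars false
open scoped Topology Matrix

noncomputable section

namespace Pool.Agent.Helper653_Tor
open Pool.Agent.Helper993.FK Pool.Agent.H712R5.BO

/-- permutation matrices -/
def pm (n : ℕ) : Equiv.Perm (Fin n) →* Matrix (Fin n) (Fin n) ℤ where
  toFun σ := Matrix.of fun i j => if i = σ j then 1 else 0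
  map_one' := by
    ext1 i j
    rw [Matrix.of_apply, Matrix.one_apply]
    rfl
  map_mul' σ τ := by
    ext1 i j
    rw [Matrix.mul_apply, Matrix.of_apply]
    simp only [Matrix.of_apply]
    rw [Finset.sum_eq_single (τ j)]
    · rw [if_pos rfl, mul_one]
      rfl
    · intro k _ hk
      rw [if_neg hk, mul_zero]
    · intro h
      exact absurd (Finset.mem_univ _) h

theorem pm_apply {n : ℕ} (σ : Equiv.Perm (Fin n)) (i j : Fin n) :
    pm n σ i j = if i = σ j then 1 else 0 := rfl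

theorem pm_inv {n : ℕ} (σ : Equiv.Perm (Fin n)) : pm n σ⁻¹ = (pm n σ)ᵀ := by
  ext1 i j
  rw [Matrix.transpose_apply, pm_apply, pm_apply]
  have : i = σ⁻¹ j ↔ j = σ i := by
    constructor
    · intro h; rw [h]; simp
    · intro h; rw [h]; simp
  simp only [this]

theorem trace_pm {n : ℕ} (σ : Equiv.Perm (Fin n)) :
    Matrix.trace (pm n σ) = ((Finset.univ.filter fun i => σ i = i).card : ℤ) := by
  unfold Matrix.trace
  simp only [Matrix.diag_apply, pm_apply]
  rw [Finset.sum_ite, Finset.sum_const_zero, add_zero, Finset.sum_const, nsmul_eq_mul, mul_one]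
  congr 2
  ext i
  simp [eq_comm]

theorem row_pm {n : ℕ} (σ : Equiv.Perm (Fin n)) (i : Fin n) : ∑ j, |pm n σ i j| = 1 := by
  rw [Finset.sum_eq_single (σ⁻¹ i)]
  · rw [pm_apply, if_pos (by simp), abs_one]
  · intro j _ hj
    rw [pm_apply, if_neg, abs_zero]
    intro h
    apply hj
    rw [h]
    simp
  · intro h
    exact absurd (Finset.mem_univ _) h

theorem col_pm {n : ℕ} (σ : Equiv.Perm (Fin n)) (j : Fin n) : ∑ i, |pm n σ i j| = 1 := by
  have h := row_pm σ⁻¹ j
  simpa only [pm_inv, Matrix.transpose_apply] using h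

section
variable {G : Type} [Group G]

/-- the representation of the group ring of the free group -/
def Th (x : SX G) : MonoidAlgebra ℤ (FreeGroup G) →ₐ[ℤ] Matrix (Fin x.1) (Fin x.1) ℤ :=
  MonoidAlgebra.lift ℤ (Matrix (Fin x.1) (Fin x.1) ℤ) (FreeGroup G) ((pm x.1).comp (rho x))

theorem Th_single (x : SX G) (w : FreeGroup G) (c : ℤ) :
    Th x (MonoidAlgebra.single w c) = c • pm x.1 (rho x w) := by
  unfold Th
  rw [MonoidAlgebra.lift_single]
  rfl

theorem Th_apply (x : SX G) (a : MonoidAlgebra ℤ (FreeGroup G)) :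
    Th x a = ∑ w ∈ a.coeff.support, a.coeff w • pm x.1 (rho x w) := by
  unfold Th
  rw [MonoidAlgebra.lift_apply]
  rfl

theorem Th_inv (x : SX G) (a : MonoidAlgebra ℤ (FreeGroup G)) : Th x (inv' a) = (Th x a)ᵀ := by
  induction a using MonoidAlgebra.induction_linear with
  | zero => rw [inv'_zero, map_zero, Matrix.transpose_zero]
  | add a b h1 h2 => rw [inv'_add, map_add, h1, h2, map_add, Matrix.transpose_add]
  | single w c => rw [inv'_single, Th_single, Th_single, map_inv, pm_inv, Matrix.transpose_smul]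

/-- the `ℓ¹` norm -/
def l1 (a : MonoidAlgebra ℤ (FreeGroup G)) : ℝ := ∑ w ∈ a.coeff.support, |(a.coeff w : ℝ)|

theorem l1_nonneg (a : MonoidAlgebra ℤ (FreeGroup G)) : 0 ≤ l1 a :=
  Finset.sum_nonneg fun _ _ => abs_nonneg _

theorem Th_entry (x : SX G) (a : MonoidAlgebra ℤ (FreeGroup G)) (i j : Fin x.1) :
    |((Th x a i j : ℤ) : ℝ)| ≤ ∑ w ∈ a.coeff.support, |(a.coeff w : ℝ)| * |((pm x.1 (rho x w) i j : ℤ) : ℝ)| := by
  rw [Th_apply, Matrix.sum_apply]
  push_cast
  refine (Finset.abs_sum_le_sum_abs _ _).trans (Finset.sum_le_sum fun w _ => ?_)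
  rw [Matrix.smul_apply, smul_eq_mul]
  push_cast
  rw [abs_mul]

theorem Th_row (x : SX G) (a : MonoidAlgebra ℤ (FreeGroup G)) (i : Fin x.1) :
    ∑ j, |((Th x a i j : ℤ) : ℝ)| ≤ l1 a := by
  refine (Finset.sum_le_sum fun j _ => Th_entry x a i j).trans ?_
  rw [Finset.sum_comm]
  refine Finset.sum_le_sum fun w _ => ?_
  rw [← Finset.mul_sum]
  have h := row_pm (rho x w) i
  have h2 : ∑ j, |((pm x.1 (rho x w) i j : ℤ) : ℝ)| = 1 := by exact_mod_cast h
  rw [h2, mul_one]

theorem Th_col (x : SX G) (a : MonoidAlgebra ℤ (FreeGroup G)) (j : Fin x.1) :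
    ∑ i, |((Th x a i j : ℤ) : ℝ)| ≤ l1 a := by
  refine (Finset.sum_le_sum fun i _ => Th_entry x a i j).trans ?_
  rw [Finset.sum_comm]
  refine Finset.sum_le_sum fun w _ => ?_
  rw [← Finset.mul_sum]
  have h := col_pm (rho x w) j
  have h2 : ∑ i, |((pm x.1 (rho x w) i j : ℤ) : ℝ)| = 1 := by exact_mod_cast h
  rw [h2, mul_one]

theorem tendsto_Th (a : MonoidAlgebra ℤ (FreeGroup G)) :
    Filter.Tendsto (fun x : SX G => ((Matrix.trace (Th x a) : ℤ) : ℝ) / x.1) (Fs G)
      (𝓝 (((MonoidAlgebra.mapDomain (pi G) a).coeff 1 : ℤ) : ℝ)) := by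
  classical
  induction a using MonoidAlgebra.induction_linear with
  | zero =>
    simp only [map_zero, Matrix.trace_zero, Int.cast_zero, zero_div, MonoidAlgebra.mapDomain_zero,
      MonoidAlgebra.coeff_zero, Finsupp.coe_zero, Pi.zero_apply]
    exact tendsto_const_nhds
  | add a b h1 h2 =>
    have h3 := h1.add h2
    rw [MonoidAlgebra.mapDomain_add, MonoidAlgebra.coeff_add, Finsupp.add_apply, Int.cast_add]
    refine h3.congr fun x => ?_
    rw [map_add, Matrix.trace_add, Int.cast_add, add_div]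
  | single w c =>
    have h1 := (tendsto_fx w).const_mul (c : ℝ)
    have e1 : (((MonoidAlgebra.mapDomain (pi G) (MonoidAlgebra.single w c)).coeff 1 : ℤ) : ℝ)
        = (c : ℝ) * (if pi G w = 1 then 1 else 0) := by
      rw [MonoidAlgebra.mapDomain_single, MonoidAlgebra.coeff_single, Finsupp.single_apply]
      by_cases h : pi G w = 1
      · rw [if_pos h, if_pos h, mul_one]
      · rw [if_neg h, if_neg h, mul_zero, Int.cast_zero]
    rw [e1]
    refine h1.congr fun x => ?_
    rw [Th_single, Matrix.trace_smul, trace_pm, smul_eq_mul]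
    unfold fx
    push_cast
    ring

variable {ι : Type} [Fintype ι] [DecidableEq ι]

/-- the representation on matrices -/
def Xi (x : SX G) : Matrix ι ι (MonoidAlgebra ℤ (FreeGroup G)) →+*
    Matrix (ι × Fin x.1) (ι × Fin x.1) ℤ :=
  (Matrix.compRingEquiv ι (Fin x.1) ℤ).toRingHom.comp ((Th x).toRingHom.mapMatrix)

theorem Xi_apply (x : SX G) (N : Matrix ι ι (MonoidAlgebra ℤ (FreeGroup G))) (p q : ι × Fin x.1) :
    Xi x N p q = Th x (N p.1 q.1) p.2 q.2 := rfl

theorem Xi_adj (x : SX G) (N : Matrix ι ι (MonoidAlgebra ℤ (FreeGroup G))) :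
    Xi x (adj N) = (Xi x N)ᵀ := by
  ext1 p q
  rw [Matrix.transpose_apply, Xi_apply, Xi_apply, adj_apply, Th_inv, Matrix.transpose_apply]

/-- the map to the group ring of `G` -/
def piR : MonoidAlgebra ℤ (FreeGroup G) →+* MonoidAlgebra ℤ G :=
  MonoidAlgebra.mapDomainRingHom ℤ (pi G)

theorem piR_inv (a : MonoidAlgebra ℤ (FreeGroup G)) : piR (inv' a) = inv' (piR a) := by
  induction a using MonoidAlgebra.induction_linear with
  | zero => rw [inv'_zero, map_zero, inv'_zero]
  | add a b h1 h2 => rw [inv'_add, map_add, h1, h2, map_add, inv'_add]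
  | single w c =>
    unfold piR
    rw [inv'_single, MonoidAlgebra.mapDomainRingHom_apply, MonoidAlgebra.mapDomainRingHom_apply,
      MonoidAlgebra.mapDomain_single, MonoidAlgebra.mapDomain_single, inv'_single, map_inv]

theorem adj_map_piR (N : Matrix ι ι (MonoidAlgebra ℤ (FreeGroup G))) :
    (adj N).map piR = adj (N.map piR) := by
  ext1 i j
  exact piR_inv _

theorem tendsto_Xi (N : Matrix ι ι (MonoidAlgebra ℤ (FreeGroup G))) :
    Filter.Tendsto (fun x : SX G => ((Matrix.trace (Xi x N) : ℤ) : ℝ) / x.1) (Fs G)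
      (𝓝 ((mt (N.map piR) : ℤ) : ℝ)) := by
  have h1 : ∀ x : SX G, ((Matrix.trace (Xi x N) : ℤ) : ℝ) / x.1
      = ∑ i, ((Matrix.trace (Th x (N i i)) : ℤ) : ℝ) / x.1 := by
    intro x
    rw [← Finset.sum_div]
    congr 1
    unfold Matrix.trace
    rw [Fintype.sum_prod_type]
    push_cast
    rfl
  simp only [h1]
  unfold mt
  push_cast
  exact tendsto_finsetSum _ fun i _ => tendsto_Th (N i i)

/-- the lift to the free group -/
def hat (M : Matrix ι ι (MonoidAlgebra ℤ G)) : Matrix ι ι (MonoidAlgebra ℤ (FreeGroup G)) :=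
  M.map (MonoidAlgebra.mapDomain FreeGroup.of)

theorem hat_map (M : Matrix ι ι (MonoidAlgebra ℤ G)) : (hat M).map piR = M := by
  ext1 i j
  show piR (MonoidAlgebra.mapDomain FreeGroup.of (M i j)) = M i j
  generalize M i j = a
  induction a using MonoidAlgebra.induction_linear with
  | zero => rw [MonoidAlgebra.mapDomain_zero, map_zero]
  | add a b h1 h2 => rw [MonoidAlgebra.mapDomain_add, map_add, h1, h2]
  | single g c =>
    unfold piR
    rw [MonoidAlgebra.mapDomain_single, MonoidAlgebra.mapDomainRingHom_apply,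
      MonoidAlgebra.mapDomain_single]
    congr 1
    simp [pi]

theorem hat_pow (M : Matrix ι ι (MonoidAlgebra ℤ G)) (k : ℕ) :
    ((hat M * adj (hat M)) ^ k).map piR = (M * adj M) ^ k := by
  have h1 : (hat M * adj (hat M)).map piR = M * adj M := by
    rw [Matrix.map_mul, adj_map_piR, hat_map]
  have h2 := map_pow (RingHom.mapMatrix (m := ι) (piR (G := G))) (hat M * adj (hat M)) k
  rw [RingHom.mapMatrix_apply, RingHom.mapMatrix_apply, h1] at h2
  exact h2

/-- the Schur test -/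
theorem opLe_of_sums {κ : Type} [Fintype κ] [DecidableEq κ] (B : Matrix κ κ ℂ) {C : ℝ}
    (hC : 0 ≤ C) (hr : ∀ i, ∑ j, ‖B i j‖ ≤ C) (hc : ∀ j, ∑ i, ‖B i j‖ ≤ C) :
    Pool.Agent.TH322.AC.OpLe B C := by
  intro v
  have h1 : ∀ i, ‖(B *ᵥ v) i‖ ^ 2 ≤ C * ∑ j, ‖B i j‖ * ‖v j‖ ^ 2 := by
    intro i
    have h2 : ‖(B *ᵥ v) i‖ ≤ ∑ j, ‖B i j‖ * ‖v j‖ := by
      unfold Matrix.mulVec dotProduct
      refine (norm_sum_le _ _).trans (Finset.sum_le_sum fun j _ => ?_)
      rw [norm_mul]
    have h3 : (∑ j, ‖B i j‖ * ‖v j‖) ^ 2 ≤ (∑ j, ‖B i j‖) * ∑ j, ‖B i j‖ * ‖v j‖ ^ 2 := by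
      apply Finset.sum_sq_le_sum_mul_sum_of_sq_le_mul
      · intro j _; positivity
      · intro j _; positivity
      · intro j _; exact le_of_eq (by ring)
    have h4 : 0 ≤ ∑ j, ‖B i j‖ * ‖v j‖ ^ 2 := Finset.sum_nonneg fun j _ => by positivity
    calc ‖(B *ᵥ v) i‖ ^ 2 ≤ (∑ j, ‖B i j‖ * ‖v j‖) ^ 2 := pow_le_pow_left₀ (norm_nonneg _) h2 2
      _ ≤ (∑ j, ‖B i j‖) * ∑ j, ‖B i j‖ * ‖v j‖ ^ 2 := h3
      _ ≤ C * ∑ j, ‖B i j‖ * ‖v j‖ ^ 2 := mul_le_mul_of_nonneg_right (hr i) h4
  calc ∑ i, ‖(B *ᵥ v) i‖ ^ 2 ≤ ∑ i, C * ∑ j, ‖B i j‖ * ‖v j‖ ^ 2 :=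
        Finset.sum_le_sum fun i _ => h1 i
    _ = C * ∑ j, (∑ i, ‖B i j‖) * ‖v j‖ ^ 2 := by
        rw [← Finset.mul_sum, Finset.sum_comm]
        simp only [Finset.sum_mul]
    _ ≤ C * ∑ j, C * ‖v j‖ ^ 2 := by
        refine mul_le_mul_of_nonneg_left (Finset.sum_le_sum fun j _ => ?_) hC
        exact mul_le_mul_of_nonneg_right (hc j) (by positivity)
    _ = C ^ 2 * ∑ j, ‖v j‖ ^ 2 := by
        rw [← Finset.mul_sum]
        ring

/-- a bound for the norms -/
def cB (N : Matrix ι ι (MonoidAlgebra ℤ (FreeGroup G))) : ℝ := ∑ i, ∑ j, l1 (N i j)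

theorem cB_nonneg (N : Matrix ι ι (MonoidAlgebra ℤ (FreeGroup G))) : 0 ≤ cB N :=
  Finset.sum_nonneg fun _ _ => Finset.sum_nonneg fun _ _ => l1_nonneg _

theorem Xi_row (x : SX G) (N : Matrix ι ι (MonoidAlgebra ℤ (FreeGroup G))) (p : ι × Fin x.1) :
    ∑ q, |((Xi x N p q : ℤ) : ℝ)| ≤ cB N := by
  rw [Fintype.sum_prod_type]
  calc ∑ j, ∑ b, |((Xi x N p (j, b) : ℤ) : ℝ)| ≤ ∑ j, l1 (N p.1 j) :=
        Finset.sum_le_sum fun j _ => Th_row x (N p.1 j) p.2
    _ ≤ cB N := Finset.single_le_sum (f := fun i => ∑ j, l1 (N i j))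
        (fun i _ => Finset.sum_nonneg fun _ _ => l1_nonneg _) (Finset.mem_univ p.1)

theorem Xi_col (x : SX G) (N : Matrix ι ι (MonoidAlgebra ℤ (FreeGroup G))) (q : ι × Fin x.1) :
    ∑ p, |((Xi x N p q : ℤ) : ℝ)| ≤ cB N := by
  rw [Fintype.sum_prod_type]
  calc ∑ i, ∑ a, |((Xi x N (i, a) q : ℤ) : ℝ)| ≤ ∑ i, l1 (N i q.1) :=
        Finset.sum_le_sum fun i _ => Th_col x (N i q.1) q.2
    _ ≤ cB N := by
        unfold cB
        rw [Finset.sum_comm]
        exact Finset.single_le_sum (f := fun j => ∑ i, l1 (N i j))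
          (fun i _ => Finset.sum_nonneg fun _ _ => l1_nonneg _) (Finset.mem_univ q.1)

theorem Xi_opLe (x : SX G) (N : Matrix ι ι (MonoidAlgebra ℤ (FreeGroup G))) {C : ℝ}
    (hC : cB N ≤ C) :
    Pool.Agent.TH322.AC.OpLe (((Xi x N)ᵀ).map (Int.castRingHom ℂ)) C := by
  refine opLe_of_sums _ ((cB_nonneg N).trans hC) (fun i => ?_) (fun j => ?_)
  · refine le_trans (le_of_eq ?_) ((Xi_col x N i).trans hC)
    refine Finset.sum_congr rfl fun j _ => ?_
    rw [Matrix.map_apply, Matrix.transpose_apply, eq_intCast, Complex.norm_intCast]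
  · refine le_trans (le_of_eq ?_) ((Xi_row x N j).trans hC)
    refine Finset.sum_congr rfl fun i _ => ?_
    rw [Matrix.map_apply, Matrix.transpose_apply, eq_intCast, Complex.norm_intCast]

theorem trace_aeval_int {κ : Type} [Fintype κ] [DecidableEq κ] (S : Matrix κ κ ℤ)
    (q : Polynomial ℝ) :
    (Matrix.trace (Polynomial.aeval (S.map (Int.castRingHom ℂ)) q)).re
      = ∑ k ∈ Finset.range (q.natDegree + 1), q.coeff k * ((Matrix.trace (S ^ k) : ℤ) : ℝ) := by
  rw [Polynomial.aeval_eq_sum_range, Matrix.trace_sum, Complex.re_sum]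
  refine Finset.sum_congr rfl fun k _ => ?_
  rw [Matrix.trace_smul, Complex.real_smul, Complex.re_ofReal_mul]
  congr 1
  have h1 : (S.map (Int.castRingHom ℂ)) ^ k = (S ^ k).map (Int.castRingHom ℂ) := by
    have := map_pow (RingHom.mapMatrix (m := κ) (Int.castRingHom ℂ)) S k
    rw [RingHom.mapMatrix_apply, RingHom.mapMatrix_apply] at this
    exact this.symm
  have h2 : Matrix.trace ((S ^ k).map (Int.castRingHom ℂ)) = ((Matrix.trace (S ^ k) : ℤ) : ℂ) := by
    unfold Matrix.trace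
    push_cast
    rfl
  rw [h1, h2, Complex.intCast_re]

theorem int_conj {κ : Type} [Fintype κ] [DecidableEq κ] (S : Matrix κ κ ℤ) :
    ((Sᵀ).map (Int.castRingHom ℂ))ᴴ * (Sᵀ).map (Int.castRingHom ℂ)
      = (S * Sᵀ).map (Int.castRingHom ℂ) := by
  have h1 : ((Sᵀ).map (Int.castRingHom ℂ))ᴴ = S.map (Int.castRingHom ℂ) := by
    ext1 i j
    rw [Matrix.conjTranspose_apply, Matrix.map_apply, Matrix.map_apply, Matrix.transpose_apply,
      eq_intCast]
    simp
  rw [h1, Matrix.map_mul]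

/-- traces of polynomials are limits -/
theorem tendsto_poly (M : Matrix ι ι (MonoidAlgebra ℤ G)) (q : Polynomial ℝ) :
    Filter.Tendsto (fun x : SX G => (Matrix.trace (Polynomial.aeval
        ((((Xi x (hat M))ᵀ).map (Int.castRingHom ℂ))ᴴ
          * ((Xi x (hat M))ᵀ).map (Int.castRingHom ℂ)) q)).re / x.1)
      (Fs G) (𝓝 (Ph (fun y => q.eval y) M)) := by
  have h1 : ∀ x : SX G, (Matrix.trace (Polynomial.aeval
        ((((Xi x (hat M))ᵀ).map (Int.castRingHom ℂ))ᴴ
          * ((Xi x (hat M))ᵀ).map (Int.castRingHom ℂ)) q)).re / x.1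
      = ∑ k ∈ Finset.range (q.natDegree + 1), q.coeff k
        * (((Matrix.trace (Xi x ((hat M * adj (hat M)) ^ k)) : ℤ) : ℝ) / x.1) := by
    intro x
    rw [int_conj, ← Xi_adj, ← map_mul, trace_aeval_int, Finset.sum_div]
    refine Finset.sum_congr rfl fun k _ => ?_
    rw [map_pow, mul_div_assoc]
  simp only [h1]
  rw [Ph_poly]
  refine tendsto_finsetSum _ fun k _ => Filter.Tendsto.const_mul _ ?_
  have := tendsto_Xi (G := G) ((hat M * adj (hat M)) ^ k)
  rwa [hat_pow] at this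

/-- determinants over sofic groups -/
theorem sofic_integral (hG : IsSofic G) (M : Matrix ι ι (MonoidAlgebra ℤ G)) (hM : NoAt M) :
    1 ≤ Dt M := by
  have hne := Fs_neBot hG
  rcases Nat.eq_zero_or_pos (Fintype.card ι) with h0 | h0
  · have : IsEmpty ι := Fintype.card_eq_zero_iff.1 h0
    refine (Dt_of_eq_one M ?_).ge
    ext1 i j
    exact isEmptyElim i
  have hτ := tau_trSt G (Fintype.card ι) h0
  have hc : (0 : ℝ) < Fintype.card ι := by exact_mod_cast h0
  set X := el G (Fintype.card ι) ((fz M).map toQ) with hX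
  set C : ℝ := max (cB (hat M)) ‖X‖ with hC
  have hC0 : 0 ≤ C := (norm_nonneg X).trans (le_max_right _ _)
  have hincl : incl G _ (star X * X) = opp M := by
    rw [hX, star_el_mul, incl_el, opp_eq]
  have hopp : ‖opp M‖ ≤ C ^ 2 := by
    rw [← hincl]
    have h1 : ‖star X * X‖ ≤ C ^ 2 := by
      rw [CStarRing.norm_star_mul_self, ← sq]
      exact pow_le_pow_left₀ (norm_nonneg _) (le_max_right _ _) 2
    exact h1
  have hpoly : ∀ q : Polynomial ℝ, Ph (fun y => q.eval y) M
      = Fintype.card ι * (tau G _ (Polynomial.aeval (star X * X) q)).re := by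
    intro q
    have h1 := tau_cfc G _ h0 (fun y => q.eval y) (star X * X) (IsSelfAdjoint.star_mul_self X)
      q.continuous.continuousOn
    rw [hincl, cfc_polynomial q (star X * X) (IsSelfAdjoint.star_mul_self X)] at h1
    exact h1
  refine le_Dt _ fun ε hε => ?_
  rw [Real.one_le_exp_iff, LL_eq h0 M hε]
  refine mul_nonneg hc.le ?_
  have key := Pool.Agent.TH322.AC.logdet_nonneg (tau G (Fintype.card ι)) hτ
    (R := ℤ) (ι := Unit) (fun _ => Int.castRingHom ℂ) (fun _ => 1)
    (fun _ => RingHom.injective_int _)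
    (fun m hm => by
      rw [Finset.univ_unique, Finset.prod_singleton, pow_one, eq_intCast, Complex.norm_intCast]
      have := Int.one_le_abs hm
      exact_mod_cast this)
    () (fun _ => C) (fun _ => X) (fun _ => le_max_right _ _) ?_ ?_ hε
  · rw [Finset.univ_unique, Finset.sum_singleton] at key
    simpa using key
  · -- the limit property
    intro q hq
    rw [Finset.univ_unique, Finset.sum_singleton]
    have h1 : 0 ≤ Ph (fun y => (q ()).eval y) M := by
      refine ge_of_tendsto' (tendsto_poly M (q ())) fun x => ?_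
      have h2 := hq (ι × Fin x.1) ((Xi x (hat M))ᵀ) (fun _ => Xi_opLe x (hat M) (le_max_left _ _))
      rw [Finset.univ_unique, Finset.sum_singleton] at h2
      exact div_nonneg h2 (Nat.cast_nonneg _)
    rw [hpoly] at h1
    exact nonneg_of_mul_nonneg_right h1 hc
  · -- the kernel
    intro η hη
    obtain ⟨δ, hδ, hb⟩ := hM (Fintype.card ι * (η / 2)) (by positivity)
    obtain ⟨p, hp⟩ := exists_polynomial_near_of_continuousOn 0 (C ^ 2)
      (fun y => bump δ y + η / 4) (by have := bump_continuous δ; fun_prop) (η / 4) (by positivity)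
    refine ⟨p, ?_, ?_, ?_⟩
    · have h1 := hp 0 ⟨le_rfl, sq_nonneg C⟩
      rw [bump_zero] at h1
      have := (abs_lt.1 h1).1
      linarith
    · intro y hy
      have h1 := (abs_lt.1 (hp y hy)).1
      have := bump_nonneg δ y
      linarith
    · have h1 : Ph (fun y => p.eval y) M ≤ Ph (fun y => 1 * bump δ y + η / 2) M := by
        refine Ph_mono M p.continuous (by have := bump_continuous δ; fun_prop) fun y hy => ?_
        have h2 := (abs_lt.1 (hp y ⟨hy.1, hy.2.trans hopp⟩)).2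
        show p.eval y ≤ 1 * bump δ y + η / 2
        linarith
      rw [Ph_lin M (bump_continuous δ), hpoly, one_mul] at h1
      have h2 : Fintype.card ι * (tau G _ (Polynomial.aeval (star X * X) p)).re
          ≤ Fintype.card ι * η := by linarith
      exact le_of_mul_le_mul_left h2 hc

end
end Pool.Agent.Helper653_Tor
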