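import Pool.Agent.Helper653_Tor.Spec
import Pool.Agent.Helper653_Tor.SofB
import Pool.Agent.Helper653_Tor.Core

/-!
# Injectivity and positivity
-/

set_option autoImplicit false
set_option linter.unusedSectionVars false
open scoped InnerProductSpace Topology

noncomputable section

namespace Pool.Agent.Helper653_Tor
open Pool.Agent.Helper993.FK Pool.Agent.Helper993.Delta Pool.Agent.H712R5.BO MeasureTheory
open Pool.Agent.TH630.Tor

section
variable {G : Type} [Group G] {r s : ℕ}

theorem gram_nonneg (A : Matrix (Fin r) (Fin s) (MonoidAlgebra ℤ G)) :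
    0 ≤ rMul ((A * adj A).map toQ) := by
  rw [← rMul_gram]
  exact adjoint_comp_nonneg _

/-- no atom at zero implies injectivity -/
theorem inj_of_noAt (A : Matrix (Fin r) (Fin s) (MonoidAlgebra ℤ G)) (h : NoAt A) :
    ∀ v, rMul (A.map toQ) v = 0 → v = 0 := by
  intro w hw
  apply coord_ext
  intro j g
  rw [coord_zero]
  obtain ⟨w', hw'⟩ := exists_translate w g
  have h1 : rMul (A.map toQ) w' = 0 := by
    apply coord_ext
    intro k h
    rw [coord_zero, rMul_apply]
    have := congrArg (fun x => coord x k (g * h)) hw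
    simp only [coord_zero, rMul_apply] at this
    rw [← this]
    simp only [hw', mul_assoc]
  have h2 : ⟪(unitVec j : L2Pow G r), w'⟫_ℂ = coord w j g := by
    rw [inner_unitVec, hw', mul_one]
  have h3 : rMul ((A * adj A).map toQ) w' = 0 := by
    rw [← rMul_gram, ContinuousLinearMap.comp_apply, h1, map_zero]
  have h4 : ‖coord w j g‖ ^ 2 ≤ 0 := by
    refine le_of_forall_pos_le_add fun ε hε => ?_
    obtain ⟨δ, hδ, hb⟩ := h (ε / (‖w'‖ ^ 2 + 1)) (by positivity)
    rw [Ph_fin A (bump_continuous δ)] at hb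
    have h5 := inner_ker_le unitVec (rMul ((A * adj A).map toQ)) (gram_nonneg A) δ w' h3 j
    rw [h2] at h5
    rw [zero_add]
    refine h5.trans ((mul_le_mul_of_nonneg_right hb (by positivity)).trans ?_)
    rw [div_mul_eq_mul_div, div_le_iff₀ (by positivity)]
    nlinarith [sq_nonneg ‖w'‖]
  have h5 : ‖coord w j g‖ = 0 := by
    have := norm_nonneg (coord w j g)
    nlinarith [sq_nonneg ‖coord w j g‖]
  exact norm_eq_zero.mp h5

/-- injectivity implies no atom at zero -/
theorem noAt_of_inj' (A : Matrix (Fin r) (Fin s) (MonoidAlgebra ℤ G))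
    (h : ∀ v, rMul (A.map toQ) v = 0 → v = 0) : NoAt A := by
  intro η hη
  have hinj : ∀ v, rMul ((A * adj A).map toQ) v = 0 → v = 0 := by
    intro v hv
    rw [← rMul_gram] at hv
    exact h v (ker_adjoint_comp _ v hv)
  obtain ⟨δ, hδ, hb⟩ := bump_small unitVec (fun i => (norm_unitVec i).le)
    (rMul ((A * adj A).map toQ)) (gram_nonneg A) hinj hη
  exact ⟨δ, hδ, by rw [Ph_fin A (bump_continuous δ)]; exact hb⟩

/-- positivity of the Fuglede-Kadison determinant -/
theorem fkDet_pos_of_Dt (A : Matrix (Fin r) (Fin r) (MonoidAlgebra ℤ G)) (h : 0 < Dt A) :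
    0 < fkDet (rMul (A.map toQ)) := by
  set T := rMul ((A * adj A).map toQ) with hT
  have hT0 : 0 ≤ T := gram_nonneg A
  set K := ‖T‖ with hK
  have hK0 : 0 ≤ K := norm_nonneg _
  have hlK : 0 ≤ Real.log (1 + K) := Real.log_nonneg (by linarith)
  have hlog : IntegrableOn Real.log (Set.Ioi 0) (spectralMeasure unitVec T) := by
    refine log_integrable unitVec T hT0
      (C := - Real.log (Dt A) + r * (2 * Real.log (1 + K) + Real.log 2)) fun n => ?_
    set ε := Real.exp (-(n : ℝ)) with hε
    have hε0 : 0 < ε := Real.exp_pos _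
    have h1 : traceVal unitVec T (gm n)
        ≤ traceVal unitVec T (fun x => (-1) * lg ε x + (2 * Real.log (1 + K) + Real.log 2)) := by
      refine traceVal_mono unitVec T hT0 le_rfl (gm_continuous n)
        (by have := lg_cont hε0; fun_prop) fun x hx => ?_
      have hx0 := hx.1
      have hm : 0 < max x ε := lt_of_lt_of_le hε0 (le_max_right _ _)
      have h2 : gm n x ≤ 2 * Real.log (1 + K) - Real.log (max x ε) := by
        unfold gm
        rw [← hε]
        rcases le_total (Real.log (max x ε)) 0 with h3 | h3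
        · refine (min_le_right _ _).trans ?_
          rw [abs_of_nonpos h3]
          linarith
        · refine (min_le_right _ _).trans ?_
          rw [abs_of_nonneg h3]
          have h4 : max x ε ≤ 1 + K := max_le (by linarith [hx.2]) (by
            have : ε ≤ 1 := by
              rw [hε]
              exact Real.exp_le_one_iff.2 (neg_nonpos.2 (Nat.cast_nonneg n))
            linarith)
          have h5 := Real.log_le_log hm h4
          linarith
      have h3 : Real.log (ε + x) ≤ Real.log 2 + Real.log (max x ε) := by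
        rw [← Real.log_mul (by norm_num) hm.ne']
        refine Real.log_le_log (by linarith) ?_
        have := le_max_left x ε
        have := le_max_right x ε
        linarith
      show gm n x ≤ (-1) * Real.log (ε + max x 0) + (2 * Real.log (1 + K) + Real.log 2)
      rw [max_eq_left hx0]
      linarith
    refine h1.trans ?_
    rw [← Ph_fin A (by have := lg_cont hε0; fun_prop), Ph_lin A (lg_cont hε0), Fintype.card_fin]
    have h2 := Dt_le A hε0
    have h3 := Real.log_le_log h h2
    rw [Real.log_exp] at h3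
    have h4 : LL ε A = Ph (lg ε) A := rfl
    rw [h4] at h3
    linarith
  unfold fkDet detOf specMeas
  rw [rMul_gram, if_pos hlog]
  exact Real.exp_pos _

end

section
variable {G : Type} [Group G] {C : FreeCx G} (H : Hty C)

/-- right multiplication by a matrix over the integral group ring -/
def rZ {a b : ℕ} (A : Matrix (Fin a) (Fin b) (MonoidAlgebra ℤ G)) : L2Pow G a →L[ℂ] L2Pow G b :=
  rMul (A.map toQ)

theorem rZ_mul {a b c : ℕ} (A : Matrix (Fin a) (Fin b) (MonoidAlgebra ℤ G))
    (B : Matrix (Fin b) (Fin c) (MonoidAlgebra ℤ G)) (v : L2Pow G a) :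
    rZ (A * B) v = rZ B (rZ A v) := by
  unfold rZ
  rw [toQ_mul, rMul_mul]
  rfl

theorem rZ_add {a b : ℕ} (A B : Matrix (Fin a) (Fin b) (MonoidAlgebra ℤ G)) (v : L2Pow G a) :
    rZ (A + B) v = rZ A v + rZ B v := by
  unfold rZ
  rw [toQ_add', rMul_add]
  rfl

theorem rZ_zero {a b : ℕ} (v : L2Pow G a) :
    rZ (0 : Matrix (Fin a) (Fin b) (MonoidAlgebra ℤ G)) v = 0 := by
  unfold rZ
  have h : (0 : Matrix (Fin a) (Fin b) (MonoidAlgebra ℤ G)).map toQ = 0 := by
    ext1 i j
    exact map_zero (MonoidAlgebra.mapRingHom G (Int.castRingHom ℚ))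
  rw [h, rMul_eq_sc]
  simp [sc_zero]

theorem rZ_adj {a b : ℕ} (A : Matrix (Fin a) (Fin b) (MonoidAlgebra ℤ G)) :
    rZ (adj A) = ContinuousLinearMap.adjoint (rZ A) := by
  unfold rZ
  rw [adjoint_rMul]
  exact congrArg rMul (toQ_adjZ A)

theorem sigma_inj (n m : ℕ) (v : L2Pow G (C.rank m)) (h : rZ (sR C m (H.σ n)) v = 0) : v = 0 := by
  refine inj_of_noAt _ (noAt_of_pos _ ?_) v h
  rw [H.det]
  exact one_pos

/-- orthogonality of the two images -/
theorem orth_aux {X Y Z : Type} [NormedAddCommGroup X] [InnerProductSpace ℂ X] [CompleteSpace X]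
    [NormedAddCommGroup Y] [InnerProductSpace ℂ Y] [CompleteSpace Y]
    [NormedAddCommGroup Z] [InnerProductSpace ℂ Z] [CompleteSpace Z]
    (D : Y →L[ℂ] X) (D' : Z →L[ℂ] Y) (hDD : ∀ z, D (D' z) = 0) (w : Y) (z : Z)
    (h : (ContinuousLinearMap.adjoint D) (D w) + D' z = 0) : D w = 0 ∧ D' z = 0 := by
  have h1 : D ((ContinuousLinearMap.adjoint D) (D w)) = 0 := by
    have h2 := congrArg D h
    rw [map_add, hDD, add_zero, map_zero] at h2
    exact h2
  have h2 : (ContinuousLinearMap.adjoint D) (D w) = 0 := by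
    have h3 : ⟪(ContinuousLinearMap.adjoint D) (D w), (ContinuousLinearMap.adjoint D) (D w)⟫_ℂ
        = 0 := by
      rw [ContinuousLinearMap.adjoint_inner_left, h1, inner_zero_right]
    exact inner_self_eq_zero.1 h3
  have h3 : D w = 0 := by
    have h4 : ⟪D w, D w⟫_ℂ = 0 := by
      rw [← ContinuousLinearMap.adjoint_inner_right, h2, inner_zero_right]
    exact inner_self_eq_zero.1 h4
  exact ⟨h3, by rwa [h2, zero_add] at h⟩

theorem mV_inj (n : ℕ) (v : L2Pow G (C.rank n)) (h : rZ (mV H n) v = 0) : v = 0 := by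
  cases n with
  | zero =>
    have h1 : mV H 0 = sR C 0 (H.σ 0) := H.h0
    rw [h1] at h
    exact sigma_inj H 0 0 v h
  | succ n =>
    have h1 : mV H (n + 1) = sR C (n + 1) (H.σ (n + 1)) * (C.d n * adj (C.d n))
      + H.h (n + 1) * C.d (n + 1) := rfl
    rw [h1, rZ_add, rZ_mul, rZ_mul, rZ_mul, rZ_adj] at h
    have hdd : ∀ z, rZ (C.d n) (rZ (C.d (n + 1)) z) = 0 := by
      intro z
      rw [← rZ_mul, C.d_comp_d, rZ_zero]
    obtain ⟨h2, h3⟩ := orth_aux (rZ (C.d n)) (rZ (C.d (n + 1))) hdd _ _ h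
    rw [← rZ_mul, H.comm, rZ_mul] at h2
    have h4 := sigma_inj H n n _ h2
    have h5 : rZ (sR C (n + 1) (H.σ (n + 1))) v = 0 := by
      rw [← H.h1 n, rZ_add, rZ_mul, rZ_mul, h3, h4, map_zero, add_zero]
    exact sigma_inj H (n + 1) (n + 1) v h5

theorem one_le_mm (hG : IsSofic G) (n : ℕ) : 1 ≤ mm H n :=
  sofic_integral hG _ (noAt_of_inj' _ (mV_inj H n))

include H in
theorem lapM_pos (hG : IsSofic G) (n : ℕ) : 0 < Dt (lapM C n) := by
  rw [mm_mul H]
  have h1 := one_le_mm H hG n
  have h2 := one_le_mm H hG (n + 1)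
  positivity

theorem laplacian_eq (n : ℕ) : C.laplacian n = rMul ((lapM C n).map toQ) := by
  cases n with
  | zero =>
    show _ = rMul ((adj (C.d 0) * C.d 0).map toQ)
    rw [toQ_mul, rMul_mul]
    have h := rZ_adj (C.d 0)
    unfold rZ at h
    rw [h]
    rfl
  | succ n =>
    show _ = rMul ((adj (C.d (n + 1)) * C.d (n + 1) + C.d n * adj (C.d n)).map toQ)
    rw [toQ_add', rMul_add, toQ_mul, rMul_mul, toQ_mul, rMul_mul]
    have h := rZ_adj (C.d (n + 1))
    have h' := rZ_adj (C.d n)
    unfold rZ at h h'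
    rw [h, h']
    rfl

theorem dimKer_of_inj' {r : ℕ} (T : L2Pow G r →L[ℂ] L2Pow G r) (h : ∀ v, T v = 0 → v = 0) :
    dimKer T = 0 := by
  unfold dimKer
  apply Finset.sum_eq_zero
  intro i _
  have h1 : T.ker.starProjection (unitVec i) = 0 :=
    h _ (LinearMap.mem_ker.mp (Submodule.starProjection_apply_mem _ _))
  rw [h1]
  exact congrArg Complex.re (inner_zero_right (𝕜 := ℂ) (unitVec i : L2Pow G r))

include H in
/-- the complex is det-acyclic -/
theorem detL2Acyclic (hG : IsSofic G) : C.DetL2Acyclic := by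
  intro n
  have h1 := lapM_pos H hG n
  constructor
  · unfold FreeCx.l2betti
    rw [laplacian_eq]
    exact dimKer_of_inj' _ (inj_of_noAt _ (noAt_of_pos _ h1))
  · rw [laplacian_eq]
    exact fkDet_pos_of_Dt _ h1

theorem log_fkDet (hG : IsSofic G) (n : ℕ) :
    Real.log (fkDet (C.laplacian n)) = 1 / 2 * (Real.log (mm H n) + Real.log (mm H (n + 1))) := by
  have h1 := lapM_pos H hG n
  have h2 := Dt_eq_fkDet (lapM C n) (inj_of_noAt _ (noAt_of_pos _ h1)) (fkDet_pos_of_Dt _ h1)
  have h3 := one_le_mm H hG n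
  have h4 := one_le_mm H hG (n + 1)
  rw [laplacian_eq]
  generalize fkDet (rMul ((lapM C n).map toQ)) = z at h2
  rw [mm_mul H] at h2
  have h3' : mm H n ≠ 0 := (lt_of_lt_of_le one_pos h3).ne'
  have h4' : mm H (n + 1) ≠ 0 := (lt_of_lt_of_le one_pos h4).ne'
  have h5 := congrArg Real.log h2
  rw [Real.log_mul h4' h3', Real.log_pow] at h5
  push_cast at h5
  linarith

/-- the alternating sum -/
theorem alt_sum (a : ℕ → ℝ) (M : ℕ) :
    ∑ n ∈ Finset.range (M + 1), (-1 : ℝ) ^ n * n * (a n + a (n + 1))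
      = ∑ n ∈ Finset.range (M + 1), (-1 : ℝ) ^ n * a n - a 0 + (-1) ^ M * M * a (M + 1) := by
  induction M with
  | zero => simp
  | succ M ih =>
    rw [Finset.sum_range_succ, ih, Finset.sum_range_succ _ (M + 1)]
    push_cast
    ring

theorem alt_even (a : ℕ → ℝ) (N : ℕ) :
    ∑ n ∈ Finset.range (2 * N), (-1 : ℝ) ^ n * a n
      = ∑ k ∈ Finset.range N, a (2 * k) - ∑ l ∈ Finset.range N, a (2 * l + 1) := by
  induction N with
  | zero => simp
  | succ N ih =>
    have h : 2 * (N + 1) = 2 * N + 1 + 1 := by ring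
    rw [h, Finset.sum_range_succ, Finset.sum_range_succ, ih, Finset.sum_range_succ,
      Finset.sum_range_succ, pow_succ, pow_mul]
    norm_num
    ring

include H in
/-- vanishing of the torsion -/
theorem torsion_eq_zero (hG : IsSofic G) : C.l2torsion = 0 := by
  have hmm : ∀ n, Real.log (mm H (n + C.dim + 1)) = 0 := fun n => by
    rw [mm_large H (by omega), Real.log_one]
  set N := C.dim + 1 with hN
  have h1 := prod_eq H (lapM_pos H hG)
    (fun M hM => sofic_integral hG M (noAt_of_pos M hM)) N (by omega)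
  have hpos : ∀ n, mm H n ≠ 0 := fun n => (lt_of_lt_of_le one_pos (one_le_mm H hG n)).ne'
  have h2 := congrArg Real.log h1
  rw [Real.log_prod (fun l _ => hpos _), Real.log_prod (fun l _ => hpos _)] at h2
  have h3 := alt_even (fun n => Real.log (mm H n)) N
  rw [h2, sub_self] at h3
  have h4 : ∑ n ∈ Finset.range (2 * N), (-1 : ℝ) ^ n * Real.log (mm H n)
      = ∑ n ∈ Finset.range (C.dim + 1), (-1 : ℝ) ^ n * Real.log (mm H n) := by
    symm
    apply Finset.sum_subset
    · intro n hn
      rw [Finset.mem_range] at hn ⊢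
      omega
    · intro n _ hn
      rw [Finset.mem_range, not_lt] at hn
      obtain ⟨k, rfl⟩ := Nat.exists_eq_add_of_le hn
      have h5 := hmm k
      have h6 : k + C.dim + 1 = C.dim + 1 + k := by ring
      rw [h6] at h5
      rw [h5, mul_zero]
  unfold FreeCx.l2torsion
  have h5 : ∑ n ∈ Finset.range (C.dim + 1), (-1 : ℝ) ^ n * n * Real.log (fkDet (C.laplacian n))
      = 1 / 2 * ∑ n ∈ Finset.range (C.dim + 1), (-1 : ℝ) ^ n * n
        * (Real.log (mm H n) + Real.log (mm H (n + 1))) := by
    rw [Finset.mul_sum]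
    refine Finset.sum_congr rfl fun n _ => ?_
    rw [log_fkDet H hG]
    ring
  have h6 := alt_sum (fun n => Real.log (mm H n)) C.dim
  have h7 : Real.log (mm H (C.dim + 1)) = 0 := by
    have := hmm 0
    rwa [zero_add] at this
  rw [h5, h6, ← h4, h3, h7, mm_zero, Real.log_one]
  ring

end
end Pool.Agent.Helper653_Tor
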