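import Pool.Agent.Helper653_Tor.VN
import Pool.Agent.Helper993.Acyclic

/-!
# Traces of functions of `A A*`, and moments
-/

set_option autoImplicit false
set_option linter.unusedSectionVars false
open scoped InnerProductSpace Topology ComplexConjugate InnerProduct

noncomputable section

namespace Pool.Agent.Helper653_Tor
open Pool.Agent.Helper993.FK Pool.Agent.H712R5.BO

section alg
variable {G : Type} [Group G]

/-- the involution of the integral group ring -/
def inv' (a : MonoidAlgebra ℤ G) : MonoidAlgebra ℤ G := MonoidAlgebra.mapDomain (fun g => g⁻¹) a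

theorem inv'_add (a b : MonoidAlgebra ℤ G) : inv' (a + b) = inv' a + inv' b :=
  MonoidAlgebra.mapDomain_add _ _ _

theorem inv'_zero : inv' (0 : MonoidAlgebra ℤ G) = 0 := MonoidAlgebra.mapDomain_zero _

theorem inv'_single (g : G) (c : ℤ) : inv' (MonoidAlgebra.single g c) = MonoidAlgebra.single g⁻¹ c :=
  MonoidAlgebra.mapDomain_single

theorem inv'_one : inv' (1 : MonoidAlgebra ℤ G) = 1 := by
  rw [MonoidAlgebra.one_def, inv'_single, inv_one]

theorem inv'_mul (a b : MonoidAlgebra ℤ G) : inv' (a * b) = inv' b * inv' a := by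
  induction a using MonoidAlgebra.induction_linear with
  | zero => rw [zero_mul, inv'_zero, mul_zero]
  | add a a' h1 h2 => rw [add_mul, inv'_add, inv'_add, h1, h2, mul_add]
  | single g c =>
    induction b using MonoidAlgebra.induction_linear with
    | zero => rw [mul_zero, inv'_zero, zero_mul]
    | add b b' h1 h2 => rw [mul_add, inv'_add, inv'_add, h1, h2, add_mul]
    | single h d =>
      rw [MonoidAlgebra.single_mul_single, inv'_single, inv'_single, inv'_single,
        MonoidAlgebra.single_mul_single, mul_inv_rev, mul_comm c d]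

theorem inv'_inv' (a : MonoidAlgebra ℤ G) : inv' (inv' a) = a := by
  induction a using MonoidAlgebra.induction_linear with
  | zero => rw [inv'_zero, inv'_zero]
  | add a a' h1 h2 => rw [inv'_add, inv'_add, h1, h2]
  | single g c => rw [inv'_single, inv'_single, inv_inv]

theorem inv'_sum {u : Type} (s : Finset u) (f : u → MonoidAlgebra ℤ G) :
    inv' (∑ i ∈ s, f i) = ∑ i ∈ s, inv' (f i) := by
  classical
  induction s using Finset.induction_on with
  | empty => rw [Finset.sum_empty, Finset.sum_empty, inv'_zero]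
  | insert k S hk ih => rw [Finset.sum_insert hk, Finset.sum_insert hk, inv'_add, ih]

variable {ι κ μ : Type}

/-- the adjoint matrix -/
def adj (A : Matrix ι κ (MonoidAlgebra ℤ G)) : Matrix κ ι (MonoidAlgebra ℤ G) :=
  A.transpose.map inv'

theorem adj_apply (A : Matrix ι κ (MonoidAlgebra ℤ G)) (i : κ) (j : ι) :
    adj A i j = inv' (A j i) := rfl

theorem adj_mul [Fintype κ] (A : Matrix ι κ (MonoidAlgebra ℤ G))
    (B : Matrix κ μ (MonoidAlgebra ℤ G)) : adj (A * B) = adj B * adj A := by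
  ext1 i j
  rw [adj_apply, Matrix.mul_apply, Matrix.mul_apply, inv'_sum]
  exact Finset.sum_congr rfl fun k _ => inv'_mul _ _

theorem adj_add (A B : Matrix ι κ (MonoidAlgebra ℤ G)) : adj (A + B) = adj A + adj B := by
  ext1 i j
  exact inv'_add _ _

theorem adj_adj (A : Matrix ι κ (MonoidAlgebra ℤ G)) : adj (adj A) = A := by
  ext1 i j
  exact inv'_inv' _

theorem adj_one [DecidableEq ι] : adj (1 : Matrix ι ι (MonoidAlgebra ℤ G)) = 1 := by
  ext1 i j
  rw [adj_apply, Matrix.one_apply, Matrix.one_apply]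
  by_cases h : i = j
  · rw [if_pos h, if_pos h.symm, inv'_one]
  · rw [if_neg h, if_neg (Ne.symm h), inv'_zero]

theorem adj_zero : adj (0 : Matrix ι κ (MonoidAlgebra ℤ G)) = 0 := by
  ext1 i j
  exact inv'_zero

theorem adj_submatrix {ι' κ' : Type} (A : Matrix ι κ (MonoidAlgebra ℤ G)) (f : ι' → ι)
    (g : κ' → κ) : adj (A.submatrix f g) = (adj A).submatrix g f := rfl

theorem adj_eq_adjZ {r s : ℕ} (A : Matrix (Fin r) (Fin s) (MonoidAlgebra ℤ G)) : adj A = adjZ A :=
  rfl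

/-- the trace -/
def mt [Fintype ι] (P : Matrix ι ι (MonoidAlgebra ℤ G)) : ℤ := ∑ i, (P i i).coeff 1

theorem mt_comm [Fintype ι] [Fintype κ] (A : Matrix ι κ (MonoidAlgebra ℤ G))
    (B : Matrix κ ι (MonoidAlgebra ℤ G)) : mt (A * B) = mt (B * A) :=
  sum_diag_comm A B

theorem mt_one [Fintype ι] [DecidableEq ι] :
    mt (1 : Matrix ι ι (MonoidAlgebra ℤ G)) = Fintype.card ι := by
  unfold mt
  simp only [Matrix.one_apply_eq, MonoidAlgebra.one_def, MonoidAlgebra.coeff_single,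
    Finsupp.single_eq_same]
  simp

theorem mt_submatrix [Fintype ι] [Fintype κ] (P : Matrix ι ι (MonoidAlgebra ℤ G)) (e : κ ≃ ι) :
    mt (P.submatrix e e) = mt P := by
  unfold mt
  exact Equiv.sum_comp e (fun i => (P i i).coeff 1)

theorem submatrix_pow [Fintype ι] [DecidableEq ι] [Fintype κ] [DecidableEq κ]
    (P : Matrix ι ι (MonoidAlgebra ℤ G)) (e : κ ≃ ι) (k : ℕ) :
    (P.submatrix e e) ^ k = (P ^ k).submatrix e e := by
  induction k with
  | zero => rw [pow_zero, pow_zero, Matrix.submatrix_one_equiv]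
  | succ k ih => rw [pow_succ, pow_succ, ih, Matrix.submatrix_mul_equiv]

/-- reindexing by `Fin` -/
def fz [Fintype ι] [Fintype κ] (A : Matrix ι κ (MonoidAlgebra ℤ G)) :
    Matrix (Fin (Fintype.card ι)) (Fin (Fintype.card κ)) (MonoidAlgebra ℤ G) :=
  A.submatrix (Fintype.equivFin ι).symm (Fintype.equivFin κ).symm

theorem fz_mul [Fintype ι] [Fintype κ] [Fintype μ] (A : Matrix ι κ (MonoidAlgebra ℤ G))
    (B : Matrix κ μ (MonoidAlgebra ℤ G)) : fz (A * B) = fz A * fz B := by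
  unfold fz
  rw [Matrix.submatrix_mul_equiv]

end alg

section phi
variable {G : Type} [Group G] {ι κ μ ν : Type} [Fintype ι] [Fintype κ] [Fintype μ] [Fintype ν]

/-- the operator `A A*` -/
def opp (A : Matrix ι κ (MonoidAlgebra ℤ G)) :
    L2Pow G (Fintype.card ι) →L[ℂ] L2Pow G (Fintype.card ι) :=
  rMul ((fz (A * adj A)).map toQ)

theorem opp_eq (A : Matrix ι κ (MonoidAlgebra ℤ G)) :
    opp A = rMul ((fz A).map toQ * adjQ ((fz A).map toQ)) := by
  unfold opp
  rw [fz_mul, toQ_mul, ← toQ_adjZ]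
  rfl

theorem opp_nonneg (A : Matrix ι κ (MonoidAlgebra ℤ G)) : 0 ≤ opp A := by
  rw [opp_eq]
  exact rMul_self_nonneg _

/-- the trace of `f(A A*)` -/
def Ph (f : ℝ → ℝ) (A : Matrix ι κ (MonoidAlgebra ℤ G)) : ℝ := traceVal unitVec (opp A) f

theorem Ph_poly [DecidableEq ι] (A : Matrix ι κ (MonoidAlgebra ℤ G)) (p : Polynomial ℝ) :
    Ph (fun x => p.eval x) A
      = ∑ m ∈ Finset.range (p.natDegree + 1), p.coeff m * ((mt ((A * adj A) ^ m) : ℤ) : ℝ) := by
  unfold Ph
  have h0 := opp_nonneg A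
  unfold opp at h0 ⊢
  rw [traceVal_poly _ h0]
  refine Finset.sum_congr rfl fun m _ => ?_
  congr 1
  have h1 : ((fz (A * adj A)).map toQ) ^ m = (fz ((A * adj A) ^ m)).map toQ := by
    unfold fz
    rw [← submatrix_pow]
    clear * -
    induction m with
    | zero =>
      rw [pow_zero, pow_zero]
      exact (Matrix.map_one _ (map_zero (MonoidAlgebra.mapRingHom G (Int.castRingHom ℚ)))
        (map_one (MonoidAlgebra.mapRingHom G (Int.castRingHom ℚ)))).symm
    | succ m ih => rw [pow_succ, pow_succ, ih, toQ_mul]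
  rw [h1]
  unfold trc
  have h2 : mt (fz ((A * adj A) ^ m)) = mt ((A * adj A) ^ m) := mt_submatrix _ _
  rw [← h2]
  unfold mt
  push_cast
  refine Finset.sum_congr rfl fun i _ => ?_
  rw [Matrix.map_apply, toQ_coeff]
  push_cast
  rfl

theorem Ph_near (A : Matrix ι κ (MonoidAlgebra ℤ G)) {K : ℝ} (hK : ‖opp A‖ ≤ K) {f g : ℝ → ℝ}
    (hf : Continuous f) (hg : Continuous g) {ε : ℝ} (hε : 0 ≤ ε)
    (h : ∀ x ∈ Set.Icc 0 K, |f x - g x| ≤ ε) :
    |Ph f A - Ph g A| ≤ Fintype.card ι * ε :=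
  traceVal_near unitVec (fun i => (norm_unitVec i).le) (opp A) (opp_nonneg A) hK hf hg hε h

/-- moments determine the traces -/
theorem Ph_add_of_mt [DecidableEq ι] [DecidableEq μ] {ι' κ' : Type} [Fintype ι'] [Fintype κ']
    [DecidableEq ι'] (A : Matrix ι κ (MonoidAlgebra ℤ G)) (B : Matrix μ ν (MonoidAlgebra ℤ G))
    (C : Matrix ι' κ' (MonoidAlgebra ℤ G))
    (h : ∀ m, mt ((A * adj A) ^ m) = mt ((B * adj B) ^ m) + mt ((C * adj C) ^ m))
    {f : ℝ → ℝ} (hf : Continuous f) : Ph f A = Ph f B + Ph f C := by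
  have key : ∀ ε : ℝ, 0 < ε → |Ph f A - (Ph f B + Ph f C)|
      ≤ (Fintype.card ι + Fintype.card μ + Fintype.card ι') * ε := by
    intro ε hε
    set K : ℝ := max ‖opp A‖ (max ‖opp B‖ ‖opp C‖) with hK
    obtain ⟨p, hp⟩ := exists_polynomial_near_of_continuousOn 0 K f hf.continuousOn ε hε
    have hp' : ∀ x ∈ Set.Icc 0 K, |f x - p.eval x| ≤ ε := fun x hx => by
      rw [abs_sub_comm]
      exact (hp x hx).le
    have hpc : Continuous fun x => p.eval x := p.continuous
    have a1 := Ph_near A (le_max_left _ _) hf hpc hε.le hp'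
    have a2 := Ph_near B ((le_max_left _ _).trans (le_max_right _ _)) hf hpc hε.le hp'
    have a3 := Ph_near C ((le_max_right _ _).trans (le_max_right _ _)) hf hpc hε.le hp'
    have a4 : Ph (fun x => p.eval x) A = Ph (fun x => p.eval x) B + Ph (fun x => p.eval x) C := by
      rw [Ph_poly, Ph_poly, Ph_poly, ← Finset.sum_add_distrib]
      refine Finset.sum_congr rfl fun m _ => ?_
      rw [h m]
      push_cast
      ring
    rw [abs_le] at a1 a2 a3 ⊢
    constructor <;> linarith [a1.1, a1.2, a2.1, a2.2, a3.1, a3.2]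
  have h0 : |Ph f A - (Ph f B + Ph f C)| ≤ 0 := by
    refine le_of_forall_pos_le_add fun ε hε => ?_
    have hc : (0 : ℝ) ≤ (Fintype.card ι + Fintype.card μ + Fintype.card ι' : ℝ) := by positivity
    have := key (ε / (Fintype.card ι + Fintype.card μ + Fintype.card ι' + 1)) (by positivity)
    rw [zero_add]
    refine this.trans ?_
    rw [mul_div_assoc', div_le_iff₀ (by positivity)]
    nlinarith
  exact sub_eq_zero.1 (abs_nonpos_iff.1 h0)

omit [Fintype μ] [Fintype ν] in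
theorem Ph_empty [IsEmpty ι] (A : Matrix ι κ (MonoidAlgebra ℤ G)) (f : ℝ → ℝ) : Ph f A = 0 := by
  unfold Ph traceVal
  have : IsEmpty (Fin (Fintype.card ι)) := by
    rw [Fintype.card_eq_zero]
    infer_instance
  exact Finset.sum_of_isEmpty _

theorem mt_pow_empty [IsEmpty ι] [DecidableEq ι] (P : Matrix ι ι (MonoidAlgebra ℤ G)) :
    mt P = 0 := by
  unfold mt
  exact Finset.sum_of_isEmpty _

theorem Ph_eq_of_mt [DecidableEq ι] [DecidableEq μ] (A : Matrix ι κ (MonoidAlgebra ℤ G))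
    (B : Matrix μ ν (MonoidAlgebra ℤ G))
    (h : ∀ m, mt ((A * adj A) ^ m) = mt ((B * adj B) ^ m))
    {f : ℝ → ℝ} (hf : Continuous f) : Ph f A = Ph f B := by
  have := Ph_add_of_mt A B (0 : Matrix (Fin 0) (Fin 0) (MonoidAlgebra ℤ G)) (fun m => by
    rw [h m, mt_pow_empty ((0 * adj 0 : Matrix (Fin 0) (Fin 0) (MonoidAlgebra ℤ G)) ^ m), add_zero]) hf
  rw [this, Ph_empty (0 : Matrix (Fin 0) (Fin 0) (MonoidAlgebra ℤ G)), add_zero]

theorem Ph_submatrix [DecidableEq ι] {ι' κ' : Type} [Fintype ι'] [Fintype κ'] [DecidableEq ι']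
    (A : Matrix ι κ (MonoidAlgebra ℤ G)) (e : ι' ≃ ι) (e' : κ' ≃ κ) {f : ℝ → ℝ}
    (hf : Continuous f) : Ph f (A.submatrix e e') = Ph f A := by
  refine Ph_eq_of_mt _ _ (fun m => ?_) hf
  rw [adj_submatrix, Matrix.submatrix_mul_equiv, submatrix_pow, mt_submatrix]

/-- a continuous version of `log (ε + x)` -/
def lg (ε x : ℝ) : ℝ := Real.log (ε + max x 0)

theorem lg_cont {ε : ℝ} (hε : 0 < ε) : Continuous (lg ε) := by
  unfold lg
  refine Continuous.log (by fun_prop) fun x => ?_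
  have := le_max_right x 0
  have : 0 < ε + max x 0 := by linarith
  exact this.ne'

/-- the regularized logarithm of the determinant of `A A*` -/
def LL (ε : ℝ) (A : Matrix ι κ (MonoidAlgebra ℤ G)) : ℝ := Ph (lg ε) A

theorem LL_mono (A : Matrix ι κ (MonoidAlgebra ℤ G)) {ε δ : ℝ} (hε : 0 < ε) (h : ε ≤ δ) :
    LL ε A ≤ LL δ A := by
  refine traceVal_mono unitVec (opp A) (opp_nonneg A) le_rfl (lg_cont hε)
    (lg_cont (hε.trans_le h)) fun x _ => ?_
  unfold lg
  have := le_max_right x 0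
  exact Real.log_le_log (by linarith) (by linarith)

/-- the determinant of `A A*` -/
def Dt (A : Matrix ι κ (MonoidAlgebra ℤ G)) : ℝ :=
  sInf ((fun ε => Real.exp (LL ε A)) '' Set.Ioi 0)

theorem Dt_nonneg (A : Matrix ι κ (MonoidAlgebra ℤ G)) : 0 ≤ Dt A := by
  refine Real.sInf_nonneg ?_
  rintro _ ⟨ε, _, rfl⟩
  exact (Real.exp_pos _).le

theorem Dt_bdd (A : Matrix ι κ (MonoidAlgebra ℤ G)) :
    BddBelow ((fun ε => Real.exp (LL ε A)) '' Set.Ioi 0) := by
  refine ⟨0, ?_⟩
  rintro _ ⟨ε, _, rfl⟩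
  exact (Real.exp_pos _).le

theorem Dt_le (A : Matrix ι κ (MonoidAlgebra ℤ G)) {ε : ℝ} (hε : 0 < ε) :
    Dt A ≤ Real.exp (LL ε A) := csInf_le (Dt_bdd A) ⟨ε, hε, rfl⟩

theorem le_Dt (A : Matrix ι κ (MonoidAlgebra ℤ G)) {c : ℝ}
    (h : ∀ ε : ℝ, 0 < ε → c ≤ Real.exp (LL ε A)) : c ≤ Dt A := by
  refine le_csInf ⟨_, 1, Set.mem_Ioi.2 one_pos, rfl⟩ ?_
  rintro _ ⟨ε, hε, rfl⟩
  exact h ε hε

theorem Dt_tendsto (A : Matrix ι κ (MonoidAlgebra ℤ G)) :
    Filter.Tendsto (fun ε => Real.exp (LL ε A)) (𝓝[>] 0) (𝓝 (Dt A)) := by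
  refine MonotoneOn.tendsto_nhdsGT ?_ (Dt_bdd A)
  intro x hx y _ hxy
  exact Real.exp_le_exp.2 (LL_mono A hx hxy)

theorem Dt_eq_of_mt [DecidableEq ι] [DecidableEq μ] (A : Matrix ι κ (MonoidAlgebra ℤ G))
    (B : Matrix μ ν (MonoidAlgebra ℤ G))
    (h : ∀ m, mt ((A * adj A) ^ m) = mt ((B * adj B) ^ m)) : Dt A = Dt B := by
  refine tendsto_nhds_unique ((Dt_tendsto A).congr' ?_) (Dt_tendsto B)
  filter_upwards [self_mem_nhdsWithin] with ε hε
  have : LL ε A = LL ε B := Ph_eq_of_mt A B h (lg_cont hε)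
  rw [this]

theorem Dt_mul_of_mt [DecidableEq ι] [DecidableEq μ] {ι' κ' : Type} [Fintype ι'] [Fintype κ']
    [DecidableEq ι'] (A : Matrix ι κ (MonoidAlgebra ℤ G)) (B : Matrix μ ν (MonoidAlgebra ℤ G))
    (C : Matrix ι' κ' (MonoidAlgebra ℤ G))
    (h : ∀ m, mt ((A * adj A) ^ m) = mt ((B * adj B) ^ m) + mt ((C * adj C) ^ m)) :
    Dt A = Dt B * Dt C := by
  refine tendsto_nhds_unique ((Dt_tendsto A).congr' ?_) ((Dt_tendsto B).mul (Dt_tendsto C))
  filter_upwards [self_mem_nhdsWithin] with ε hε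
  have : LL ε A = LL ε B + LL ε C := Ph_add_of_mt A B C h (lg_cont hε)
  rw [this, Real.exp_add]

theorem Dt_submatrix [DecidableEq ι] {ι' κ' : Type} [Fintype ι'] [Fintype κ'] [DecidableEq ι']
    (A : Matrix ι κ (MonoidAlgebra ℤ G)) (e : ι' ≃ ι) (e' : κ' ≃ κ) :
    Dt (A.submatrix e e') = Dt A := by
  refine Dt_eq_of_mt _ _ fun m => ?_
  rw [adj_submatrix, Matrix.submatrix_mul_equiv, submatrix_pow, mt_submatrix]

theorem mul_adj_pow_comm [DecidableEq ι] [DecidableEq κ] (A : Matrix ι κ (MonoidAlgebra ℤ G))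
    (B : Matrix κ ι (MonoidAlgebra ℤ G)) (m : ℕ) : (A * B) ^ m * A = A * (B * A) ^ m := by
  induction m with
  | zero => rw [pow_zero, pow_zero, Matrix.one_mul, Matrix.mul_one]
  | succ m ih =>
    rw [pow_succ, pow_succ, Matrix.mul_assoc, Matrix.mul_assoc, ← Matrix.mul_assoc _ A (B * A), ih,
      Matrix.mul_assoc]

theorem Dt_adj [DecidableEq ι] [DecidableEq κ] (h : Fintype.card ι = Fintype.card κ)
    (A : Matrix ι κ (MonoidAlgebra ℤ G)) : Dt (adj A) = Dt A := by
  refine Dt_eq_of_mt _ _ fun m => ?_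
  rw [adj_adj]
  cases m with
  | zero => rw [pow_zero, pow_zero, mt_one, mt_one, h]
  | succ m =>
    rw [pow_succ, ← Matrix.mul_assoc, mul_adj_pow_comm, Matrix.mul_assoc, mt_comm, Matrix.mul_assoc,
      ← pow_succ]

/-- relation with the C*-algebra -/
theorem LL_eq [DecidableEq ι] (h0 : 0 < Fintype.card ι) (A : Matrix ι ι (MonoidAlgebra ℤ G))
    {ε : ℝ} (hε : 0 < ε) :
    LL ε A = Fintype.card ι * (tau G (Fintype.card ι) (CFC.log
      (algebraMap ℝ (VN G (Fintype.card ι)) ε + star (el G _ ((fz A).map toQ))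
        * el G _ ((fz A).map toQ)))).re := by
  set a := el G (Fintype.card ι) ((fz A).map toQ) with ha
  rw [log_cfc a hε, ← tau_cfc G _ h0 _ _ (IsSelfAdjoint.star_mul_self a)
    ((cont_log hε (‖a‖ ^ 2)).mono (spec_le a le_rfl))]
  have h1 : incl G _ (star a * a) = opp A := by
    rw [ha, star_el_mul, incl_el, opp_eq]
  rw [h1]
  refine traceVal_congr unitVec (opp A) (opp_nonneg A) le_rfl fun x hx => ?_
  unfold lg
  rw [max_eq_left hx.1]

theorem el_fz_mul (A B : Matrix ι ι (MonoidAlgebra ℤ G)) :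
    el G _ ((fz B).map toQ) * el G _ ((fz A).map toQ) = el G _ ((fz (A * B)).map toQ) := by
  rw [el_mul, fz_mul, toQ_mul]

theorem Dt_mul' [DecidableEq ι] (A B : Matrix ι ι (MonoidAlgebra ℤ G)) :
    Dt (A * B) = Dt A * Dt B := by
  rcases Nat.eq_zero_or_pos (Fintype.card ι) with h0 | h0
  · have : IsEmpty ι := Fintype.card_eq_zero_iff.1 h0
    exact Dt_mul_of_mt _ _ _ fun m => by
      rw [mt_pow_empty ((A * B * adj (A * B)) ^ m), mt_pow_empty ((A * adj A) ^ m),
        mt_pow_empty ((B * adj B) ^ m), add_zero]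
  have hτ := tau_trSt G (Fintype.card ι) h0
  have hc : (0 : ℝ) < Fintype.card ι := by exact_mod_cast h0
  apply le_antisymm
  · -- upper bound
    have h1 : ∀ δ ε : ℝ, 0 < δ → 0 < ε → Real.exp (LL ε (A * B))
        ≤ Real.exp (LL δ B) * Real.exp (LL (ε / δ) A) := by
      intro δ ε hδ hε
      rw [← Real.exp_add, Real.exp_le_exp, LL_eq h0 _ hε, LL_eq h0 _ hδ,
        LL_eq h0 _ (div_pos hε hδ), ← mul_add]
      refine mul_le_mul_of_nonneg_left ?_ hc.le
      rw [← el_fz_mul]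
      exact logdet_mul_le _ hτ _ _ hδ hε
    have h2 : ∀ δ : ℝ, 0 < δ → Dt (A * B) ≤ Real.exp (LL δ B) * Dt A := by
      intro δ hδ
      have h3 : Filter.Tendsto (fun ε : ℝ => ε / δ) (𝓝[>] 0) (𝓝[>] 0) := by
        refine tendsto_nhdsWithin_iff.2 ⟨?_, ?_⟩
        · have : Filter.Tendsto (fun ε : ℝ => ε / δ) (𝓝 0) (𝓝 (0 / δ)) :=
            (continuous_id.div_const δ).tendsto 0
          rw [zero_div] at this
          exact this.mono_left nhdsWithin_le_nhds
        · filter_upwards [self_mem_nhdsWithin] with ε hε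
          exact div_pos hε hδ
      refine ge_of_tendsto (((Dt_tendsto A).comp h3).const_mul (Real.exp (LL δ B))) ?_
      filter_upwards [self_mem_nhdsWithin] with ε hε
      exact (Dt_le _ hε).trans (h1 δ ε hδ hε)
    rw [mul_comm]
    refine ge_of_tendsto ((Dt_tendsto B).mul_const (Dt A)) ?_
    filter_upwards [self_mem_nhdsWithin] with δ hδ
    exact h2 δ hδ
  · refine le_Dt _ fun δ hδ => ?_
    obtain ⟨ε, ε', h1, h2, h3⟩ := logdet_mul _ hτ (el G _ ((fz B).map toQ))
      (el G _ ((fz A).map toQ)) hδ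
    rw [el_fz_mul] at h3
    have h4 := mul_le_mul_of_nonneg_left h3 hc.le
    rw [mul_add, ← LL_eq h0 _ h1, ← LL_eq h0 _ h2, ← LL_eq h0 _ hδ] at h4
    have h5 := Real.exp_le_exp.2 h4
    rw [Real.exp_add] at h5
    refine le_trans ?_ h5
    rw [mul_comm]
    exact mul_le_mul (Dt_le _ h1) (Dt_le _ h2) (Dt_nonneg _) (Real.exp_pos _).le

/-- multiplicativity -/
theorem Dt_mul [DecidableEq ι] [DecidableEq κ] (h : Fintype.card ι = Fintype.card κ)
    (h' : Fintype.card κ = Fintype.card μ) (A : Matrix ι κ (MonoidAlgebra ℤ G))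
    (B : Matrix κ μ (MonoidAlgebra ℤ G)) : Dt (A * B) = Dt A * Dt B := by
  classical
  set e := Fintype.equivOfCardEq h with he
  set e' := Fintype.equivOfCardEq (h.trans h') with he'
  have h1 : Dt (A * B) = Dt ((A * B).submatrix (Equiv.refl ι) e') :=
    (Dt_submatrix _ _ _).symm
  have h2 : (A * B).submatrix (Equiv.refl ι) e' = A.submatrix (Equiv.refl ι) e * B.submatrix e e' :=
    (Matrix.submatrix_mul_equiv A B (Equiv.refl ι) e e').symm
  rw [h1, h2, Dt_mul', Dt_submatrix, Dt_submatrix]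

end phi

end Pool.Agent.Helper653_Tor
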