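import Mathlib

/-!
# An Ore set in the integral group ring
-/

set_option autoImplicit false

noncomputable section

namespace Pool.Agent.Helper653_Tor

open MonoidAlgebra

section
variable {G : Type} [Group G]

/-- every conjugate of `g` has a power which commutes with a power of `g` -/
def CommPow (g : G) : Prop :=
  ∀ x : G, ∃ m n : ℕ, 1 ≤ m ∧ 1 ≤ n ∧ Commute (g ^ m) (x * g ^ n * x⁻¹)

/-- conjugates of positive powers -/
def US (g : G) : Set G := {u | ∃ (x : G) (k : ℕ), 1 ≤ k ∧ u = x * g ^ k * x⁻¹}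

theorem US_conj {g u : G} (hu : u ∈ US g) (h : G) : h * u * h⁻¹ ∈ US g := by
  obtain ⟨x, k, hk, rfl⟩ := hu
  refine ⟨h * x, k, hk, ?_⟩
  group

theorem US_pow {g u : G} (hu : u ∈ US g) {n : ℕ} (hn : 1 ≤ n) : u ^ n ∈ US g := by
  obtain ⟨x, k, hk, rfl⟩ := hu
  refine ⟨x, k * n, Nat.mul_pos hk hn, ?_⟩
  rw [conj_pow, pow_mul]

theorem US_self (g : G) : g ∈ US g := ⟨1, 1, le_rfl, by simp⟩

theorem US_order {g u : G} (hg : ¬ IsOfFinOrder g) (hu : u ∈ US g) : ¬ IsOfFinOrder u := by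
  obtain ⟨x, k, hk, rfl⟩ := hu
  intro h
  apply hg
  rw [isOfFinOrder_iff_pow_eq_one] at h ⊢
  obtain ⟨n, hn, h1⟩ := h
  refine ⟨k * n, Nat.mul_pos hk hn, ?_⟩
  rw [conj_pow, ← pow_mul] at h1
  have h2 := congrArg (fun z => x⁻¹ * z * x) h1
  simpa [mul_assoc] using h2

theorem US_comm {g u v : G} (hg : CommPow g) (hu : u ∈ US g) (hv : v ∈ US g) :
    ∃ m n : ℕ, 1 ≤ m ∧ 1 ≤ n ∧ Commute (u ^ m) (v ^ n) := by
  obtain ⟨x, k, hk, rfl⟩ := hu
  obtain ⟨y, l, hl, rfl⟩ := hv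
  obtain ⟨m, n, hm, hn, h⟩ := hg (x⁻¹ * y)
  refine ⟨m, n, hm, hn, ?_⟩
  have h1 : Commute ((g ^ m) ^ k) ((x⁻¹ * y * g ^ n * (x⁻¹ * y)⁻¹) ^ l) := h.pow_pow k l
  rw [conj_pow] at h1
  rw [conj_pow, conj_pow]
  have h2 : (g ^ k) ^ m = (g ^ m) ^ k := by rw [← pow_mul, ← pow_mul, mul_comm]
  have h3 : (g ^ l) ^ n = (g ^ n) ^ l := by rw [← pow_mul, ← pow_mul, mul_comm]
  rw [h2, h3]
  have h4 := congrArg (fun z => x * z * x⁻¹) h1.eq
  show _ * _ = _ * _
  calc x * (g ^ m) ^ k * x⁻¹ * (y * (g ^ n) ^ l * y⁻¹)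
      = x * ((g ^ m) ^ k * (x⁻¹ * y * (g ^ n) ^ l * (x⁻¹ * y)⁻¹)) * x⁻¹ := by group
    _ = x * (x⁻¹ * y * (g ^ n) ^ l * (x⁻¹ * y)⁻¹ * (g ^ m) ^ k) * x⁻¹ := h4
    _ = y * (g ^ n) ^ l * y⁻¹ * (x * (g ^ m) ^ k * x⁻¹) := by group

theorem exists_K {g u : G} (hg : CommPow g) (hu : u ∈ US g) (F : Finset G) :
    ∃ K : ℕ, 1 ≤ K ∧ ∀ h ∈ F, ∀ h' ∈ F, Commute ((h * u * h⁻¹) ^ K) ((h' * u * h'⁻¹) ^ K) := by
  classical
  choose m n hm hn hc using fun (p : G × G) =>
    US_comm hg (US_conj hu p.1) (US_conj hu p.2)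
  refine ⟨∏ p ∈ F ×ˢ F, m p * n p, ?_, ?_⟩
  · exact Finset.one_le_prod' fun p _ => Nat.mul_pos (hm p) (hn p)
  · intro h hh h' hh'
    have hp : (h, h') ∈ F ×ˢ F := Finset.mem_product.2 ⟨hh, hh'⟩
    rw [← Finset.mul_prod_erase _ _ hp]
    set r := ∏ p ∈ (F ×ˢ F).erase (h, h'), m p * n p
    have h1 := (hc (h, h')).pow_pow (n (h, h') * r) (m (h, h') * r)
    rw [← pow_mul, ← pow_mul] at h1
    have e1 : m (h, h') * (n (h, h') * r) = m (h, h') * n (h, h') * r := by ring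
    have e2 : n (h, h') * (m (h, h') * r) = m (h, h') * n (h, h') * r := by ring
    rwa [e1, e2] at h1

/-- the element `u - 1` -/
def om (u : G) : MonoidAlgebra ℤ G := single u 1 - 1

/-- the multiplicative set -/
def SS (g : G) : Submonoid (MonoidAlgebra ℤ G) := Submonoid.closure (om '' US g)

theorem om_mem {g u : G} (hu : u ∈ US g) : om u ∈ SS g :=
  Submonoid.subset_closure ⟨u, hu, rfl⟩

theorem om_mul_single (u h : G) (K : ℕ) :
    om ((h * u * h⁻¹) ^ K) * single h 1 = single h 1 * (∑ i ∈ Finset.range K, single u 1 ^ i) * om u := by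
  rw [mul_assoc (single h 1)]
  unfold om
  rw [geom_sum_mul, sub_mul, mul_sub, single_pow, one_mul, mul_one, single_mul_single,
    single_mul_single, one_pow, conj_pow]
  congr 2
  group

theorem commute_om {a b : G} (h : Commute a b) :
    Commute (om a) (single b (1 : ℤ)) := by
  unfold om
  apply Commute.sub_left
  · show _ * _ = _ * _
    rw [single_mul_single, single_mul_single, h.eq]
  · exact Commute.one_left _

theorem key_ore {g u : G} (hu : u ∈ US g) {K : ℕ} (hK : 1 ≤ K) (F : Finset G)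
    (hF : ∀ h ∈ F, ∀ h' ∈ F, Commute ((h * u * h⁻¹) ^ K) ((h' * u * h'⁻¹) ^ K)) :
    ∃ s ∈ SS g, (∀ c : MonoidAlgebra ℤ G,
        (∀ h ∈ F, Commute c (single ((h * u * h⁻¹) ^ K) (1 : ℤ))) → Commute c s) ∧
      ∀ h ∈ F, ∃ r : MonoidAlgebra ℤ G, s * single h 1 = r * om u := by
  classical
  induction F using Finset.induction_on with
  | empty => exact ⟨1, one_mem _, fun c _ => Commute.one_right c, fun h hh => by simp at hh⟩
  | insert h F hh ih =>
    obtain ⟨s, hs, h1, h2⟩ := ih fun a ha b hb =>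
      hF a (Finset.mem_insert_of_mem ha) b (Finset.mem_insert_of_mem hb)
    have hw : om ((h * u * h⁻¹) ^ K) ∈ SS g := om_mem (US_pow (US_conj hu h) hK)
    have hcomm : Commute (om ((h * u * h⁻¹) ^ K)) s := h1 _ fun b hb =>
      commute_om (hF h (Finset.mem_insert_self _ _) b (Finset.mem_insert_of_mem hb))
    refine ⟨s * om ((h * u * h⁻¹) ^ K), mul_mem hs hw, ?_, ?_⟩
    · intro c hc
      refine (h1 c fun b hb => hc b (Finset.mem_insert_of_mem hb)).mul_right ?_
      unfold om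
      exact (hc h (Finset.mem_insert_self _ _)).sub_right (Commute.one_right c)
    · intro b hb
      rcases Finset.mem_insert.1 hb with rfl | hb
      · refine ⟨s * (single b 1 * (∑ i ∈ Finset.range K, single u 1 ^ i)), ?_⟩
        rw [mul_assoc, om_mul_single, ← mul_assoc]
      · obtain ⟨r, hr⟩ := h2 b hb
        refine ⟨om ((h * u * h⁻¹) ^ K) * r, ?_⟩
        rw [← hcomm.eq, mul_assoc (om _) s, hr, mul_assoc (om _) r]

theorem ore_gen {g u : G} (hg : CommPow g) (hu : u ∈ US g) {ι : Type} [Fintype ι]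
    (y : ι → MonoidAlgebra ℤ G) :
    ∃ s ∈ SS g, ∀ i, ∃ r : MonoidAlgebra ℤ G, s * y i = r * om u := by
  classical
  set F : Finset G := Finset.univ.biUnion fun i => (y i).coeff.support with hFdef
  obtain ⟨K, hK, hF⟩ := exists_K hg hu F
  obtain ⟨s, hs, -, h2⟩ := key_ore hu hK F hF
  refine ⟨s, hs, fun i => ?_⟩
  have h3 : ∀ (z : MonoidAlgebra ℤ G), z.coeff.support ⊆ F → ∃ r, s * z = r * om u := by
    intro z hz
    have h4 : ∀ h ∈ z.coeff.support, ∃ r : MonoidAlgebra ℤ G, s * single h 1 = r * om u :=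
      fun h hh => h2 h (hz hh)
    choose! r hr using h4
    refine ⟨∑ h ∈ z.coeff.support, (z.coeff h) • r h, ?_⟩
    have h5 : z = ∑ h ∈ z.coeff.support, (z.coeff h) • single h (1 : ℤ) := by
      apply MonoidAlgebra.coeff_injective
      rw [MonoidAlgebra.coeff_sum]
      conv_lhs => rw [← Finsupp.sum_single z.coeff]
      rw [Finsupp.sum]
      refine Finset.sum_congr rfl fun h _ => ?_
      rw [MonoidAlgebra.coeff_smul, MonoidAlgebra.coeff_single, Finsupp.smul_single, smul_eq_mul,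
        mul_one]
    conv_lhs => rw [h5]
    rw [Finset.mul_sum, Finset.sum_mul]
    refine Finset.sum_congr rfl fun h hh => ?_
    rw [mul_smul_comm, hr h hh, smul_mul_assoc]
  exact h3 (y i) (Finset.subset_biUnion_of_mem (fun i => (y i).coeff.support) (Finset.mem_univ i))

theorem ore_fam {g : G} (hg : CommPow g) {t : MonoidAlgebra ℤ G} (ht : t ∈ SS g) :
    ∀ {ι : Type} [Fintype ι] (y : ι → MonoidAlgebra ℤ G),
    ∃ s ∈ SS g, ∀ i, ∃ r : MonoidAlgebra ℤ G, s * y i = r * t := by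
  unfold SS at ht
  induction ht using Submonoid.closure_induction with
  | mem x hx =>
    obtain ⟨u, hu, rfl⟩ := hx
    intro ι _ y
    exact ore_gen hg hu y
  | one =>
    intro ι _ y
    exact ⟨1, one_mem _, fun i => ⟨y i, by rw [one_mul, mul_one]⟩⟩
  | mul a b _ _ h1 h2 =>
    intro ι _ y
    obtain ⟨s, hs, hr⟩ := h2 y
    choose r hr using hr
    obtain ⟨s', hs', hr'⟩ := h1 r
    choose r' hr' using hr'
    refine ⟨s' * s, mul_mem hs' hs, fun i => ⟨r' i, ?_⟩⟩
    rw [mul_assoc, hr, ← mul_assoc, hr', mul_assoc]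

/-- cancellation -/
theorem om_canc {u : G} (hu : ¬ IsOfFinOrder u) {a : MonoidAlgebra ℤ G} (h : a * om u = 0) :
    a = 0 := by
  unfold om at h
  rw [mul_sub, mul_one, sub_eq_zero] at h
  have h1 : ∀ x, a.coeff (x * u⁻¹) = a.coeff x := by
    intro x
    have h2 : (a * single u 1).coeff x = a.coeff x := congrArg (fun z => z.coeff x) h
    rw [MonoidAlgebra.coeff_mul_single_apply] at h2
    rw [mul_one] at h2
    exact h2
  have h3 : ∀ (x : G) (n : ℕ), a.coeff (x * (u⁻¹) ^ n) = a.coeff x := by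
    intro x n
    induction n with
    | zero => simp
    | succ n ih => rw [pow_succ, ← mul_assoc, h1, ih]
  apply MonoidAlgebra.coeff_injective
  ext x
  by_contra hne
  have hinj : Function.Injective (fun n : ℕ => x * (u⁻¹) ^ n) := by
    intro m n hmn
    have h4 : (u⁻¹) ^ m = (u⁻¹) ^ n := by simpa using hmn
    have h5 : Function.Injective (fun n : ℕ => (u⁻¹) ^ n) :=
      injective_pow_iff_not_isOfFinOrder.mpr (by rwa [isOfFinOrder_inv_iff])
    exact h5 h4
  have hsub : Set.range (fun n : ℕ => x * (u⁻¹) ^ n) ⊆ (a.coeff.support : Set G) := by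
    rintro _ ⟨n, rfl⟩
    rw [Finset.mem_coe, Finsupp.mem_support_iff, h3]
    exact hne
  exact Set.infinite_range_of_injective hinj (a.coeff.support.finite_toSet.subset hsub)

theorem SS_canc {g : G} (hg : ¬ IsOfFinOrder g) {t : MonoidAlgebra ℤ G} (ht : t ∈ SS g) :
    ∀ a : MonoidAlgebra ℤ G, a * t = 0 → a = 0 := by
  unfold SS at ht
  induction ht using Submonoid.closure_induction with
  | mem x hx =>
    obtain ⟨u, hu, rfl⟩ := hx
    intro a ha
    exact om_canc (US_order hg hu) ha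
  | one => intro a ha; rwa [mul_one] at ha
  | mul a b _ _ h1 h2 =>
    intro c hc
    rw [← mul_assoc] at hc
    exact h1 c (h2 _ hc)

end
end Pool.Agent.Helper653_Tor
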