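import Mathlib

/-!
# Sofic groups: fixed points of words
-/

set_option autoImplicit false
open scoped Topology

noncomputable section

namespace Pool.Agent.Helper653_Tor

/-- the normalised Hamming distance on `Sym(n)`: the proportion of points where the two
permutations differ -/
def hamm {n : ℕ} (σ τ : Equiv.Perm (Fin n)) : ℝ :=
  ((Finset.univ.filter fun i => σ i ≠ τ i).card : ℝ) / n

/-- Sofic groups: for every finite subset `A` and every `ε > 0` there are `n ≥ 1` and a map `φ` into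
`Sym(n)` with `φ 1 = 1`, `d(φ(ab), φ(a)φ(b)) < ε` whenever `a, b, ab ∈ A`, and `d(φ(a), 1) ≥ 1 - ε`
for `a ∈ A`, `a ≠ 1`. -/
def IsSofic (G : Type) [Group G] : Prop :=
  ∀ A : Finset G, ∀ ε : ℝ, 0 < ε →
    ∃ n : ℕ, 1 ≤ n ∧ ∃ φ : G → Equiv.Perm (Fin n),
      φ 1 = 1 ∧
      (∀ a ∈ A, ∀ b ∈ A, a * b ∈ A → hamm (φ (a * b)) (φ a * φ b) < ε) ∧
      ∀ a ∈ A, a ≠ 1 → 1 - ε ≤ hamm (φ a) 1

section hammfacts
variable {n : ℕ}

theorem hamm_nonneg (σ τ : Equiv.Perm (Fin n)) : 0 ≤ hamm σ τ := by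
  unfold hamm; positivity

theorem hamm_le_one (σ τ : Equiv.Perm (Fin n)) : hamm σ τ ≤ 1 := by
  unfold hamm
  have h1 : ((Finset.univ.filter fun i => σ i ≠ τ i).card : ℝ) ≤ n := by
    have := Finset.card_filter_le (Finset.univ : Finset (Fin n)) (fun i => σ i ≠ τ i)
    rw [Finset.card_univ, Fintype.card_fin] at this
    exact_mod_cast this
  exact div_le_one_of_le₀ h1 (Nat.cast_nonneg n)

theorem hamm_comm (σ τ : Equiv.Perm (Fin n)) : hamm σ τ = hamm τ σ := by
  unfold hamm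
  simp only [ne_comm]

theorem hamm_self (σ : Equiv.Perm (Fin n)) : hamm σ σ = 0 := by
  unfold hamm; simp

theorem hamm_tri (σ τ υ : Equiv.Perm (Fin n)) : hamm σ υ ≤ hamm σ τ + hamm τ υ := by
  unfold hamm
  rw [← add_div]
  refine div_le_div_of_nonneg_right ?_ (Nat.cast_nonneg n)
  have h1 : (Finset.univ.filter fun i => σ i ≠ υ i)
      ⊆ (Finset.univ.filter fun i => σ i ≠ τ i) ∪ (Finset.univ.filter fun i => τ i ≠ υ i) := by
    intro i hi
    simp only [Finset.mem_filter, Finset.mem_univ, true_and, Finset.mem_union] at hi ⊢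
    by_contra hcon
    push Not at hcon
    exact hi (hcon.1.trans hcon.2)
  have h2 := (Finset.card_le_card h1).trans (Finset.card_union_le _ _)
  exact_mod_cast h2

theorem hamm_mul_left (ρ σ τ : Equiv.Perm (Fin n)) : hamm (ρ * σ) (ρ * τ) = hamm σ τ := by
  unfold hamm
  simp

theorem hamm_mul_right (ρ σ τ : Equiv.Perm (Fin n)) : hamm (σ * ρ) (τ * ρ) = hamm σ τ := by
  have h : (Finset.univ.filter fun i => (σ * ρ) i ≠ (τ * ρ) i).card
      = (Finset.univ.filter fun i => σ i ≠ τ i).card :=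
    Finset.card_equiv ρ (by
      intro i
      rw [Finset.mem_filter, Finset.mem_filter]
      exact ⟨fun h => ⟨Finset.mem_univ _, h.2⟩, fun h => ⟨Finset.mem_univ _, h.2⟩⟩)
  unfold hamm
  rw [h]

theorem hamm_mul_le (σ τ σ' τ' : Equiv.Perm (Fin n)) :
    hamm (σ * τ) (σ' * τ') ≤ hamm σ σ' + hamm τ τ' := by
  refine (hamm_tri _ (σ' * τ) _).trans ?_
  rw [hamm_mul_right, hamm_mul_left]

theorem hamm_inv_le (σ τ : Equiv.Perm (Fin n)) : hamm σ⁻¹ τ = hamm (σ * τ) 1 := by
  rw [← hamm_mul_left σ σ⁻¹ τ, mul_inv_cancel, hamm_comm]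

end hammfacts

/-- the space of maps into finite symmetric groups -/
abbrev SX (G : Type) : Type := (n : ℕ) × (G → Equiv.Perm (Fin n))

variable {G : Type} [Group G]

/-- good approximations -/
def Good (A : Finset G) (ε : ℝ) (x : SX G) : Prop :=
  1 ≤ x.1 ∧ x.2 1 = 1 ∧ (∀ a ∈ A, ∀ b ∈ A, hamm (x.2 (a * b)) (x.2 a * x.2 b) < ε) ∧
    ∀ a ∈ A, a ≠ 1 → 1 - ε ≤ hamm (x.2 a) 1

theorem Good.mono {A B : Finset G} {ε δ : ℝ} (hAB : A ⊆ B) (hε : δ ≤ ε) {x : SX G}
    (h : Good B δ x) : Good A ε x :=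
  ⟨h.1, h.2.1, fun a ha b hb => (h.2.2.1 a (hAB ha) b (hAB hb)).trans_le hε,
    fun a ha h1 => (by linarith : 1 - ε ≤ 1 - δ).trans (h.2.2.2 a (hAB ha) h1)⟩

variable (G) in
/-- the filter of sofic approximations -/
def Fs : Filter (SX G) where
  sets := {S | ∃ (A : Finset G) (ε : ℝ), 0 < ε ∧ ∀ x, Good A ε x → x ∈ S}
  univ_sets := ⟨∅, 1, one_pos, fun _ _ => trivial⟩
  sets_of_superset := by
    rintro S T ⟨A, ε, hε, h⟩ hST
    exact ⟨A, ε, hε, fun x hx => hST (h x hx)⟩
  inter_sets := by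
    classical
    rintro S T ⟨A, ε, hε, h⟩ ⟨B, δ, hδ, h'⟩
    refine ⟨A ∪ B, min ε δ, lt_min hε hδ, fun x hx => ⟨h x ?_, h' x ?_⟩⟩
    · exact hx.mono Finset.subset_union_left (min_le_left _ _)
    · exact hx.mono Finset.subset_union_right (min_le_right _ _)

theorem good_mem (A : Finset G) {ε : ℝ} (hε : 0 < ε) : ∀ᶠ x in Fs G, Good A ε x :=
  ⟨A, ε, hε, fun _ hx => hx⟩

theorem Fs_neBot (hG : IsSofic G) : (Fs G).NeBot := by
  classical
  rw [Filter.neBot_iff]
  intro hbot
  have h1 : (∅ : Set (SX G)) ∈ Fs G := by rw [hbot]; exact Filter.mem_bot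
  obtain ⟨A, ε, hε, h⟩ := h1
  obtain ⟨n, hn, φ, h1, h2, h3⟩ := hG (A ∪ (A ×ˢ A).image (fun p => p.1 * p.2)) ε hε
  refine h ⟨n, φ⟩ ⟨hn, h1, fun a ha b hb => ?_, fun a ha => ?_⟩
  · exact h2 a (Finset.mem_union_left _ ha) b (Finset.mem_union_left _ hb)
      (Finset.mem_union_right _ (Finset.mem_image.2 ⟨(a, b), Finset.mem_product.2 ⟨ha, hb⟩, rfl⟩))
  · exact h3 a (Finset.mem_union_left _ ha)

/-- the action of the free group -/
def rho (x : SX G) : FreeGroup G →* Equiv.Perm (Fin x.1) := FreeGroup.lift x.2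

variable (G) in
/-- the evaluation of words -/
def pi : FreeGroup G →* G := FreeGroup.lift id

theorem one_le_n : ∀ᶠ x in Fs G, 1 ≤ x.1 := (good_mem ∅ one_pos).mono fun _ hx => hx.1

theorem phi_one : ∀ᶠ x in Fs G, x.2 1 = 1 := (good_mem ∅ one_pos).mono fun _ hx => hx.2.1

theorem tendsto_mul (a b : G) :
    Filter.Tendsto (fun x : SX G => hamm (x.2 (a * b)) (x.2 a * x.2 b)) (Fs G) (𝓝 0) := by
  classical
  rw [Metric.tendsto_nhds]
  intro ε hε
  filter_upwards [good_mem {a, b} hε] with x hx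
  rw [Real.dist_0_eq_abs, abs_of_nonneg (hamm_nonneg _ _)]
  exact hx.2.2.1 a (by simp) b (by simp)

theorem tendsto_ne {a : G} (ha : a ≠ 1) :
    Filter.Tendsto (fun x : SX G => hamm (x.2 a) 1) (Fs G) (𝓝 1) := by
  rw [Metric.tendsto_nhds]
  intro ε hε
  filter_upwards [good_mem {a} (half_pos hε)] with x hx
  have h1 := hx.2.2.2 a (by simp) ha
  have h2 := hamm_le_one (x.2 a) 1
  rw [Real.dist_eq, abs_sub_lt_iff]
  constructor <;> linarith

theorem tendsto_rho (w : FreeGroup G) :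
    Filter.Tendsto (fun x : SX G => hamm (rho x w) (x.2 (pi G w))) (Fs G) (𝓝 0) := by
  induction w using FreeGroup.induction_on with
  | C1 =>
    refine tendsto_const_nhds.congr' ?_
    filter_upwards [phi_one (G := G)] with x hx
    rw [map_one, map_one, hx, hamm_self]
  | of a =>
    refine tendsto_const_nhds.congr' (Filter.Eventually.of_forall fun x => ?_)
    simp [rho, pi, hamm_self]
  | inv_of a _ =>
    have h1 := tendsto_mul a a⁻¹
    refine h1.congr' ?_
    filter_upwards [phi_one (G := G)] with x hx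
    rw [mul_inv_cancel, hx, hamm_comm, ← hamm_inv_le]
    simp [rho, pi]
  | mul w v hw hv =>
    have h1 := (hw.add hv).add (tendsto_mul (pi G w) (pi G v))
    rw [add_zero, add_zero] at h1
    refine squeeze_zero (fun x => hamm_nonneg _ _) (fun x => ?_) h1
    rw [map_mul, map_mul]
    refine (hamm_tri _ (x.2 (pi G w) * x.2 (pi G v)) _).trans ?_
    rw [hamm_comm (x.2 (pi G w) * x.2 (pi G v))]
    exact add_le_add (hamm_mul_le _ _ _ _) le_rfl

/-- the proportion of fixed points -/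
def fx (x : SX G) (w : FreeGroup G) : ℝ :=
  ((Finset.univ.filter fun i => rho x w i = i).card : ℝ) / x.1

omit [Group G] in
theorem fx_eq (x : SX G) (hx : 1 ≤ x.1) (w : FreeGroup G) : fx x w = 1 - hamm (rho x w) 1 := by
  unfold fx hamm
  have hpos : (0 : ℝ) < x.1 := by exact_mod_cast hx
  rw [eq_sub_iff_add_eq, ← add_div, div_eq_one_iff_eq hpos.ne']
  have hc := Finset.card_filter_add_card_filter_not (s := (Finset.univ : Finset (Fin x.1)))
    (fun i => rho x w i = i)
  rw [Finset.card_univ, Fintype.card_fin] at hc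
  exact_mod_cast hc

open Classical in
theorem tendsto_fx (w : FreeGroup G) :
    Filter.Tendsto (fun x : SX G => fx x w) (Fs G) (𝓝 (if pi G w = 1 then 1 else 0)) := by
  have h0 := tendsto_rho w
  split_ifs with h
  · have h1 : Filter.Tendsto (fun x : SX G => 1 - hamm (rho x w) (x.2 (pi G w))) (Fs G)
        (𝓝 (1 - 0)) := h0.const_sub 1
    rw [sub_zero] at h1
    refine h1.congr' ?_
    filter_upwards [phi_one (G := G), one_le_n (G := G)] with x hx hn
    rw [h, hx, fx_eq x hn]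
  · have h1 := tendsto_ne h
    have h2 : Filter.Tendsto (fun x : SX G => hamm (rho x w) 1) (Fs G) (𝓝 1) := by
      have h3 : Filter.Tendsto (fun x : SX G => hamm (x.2 (pi G w)) 1
          - hamm (rho x w) (x.2 (pi G w))) (Fs G) (𝓝 (1 - 0)) := h1.sub h0
      rw [sub_zero] at h3
      refine tendsto_of_tendsto_of_tendsto_of_le_of_le h3 tendsto_const_nhds (fun x => ?_)
        (fun x => hamm_le_one _ _)
      have h5 := hamm_tri (x.2 (pi G w)) (rho x w) 1
      have h6 := hamm_comm (x.2 (pi G w)) (rho x w)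
      show hamm (x.2 (pi G w)) 1 - hamm (rho x w) (x.2 (pi G w)) ≤ hamm (rho x w) 1
      linarith
    have h4 : Filter.Tendsto (fun x : SX G => 1 - hamm (rho x w) 1) (Fs G) (𝓝 (1 - 1)) :=
      h2.const_sub 1
    rw [sub_self] at h4
    refine h4.congr' ?_
    filter_upwards [one_le_n (G := G)] with x hn
    rw [fx_eq x hn]

end Pool.Agent.Helper653_Tor
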