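import Pool.Agent.Helper653_Tor.Kr
import Pool.Agent.TH630.Tor.Defs

/-!
# Relation with the spectral measure
-/

set_option autoImplicit false
set_option linter.unusedSectionVars false
open scoped InnerProductSpace Topology

noncomputable section

namespace Pool.Agent.Helper653_Tor
open Pool.Agent.Helper993.FK Pool.Agent.Helper993.Delta Pool.Agent.H712R5.BO MeasureTheory

section general
variable {H : Type} [NormedAddCommGroup H] [InnerProductSpace ℂ H] [CompleteSpace H] {r : ℕ}

/-- the product of a continuous function with the cutoff function -/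
def cc (N : ℕ) (f : ℝ → ℝ) (hf : Continuous f) : CompactlySupportedContinuousMap ℝ ℝ where
  toFun x := f x * cut N x
  continuous_toFun := hf.mul (cut_continuous N)
  hasCompactSupport' := by
    apply HasCompactSupport.intro (isCompact_Icc (a := -((N : ℝ) + 1)) (b := (N : ℝ) + 1))
    intro x hx
    have : (N : ℝ) + 1 ≤ |x| := by
      by_contra hcon
      push Not at hcon
      rw [abs_lt] at hcon
      exact hx ⟨hcon.1.le, hcon.2.le⟩
    rw [cut_eq_zero this, mul_zero]

theorem cc_apply (N : ℕ) (f : ℝ → ℝ) (hf : Continuous f) (x : ℝ) : cc N f hf x = f x * cut N x :=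
  rfl

theorem cut_le_one' (N : ℕ) (x : ℝ) : cut N x ≤ 1 := by
  unfold cut
  exact max_le zero_le_one (min_le_left _ _)

variable (e : Fin r → H) (T : H →L[ℂ] H) (hT : 0 ≤ T)

theorem cc_int (N : ℕ) (f : ℝ → ℝ) (hf : Continuous f) :
    Integrable (fun x => f x * cut N x) (spectralMeasure e T) := by
  have hreg : Measure.Regular (spectralMeasure e T) := by
    unfold spectralMeasure
    infer_instance
  exact (cc N f hf).continuous.integrable_of_hasCompactSupport (cc N f hf).hasCompactSupport

include hT in
theorem cc_integral {N : ℕ} (hN : ‖T‖ ≤ N) (f : ℝ → ℝ) (hf : Continuous f) :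
    ∫ x, f x * cut N x ∂(spectralMeasure e T) = traceVal e T f := by
  have h1 := integral_spectralMeasure e T (cc N f hf)
  refine h1.trans ?_
  change traceVal e T (cc N f hf) = _
  apply traceVal_congr e T hT hN
  intro x hx
  rw [cc_apply, cut_eq_one, mul_one]
  rw [abs_of_nonneg hx.1]
  exact hx.2

include hT in
/-- no mass on the nonpositive half line -/
theorem iic_zero (hb : ∀ η : ℝ, 0 < η → ∃ δ : ℝ, 0 < δ ∧ traceVal e T (bump δ) ≤ η)
    {N : ℕ} (hN : ‖T‖ ≤ N) : ∫ x in Set.Iic (0 : ℝ), cut N x ∂(spectralMeasure e T) = 0 := by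
  refine le_antisymm ?_ (integral_nonneg fun x => cut_nonneg N x)
  refine le_of_forall_pos_le_add fun η hη => ?_
  obtain ⟨δ, hδ, h⟩ := hb η hη
  rw [← cc_integral e T hT hN _ (bump_continuous δ)] at h
  have h1 : ∫ x in Set.Iic (0 : ℝ), cut N x ∂(spectralMeasure e T)
      ≤ ∫ x, bump δ x * cut N x ∂(spectralMeasure e T) := by
    have h2 : ∫ x in Set.Iic (0 : ℝ), cut N x ∂(spectralMeasure e T)
        = ∫ x in Set.Iic (0 : ℝ), bump δ x * cut N x ∂(spectralMeasure e T) := by
      apply setIntegral_congr_fun measurableSet_Iic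
      intro x hx
      have hx' : x ≤ 0 := hx
      have : bump δ x = 1 := by
        unfold bump
        have h3 : x / δ ≤ 0 := div_nonpos_of_nonpos_of_nonneg hx' hδ.le
        rw [min_eq_left (by linarith), max_eq_right zero_le_one]
      simp only [this, one_mul]
    rw [h2]
    exact setIntegral_le_integral (cc_int e T N _ (bump_continuous δ))
      (Filter.Eventually.of_forall fun x => mul_nonneg (bump_nonneg _ _) (cut_nonneg _ _))
  linarith

include hT in
theorem tendsto_cut (hb : ∀ η : ℝ, 0 < η → ∃ δ : ℝ, 0 < δ ∧ traceVal e T (bump δ) ≤ η)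
    (hlog : IntegrableOn Real.log (Set.Ioi 0) (spectralMeasure e T)) {N : ℕ} (hN : ‖T‖ ≤ N) :
    Filter.Tendsto (fun ε => traceVal e T (lg ε)) (𝓝[>] 0)
      (𝓝 (∫ x in Set.Ioi (0 : ℝ), Real.log x * cut N x ∂(spectralMeasure e T))) := by
  have h1 : ∀ᶠ ε in 𝓝[>] (0 : ℝ),
      ∫ x in Set.Ioi (0 : ℝ), lg ε x * cut N x ∂(spectralMeasure e T) = traceVal e T (lg ε) := by
    filter_upwards [self_mem_nhdsWithin] with ε hε
    have hε' : (0 : ℝ) < ε := hε
    rw [← cc_integral e T hT hN _ (lg_cont hε'),
      ← integral_add_compl (measurableSet_Ioi : MeasurableSet (Set.Ioi (0:ℝ)))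
        (cc_int e T N _ (lg_cont hε')), Set.compl_Ioi]
    have h2 : ∫ x in Set.Iic (0 : ℝ), lg ε x * cut N x ∂(spectralMeasure e T)
        = Real.log ε * ∫ x in Set.Iic (0 : ℝ), cut N x ∂(spectralMeasure e T) := by
      rw [← integral_const_mul]
      apply setIntegral_congr_fun measurableSet_Iic
      intro x hx
      have hx' : x ≤ 0 := hx
      simp only [lg]
      rw [max_eq_right hx', add_zero]
    rw [h2, iic_zero e T hT hb hN, mul_zero, add_zero]
  refine Filter.Tendsto.congr' h1 ?_
  refine tendsto_integral_filter_of_dominated_convergence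
    (fun x => |Real.log x| + Real.log (N + 2) * cut N x) ?_ ?_ ?_ ?_
  · filter_upwards [self_mem_nhdsWithin] with ε hε
    have hε' : (0 : ℝ) < ε := hε
    exact ((lg_cont hε').mul (cut_continuous N)).measurable.aestronglyMeasurable
  · have h4 : Set.Ioo (0 : ℝ) 1 ∈ 𝓝[>] (0 : ℝ) := Ioo_mem_nhdsGT (by norm_num)
    filter_upwards [h4] with ε hε
    refine (ae_restrict_iff' measurableSet_Ioi).mpr (Filter.Eventually.of_forall ?_)
    intro x hx
    have hx' : (0 : ℝ) < x := hx
    rw [Real.norm_eq_abs, abs_mul, abs_of_nonneg (cut_nonneg N x)]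
    unfold lg
    rw [max_eq_left hx'.le]
    have hN0 : (0 : ℝ) ≤ N := Nat.cast_nonneg N
    have hlN : 0 ≤ Real.log (N + 2) := Real.log_nonneg (by linarith)
    rcases le_or_gt ((N : ℝ) + 1) x with h | h
    · rw [cut_eq_zero (by rw [abs_of_pos hx']; exact h), mul_zero, mul_zero, add_zero]
      exact abs_nonneg _
    · have h5 : |Real.log (ε + x)| ≤ |Real.log x| + Real.log (N + 2) := by
        have h6 : Real.log x ≤ Real.log (ε + x) := Real.log_le_log hx' (by linarith [hε.1])
        have h7 : Real.log (ε + x) ≤ Real.log (N + 2) :=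
          Real.log_le_log (by linarith [hε.1]) (by linarith [hε.2])
        rw [abs_le]
        constructor
        · have := neg_abs_le (Real.log x)
          linarith
        · have := abs_nonneg (Real.log x)
          linarith
      have h8 := cut_le_one' N x
      have h9 := cut_nonneg N x
      calc |Real.log (ε + x)| * cut N x ≤ (|Real.log x| + Real.log (N + 2)) * cut N x :=
            mul_le_mul_of_nonneg_right h5 h9
        _ = |Real.log x| * cut N x + Real.log (N + 2) * cut N x := by ring
        _ ≤ |Real.log x| * 1 + Real.log (N + 2) * cut N x :=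
            add_le_add (mul_le_mul_of_nonneg_left h8 (abs_nonneg _)) le_rfl
        _ = _ := by rw [mul_one]
  · refine Integrable.add hlog.abs ?_
    have := (cc_int e T N (fun _ => Real.log (N + 2)) continuous_const)
    exact this.integrableOn
  · refine (ae_restrict_iff' measurableSet_Ioi).mpr (Filter.Eventually.of_forall ?_)
    intro x hx
    have hx' : (0 : ℝ) < x := hx
    refine Filter.Tendsto.mul_const _ ?_
    unfold lg
    rw [max_eq_left hx'.le]
    have h5 : Filter.Tendsto (fun ε : ℝ => ε + x) (𝓝[>] 0) (𝓝 x) := by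
      have : Filter.Tendsto (fun ε : ℝ => ε + x) (𝓝 0) (𝓝 (0 + x)) :=
        (continuous_id.add continuous_const).tendsto 0
      rw [zero_add] at this
      exact this.mono_left nhdsWithin_le_nhds
    exact (Real.continuousAt_log hx'.ne').tendsto.comp h5

include hT in
theorem tendsto_log (hb : ∀ η : ℝ, 0 < η → ∃ δ : ℝ, 0 < δ ∧ traceVal e T (bump δ) ≤ η)
    (hlog : IntegrableOn Real.log (Set.Ioi 0) (spectralMeasure e T)) :
    Filter.Tendsto (fun ε => traceVal e T (lg ε)) (𝓝[>] 0)
      (𝓝 (∫ x in Set.Ioi (0 : ℝ), Real.log x ∂(spectralMeasure e T))) := by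
  obtain ⟨N₀, hN₀⟩ := exists_nat_ge ‖T‖
  have h1 : Filter.Tendsto (fun N : ℕ => ∫ x in Set.Ioi (0 : ℝ), Real.log x * cut N x
      ∂(spectralMeasure e T)) Filter.atTop
      (𝓝 (∫ x in Set.Ioi (0 : ℝ), Real.log x ∂(spectralMeasure e T))) := by
    apply tendsto_integral_of_dominated_convergence (fun x => |Real.log x|)
    · intro m
      exact (Real.measurable_log.mul (cut_continuous m).measurable).aestronglyMeasurable
    · exact hlog.abs
    · intro m
      refine Filter.Eventually.of_forall ?_
      intro x
      rw [Real.norm_eq_abs, abs_mul, abs_of_nonneg (cut_nonneg m x)]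
      calc |Real.log x| * cut m x ≤ |Real.log x| * 1 :=
            mul_le_mul_of_nonneg_left (cut_le_one' m x) (abs_nonneg _)
        _ = |Real.log x| := mul_one _
    · refine Filter.Eventually.of_forall ?_
      intro x
      apply tendsto_const_nhds.congr'
      obtain ⟨m, hm⟩ := exists_nat_ge |x|
      filter_upwards [Filter.eventually_ge_atTop m] with k hk
      have hk' : (m : ℝ) ≤ k := by exact_mod_cast hk
      rw [cut_eq_one (hm.trans hk'), mul_one]
  have h2 : ∀ N : ℕ, N₀ ≤ N → ∫ x in Set.Ioi (0 : ℝ), Real.log x * cut N x ∂(spectralMeasure e T)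
      = ∫ x in Set.Ioi (0 : ℝ), Real.log x * cut N₀ x ∂(spectralMeasure e T) := by
    intro N hN
    have hN' : (N₀ : ℝ) ≤ N := by exact_mod_cast hN
    exact tendsto_nhds_unique (tendsto_cut e T hT hb hlog (hN₀.trans hN'))
      (tendsto_cut e T hT hb hlog hN₀)
  have h3 : ∫ x in Set.Ioi (0 : ℝ), Real.log x ∂(spectralMeasure e T)
      = ∫ x in Set.Ioi (0 : ℝ), Real.log x * cut N₀ x ∂(spectralMeasure e T) := by
    refine tendsto_nhds_unique h1 (tendsto_const_nhds.congr' ?_)
    filter_upwards [Filter.eventually_ge_atTop N₀] with N hN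
    exact (h2 N hN).symm
  rw [h3]
  exact tendsto_cut e T hT hb hlog hN₀

end general

section fin
variable {G : Type} [Group G] {r s : ℕ}

/-- no reindexing for matrices indexed by `Fin` -/
theorem Ph_fin (A : Matrix (Fin r) (Fin s) (MonoidAlgebra ℤ G)) {f : ℝ → ℝ} (hf : Continuous f) :
    Ph f A = traceVal unitVec (rMul ((A * adj A).map toQ)) f := by
  have hS : 0 ≤ rMul ((A * adj A).map toQ) := by
    have : (A * adj A).map toQ = A.map toQ * adjQ (A.map toQ) := by
      rw [toQ_mul, ← toQ_adjZ]
      rfl
    rw [this]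
    exact rMul_self_nonneg _
  have key : ∀ ε : ℝ, 0 < ε →
      |Ph f A - traceVal unitVec (rMul ((A * adj A).map toQ)) f| ≤ (r + r) * ε := by
    intro ε hε
    set K : ℝ := max ‖opp A‖ ‖rMul ((A * adj A).map toQ)‖ with hK
    obtain ⟨p, hp⟩ := exists_polynomial_near_of_continuousOn 0 K f hf.continuousOn ε hε
    have hp' : ∀ x ∈ Set.Icc 0 K, |f x - p.eval x| ≤ ε := fun x hx => by
      rw [abs_sub_comm]
      exact (hp x hx).le
    have a1 := Ph_near A (le_max_left _ _) hf p.continuous hε.le hp'
    have a2 := traceVal_near unitVec (fun i => (norm_unitVec i).le) _ hS (le_max_right _ _) hf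
      p.continuous hε.le hp'
    have a3 : Ph (fun x => p.eval x) A
        = traceVal unitVec (rMul ((A * adj A).map toQ)) (fun x => p.eval x) := by
      rw [Ph_poly, traceVal_poly _ hS]
      refine Finset.sum_congr rfl fun m _ => ?_
      congr 1
      have h1 : ((A * adj A).map toQ) ^ m = ((A * adj A) ^ m).map toQ := by
        clear * -
        induction m with
        | zero =>
          rw [pow_zero, pow_zero]
          exact (Matrix.map_one _ (map_zero (MonoidAlgebra.mapRingHom G (Int.castRingHom ℚ)))
            (map_one (MonoidAlgebra.mapRingHom G (Int.castRingHom ℚ)))).symm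
        | succ m ih =>
          rw [pow_succ, pow_succ, ih]
          exact (toQ_mul _ _).symm
      rw [h1]
      unfold mt trc
      push_cast
      refine Finset.sum_congr rfl fun i _ => ?_
      rw [Matrix.map_apply, toQ_coeff]
      push_cast
      rfl
    rw [Fintype.card_fin] at a1
    rw [abs_le] at a1 a2 ⊢
    constructor <;> linarith [a1.1, a1.2, a2.1, a2.2]
  have h0 : |Ph f A - traceVal unitVec (rMul ((A * adj A).map toQ)) f| ≤ 0 := by
    refine le_of_forall_pos_le_add fun ε hε => ?_
    have := key (ε / (r + r + 1)) (by positivity)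
    rw [zero_add]
    refine this.trans ?_
    rw [mul_div_assoc', div_le_iff₀ (by positivity)]
    nlinarith
  exact sub_eq_zero.1 (abs_nonpos_iff.1 h0)

theorem rMul_gram (A : Matrix (Fin r) (Fin s) (MonoidAlgebra ℤ G)) :
    ContinuousLinearMap.adjoint (rMul (A.map toQ)) ∘L rMul (A.map toQ)
      = rMul ((A * adj A).map toQ) := by
  rw [adjoint_comp_rMul, toQ_mul]
  congr 2
  exact (toQ_adjZ A).symm

/-- injectivity from vanishing of the dimension of the kernel -/
theorem inj_of_dimKer (S : Matrix (Fin r) (Fin r) (MonoidAlgebra ℚ G))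
    (h : dimKer (rMul S) = 0) : ∀ v, rMul S v = 0 → v = 0 := by
  have h1 : ∀ i, (rMul S).ker.starProjection (unitVec i : L2Pow G r) = 0 := by
    have h2 : ∀ i, (⟪(unitVec i : L2Pow G r), (rMul S).ker.starProjection (unitVec i)⟫_ℂ).re
        = ‖(rMul S).ker.starProjection (unitVec i : L2Pow G r)‖ ^ 2 := by
      intro i
      have key : ∀ {H : Type} [NormedAddCommGroup H] [InnerProductSpace ℂ H] [CompleteSpace H]
          (K : Submodule ℂ H) [K.HasOrthogonalProjection] (v : H),
          (⟪v, K.starProjection v⟫_ℂ).re = ‖K.starProjection v‖ ^ 2 := by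
        intro H _ _ _ K _ v
        have h3 : ⟪v, K.starProjection v⟫_ℂ = ⟪K.starProjection v, K.starProjection v⟫_ℂ := by
          have h4 : ⟪K.starProjection v, K.starProjection v⟫_ℂ
              = ⟪v, K.starProjection (K.starProjection v)⟫_ℂ :=
            K.starProjection_isSymmetric v (K.starProjection v)
          have h5 : K.starProjection (K.starProjection v) = K.starProjection v :=
            Submodule.starProjection_eq_self_iff.2 (Submodule.starProjection_apply_mem K v)
          rw [h5] at h4
          exact h4.symm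
        rw [h3]
        exact (norm_sq_eq_re_inner (𝕜 := ℂ) _).symm
      exact key _ _
    unfold dimKer at h
    simp only [h2] at h
    rw [Finset.sum_eq_zero_iff_of_nonneg (fun i _ => by positivity)] at h
    intro i
    have h3 := h i (Finset.mem_univ i)
    exact norm_eq_zero.1 (pow_eq_zero_iff two_ne_zero |>.1 h3)
  have h2 : ∀ w, rMul S w = 0 → ∀ i, coord w i 1 = 0 := by
    intro w hw i
    rw [← inner_unitVec]
    have hw' : w ∈ (rMul S).ker := LinearMap.mem_ker.2 hw
    have key : ∀ {H : Type} [NormedAddCommGroup H] [InnerProductSpace ℂ H] [CompleteSpace H]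
        (K : Submodule ℂ H) [K.HasOrthogonalProjection] (v w : H), w ∈ K →
        K.starProjection v = 0 → ⟪v, w⟫_ℂ = 0 := by
      intro H _ _ _ K _ v w hw hv
      have h3 : K.starProjection w = w := Submodule.starProjection_eq_self_iff.2 hw
      have h4 := K.starProjection_isSymmetric v w
      have h5 : ⟪v, w⟫_ℂ = ⟪K.starProjection v, w⟫_ℂ := by
        conv_lhs => rw [← h3]
        exact h4.symm
      rw [h5, hv, inner_zero_left]
    exact key _ _ _ hw' (h1 i)
  intro w hw
  apply coord_ext
  intro j g
  rw [coord_zero]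
  obtain ⟨w', hw'⟩ := exists_translate w g
  have h3 : rMul S w' = 0 := by
    apply coord_ext
    intro k h
    rw [coord_zero, rMul_apply]
    have := congrArg (fun x => coord x k (g * h)) hw
    simp only [coord_zero, rMul_apply] at this
    rw [← this]
    simp only [hw', mul_assoc]
  have h4 := h2 w' h3 j
  rwa [hw', mul_one] at h4

/-- the determinant and the Fuglede-Kadison determinant -/
theorem Dt_eq_fkDet (A : Matrix (Fin r) (Fin r) (MonoidAlgebra ℤ G))
    (hinj : ∀ v, rMul (A.map toQ) v = 0 → v = 0) (hpos : 0 < fkDet (rMul (A.map toQ))) :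
    Dt A = fkDet (rMul (A.map toQ)) ^ 2 := by
  set T := rMul ((A * adj A).map toQ) with hT
  have hT0 : 0 ≤ T := by
    rw [hT, ← rMul_gram]
    exact adjoint_comp_nonneg _
  have hlog : IntegrableOn Real.log (Set.Ioi 0) (spectralMeasure unitVec T) := by
    by_contra hcon
    unfold fkDet detOf specMeas at hpos
    rw [rMul_gram, if_neg hcon] at hpos
    exact lt_irrefl _ hpos
  have hinj' : ∀ v, T v = 0 → v = 0 := by
    intro v hv
    rw [hT, ← rMul_gram] at hv
    exact hinj v (ker_adjoint_comp _ v hv)
  have hb : ∀ η : ℝ, 0 < η → ∃ δ : ℝ, 0 < δ ∧ traceVal unitVec T (bump δ) ≤ η := fun _ hη =>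
    bump_small unitVec (fun i => (norm_unitVec i).le) T hT0 hinj' hη
  have h1 := tendsto_log unitVec T hT0 hb hlog
  have h2 : Filter.Tendsto (fun ε => Real.exp (LL ε A)) (𝓝[>] 0)
      (𝓝 (Real.exp (∫ x in Set.Ioi (0 : ℝ), Real.log x ∂(spectralMeasure unitVec T)))) := by
    have h3 := (Real.continuous_exp.tendsto _).comp h1
    refine h3.congr' ?_
    filter_upwards [self_mem_nhdsWithin] with ε hε
    show Real.exp (traceVal unitVec T (lg ε)) = Real.exp (Ph (lg ε) A)
    rw [Ph_fin A (lg_cont hε)]
  have h3 := tendsto_nhds_unique (Dt_tendsto A) h2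
  rw [h3]
  unfold fkDet detOf specMeas
  rw [rMul_gram, if_pos hlog, ← Real.exp_nat_mul]
  congr 1
  push_cast
  ring

end fin
end Pool.Agent.Helper653_Tor
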