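import Pool.Agent.Helper653_Tor.Blk

/-!
# Bidiagonal total matrices
-/

set_option autoImplicit false
set_option linter.unusedSectionVars false
open scoped InnerProductSpace Topology ComplexConjugate InnerProduct

noncomputable section

namespace Pool.Agent.Helper653_Tor
open Pool.Agent.Helper993.FK Pool.Agent.H712R5.BO

section
variable {G : Type} [Group G] {ι κ : Type} [Fintype ι] [Fintype κ] [DecidableEq ι] [DecidableEq κ]

/-- the exchange lemma -/
theorem exchange (σ : Matrix ι ι (MonoidAlgebra ℤ G)) (σ' : Matrix κ κ (MonoidAlgebra ℤ G))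
    (d d' : Matrix ι κ (MonoidAlgebra ℤ G)) (Y : Matrix κ ι (MonoidAlgebra ℤ G))
    (h : σ * d = d' * σ') : Dt (σ - d' * Y) * Dt σ' = Dt σ * Dt (σ' - Y * d) := by
  have h1 : Matrix.fromBlocks σ d' Y 1 * Matrix.fromBlocks 1 (-d) 0 σ'
      = Matrix.fromBlocks σ 0 Y (σ' - Y * d) := by
    rw [Matrix.fromBlocks_multiply]
    simp only [Matrix.mul_one, Matrix.mul_zero, add_zero, Matrix.one_mul, Matrix.mul_neg]
    congr 1
    · rw [h]; abel
    · abel
  have h2 : Matrix.fromBlocks 1 (-d') 0 1 * Matrix.fromBlocks σ d' Y 1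
      = Matrix.fromBlocks (σ - d' * Y) 0 Y 1 := by
    rw [Matrix.fromBlocks_multiply]
    simp only [Matrix.mul_one, Matrix.one_mul, Matrix.neg_mul, Matrix.zero_mul, zero_add]
    congr 1
    · abel
    · abel
  have h3 := congrArg Dt h1
  have h4 := congrArg Dt h2
  rw [Dt_mul', Dt_upper, Dt_lower, Dt_one, one_mul] at h3
  rw [Dt_mul', Dt_upper_one, Dt_lower, Dt_one, one_mul, mul_one] at h4
  rw [← h4, h3]

/-- an injective-like matrix is square -/
theorem card_le_of_pos (E : Matrix ι κ (MonoidAlgebra ℤ G)) (h : 0 < Dt (E * adj E)) :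
    Fintype.card ι ≤ Fintype.card κ := by
  by_contra hcon
  push Not at hcon
  set ν := Fin (Fintype.card ι - Fintype.card κ) with hν
  have hne : Nonempty ν := ⟨⟨0, by omega⟩⟩
  set E' : Matrix ι (κ ⊕ ν) (MonoidAlgebra ℤ G) := Matrix.fromCols E 0 with hE'
  have hc : Fintype.card ι = Fintype.card (κ ⊕ ν) := by
    have h5 : Fintype.card ν = Fintype.card ι - Fintype.card κ := Fintype.card_fin _
    rw [Fintype.card_sum, h5]
    omega
  have h1 : E' * adj E' = E * adj E := by
    ext1 i j
    rw [Matrix.mul_apply, Matrix.mul_apply, Fintype.sum_sum_type]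
    have : ∑ x : ν, E' i (Sum.inr x) * adj E' (Sum.inr x) j = 0 := by
      apply Finset.sum_eq_zero
      intro x _
      have : E' i (Sum.inr x) = 0 := rfl
      rw [this, zero_mul]
    rw [this, add_zero]
    rfl
  have h2 : adj E' * E' = Matrix.fromBlocks (adj E * E) 0 0 0 := by
    ext1 i j
    rw [Matrix.mul_apply]
    rcases i with i | i
    · rcases j with j | j
      · rfl
      · apply Finset.sum_eq_zero
        intro x _
        have : E' x (Sum.inr j) = 0 := rfl
        rw [this, mul_zero]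
    · have h3 : ∀ x, adj E' (Sum.inr i) x = 0 := by
        intro x
        have : E' x (Sum.inr i) = 0 := rfl
        rw [adj_apply, this, inv'_zero]
      have h4 : Matrix.fromBlocks (adj E * E) 0 0 0 (Sum.inr i) j = (0 : MonoidAlgebra ℤ G) := by
        rcases j with j | j <;> rfl
      rw [h4]
      apply Finset.sum_eq_zero
      intro x _
      rw [h3, zero_mul]
  have h3 : Dt (E' * adj E') = Dt (adj E' * E') := by
    rw [Dt_mul hc hc.symm, Dt_mul hc.symm hc, mul_comm]
  rw [h1, h2, Dt_diag, Dt_zero, mul_zero] at h3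
  rw [h3] at h
  exact lt_irrefl _ h

end

section tot
variable {G : Type} [Group G] {p q t : ℕ → ℕ} (N : ℕ)

/-- the total index set -/
abbrev Ix (N : ℕ) (p : ℕ → ℕ) : Type := (l : Fin N) × Fin (p l)

/-- the total matrix of a family of blocks -/
def tot (F : ∀ l k, Matrix (Fin (p l)) (Fin (q k)) (MonoidAlgebra ℤ G)) :
    Matrix (Ix N p) (Ix N q) (MonoidAlgebra ℤ G) := fun a b => F a.1 b.1 a.2 b.2

theorem tot_mul (F : ∀ l k, Matrix (Fin (p l)) (Fin (q k)) (MonoidAlgebra ℤ G))
    (F' : ∀ l k, Matrix (Fin (q l)) (Fin (t k)) (MonoidAlgebra ℤ G)) :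
    tot N F * tot N F' = tot N (fun l k => ∑ j ∈ Finset.range N, F l j * F' j k) := by
  ext1 a b
  rw [Matrix.mul_apply, Fintype.sum_sigma]
  have h : tot N (fun l k => ∑ j ∈ Finset.range N, F l j * F' j k) a b
      = (∑ j ∈ Finset.range N, F a.1 j * F' j b.1) a.2 b.2 := rfl
  rw [h, Matrix.sum_apply, ← Fin.sum_univ_eq_sum_range (fun j => (F a.1 j * F' j b.1) a.2 b.2)]
  rfl

theorem adj_tot (F : ∀ l k, Matrix (Fin (p l)) (Fin (q k)) (MonoidAlgebra ℤ G)) :
    adj (tot N F) = tot N (fun k l => adj (F l k)) := rfl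

/-- determinants of block triangular total matrices -/
theorem Dt_tot (F : ∀ l k, Matrix (Fin (p l)) (Fin (p k)) (MonoidAlgebra ℤ G))
    (h : ∀ l k, k < l → l < N → F l k = 0) :
    Dt (tot N F) = ∏ l ∈ Finset.range N, Dt (F l l) := by
  rw [Dt_triangular N (tot N F) (fun a => (a.1 : ℕ))]
  · refine Finset.prod_congr rfl fun l hl => ?_
    have hl' : l < N := Finset.mem_range.1 hl
    let e : Fin (p l) ≃ {a : Ix N p // (a.1 : ℕ) = l} :=
      { toFun := fun i => ⟨⟨⟨l, hl'⟩, i⟩, rfl⟩
        invFun := fun a => Fin.cast (by rw [a.2]) a.1.2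
        left_inv := fun i => rfl
        right_inv := by
          rintro ⟨⟨⟨l', hl2⟩, i⟩, h2⟩
          have h3 : l' = l := h2
          subst h3
          rfl }
    exact (Dt_submatrix _ e e).symm
  · intro a b hab
    unfold tot
    rw [h a.1 b.1 hab a.1.2]
    rfl
  · intro a
    exact a.1.2

/-- upper bidiagonal families -/
def up (A : ∀ l, Matrix (Fin (p l)) (Fin (q l)) (MonoidAlgebra ℤ G))
    (B : ∀ l, Matrix (Fin (p l)) (Fin (q (l + 1))) (MonoidAlgebra ℤ G)) (l k : ℕ) :
    Matrix (Fin (p l)) (Fin (q k)) (MonoidAlgebra ℤ G) :=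
  if h : k = l then (h ▸ A l) else if h : k = l + 1 then (h ▸ B l) else 0

/-- lower bidiagonal families -/
def lo (C : ∀ k, Matrix (Fin (q k)) (Fin (p k)) (MonoidAlgebra ℤ G))
    (D : ∀ k, Matrix (Fin (q (k + 1))) (Fin (p k)) (MonoidAlgebra ℤ G)) (k l : ℕ) :
    Matrix (Fin (q k)) (Fin (p l)) (MonoidAlgebra ℤ G) :=
  if h : l = k then (h ▸ C k) else if h : k = l + 1 then (h ▸ D l) else 0

section
variable (A : ∀ l, Matrix (Fin (p l)) (Fin (q l)) (MonoidAlgebra ℤ G))
  (B : ∀ l, Matrix (Fin (p l)) (Fin (q (l + 1))) (MonoidAlgebra ℤ G))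
  (C : ∀ k, Matrix (Fin (q k)) (Fin (p k)) (MonoidAlgebra ℤ G))
  (D : ∀ k, Matrix (Fin (q (k + 1))) (Fin (p k)) (MonoidAlgebra ℤ G))

theorem up_self (l : ℕ) : up A B l l = A l := by
  unfold up
  rw [dif_pos rfl]

theorem up_succ (l : ℕ) : up A B l (l + 1) = B l := by
  unfold up
  rw [dif_neg (Nat.succ_ne_self l), dif_pos rfl]

theorem up_ne {l k : ℕ} (h1 : k ≠ l) (h2 : k ≠ l + 1) : up A B l k = 0 := by
  unfold up
  rw [dif_neg h1, dif_neg h2]

theorem lo_self (l : ℕ) : lo C D l l = C l := by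
  unfold lo
  rw [dif_pos rfl]

theorem lo_succ (l : ℕ) : lo C D (l + 1) l = D l := by
  unfold lo
  rw [dif_neg (Nat.succ_ne_self l).symm, dif_pos rfl]

theorem lo_ne {k l : ℕ} (h1 : l ≠ k) (h2 : k ≠ l + 1) : lo C D k l = 0 := by
  unfold lo
  rw [dif_neg h1, dif_neg h2]

theorem adj_up (l k : ℕ) : adj (up A B l k) = lo (fun k => adj (A k)) (fun k => adj (B k)) k l := by
  by_cases h1 : k = l
  · subst h1
    rw [up_self, lo_self]
  · by_cases h2 : k = l + 1
    · subst h2
      rw [up_succ, lo_succ]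
    · rw [up_ne A B h1 h2, lo_ne _ _ (Ne.symm h1) h2, adj_zero]

theorem sum_up_lo (hq : q N = 0) {l : ℕ} (hl : l < N) (l' : ℕ) :
    ∑ j ∈ Finset.range N, up A B l j * lo C D j l'
      = A l * lo C D l l' + B l * lo C D (l + 1) l' := by
  have h0 : ∀ j, j ≠ l → j ≠ l + 1 → up A B l j * lo C D j l' = 0 := by
    intro j h1 h2
    rw [up_ne A B h1 h2, Matrix.zero_mul]
  by_cases hl2 : l + 1 < N
  · rw [← Finset.sum_subset (s₁ := {l, l + 1})]
    · rw [Finset.sum_pair (Nat.succ_ne_self l).symm, up_self, up_succ]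
    · intro j hj
      simp only [Finset.mem_insert, Finset.mem_singleton] at hj
      rw [Finset.mem_range]
      omega
    · intro j _ hj
      simp only [Finset.mem_insert, Finset.mem_singleton, not_or] at hj
      exact h0 j hj.1 hj.2
  · have hN : l + 1 = N := by omega
    have h1 : B l * lo C D (l + 1) l' = 0 := by
      ext1 i j
      rw [Matrix.mul_apply]
      have : IsEmpty (Fin (q (l + 1))) := by
        rw [hN, hq]
        infer_instance
      exact Finset.sum_of_isEmpty _
    rw [h1, add_zero, Finset.sum_eq_single l]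
    · rw [up_self]
    · intro j hj hjl
      have := Finset.mem_range.1 hj
      exact h0 j hjl (by omega)
    · intro h
      exact absurd (Finset.mem_range.2 hl) h

theorem sum_lo_up_zero (hN : 0 < N) (k' : ℕ) :
    ∑ j ∈ Finset.range N, lo C D 0 j * up A B j k' = C 0 * up A B 0 k' := by
  rw [Finset.sum_eq_single 0]
  · rw [lo_self]
  · intro j _ hj
    rw [lo_ne C D hj (by omega), Matrix.zero_mul]
  · intro h
    exact absurd (Finset.mem_range.2 hN) h

theorem sum_lo_up_succ {k : ℕ} (hk : k + 1 < N) (k' : ℕ) :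
    ∑ j ∈ Finset.range N, lo C D (k + 1) j * up A B j k'
      = C (k + 1) * up A B (k + 1) k' + D k * up A B k k' := by
  have h0 : ∀ j, j ≠ k + 1 → j ≠ k → lo C D (k + 1) j * up A B j k' = 0 := by
    intro j h1 h2
    rw [lo_ne C D h1 (by omega), Matrix.zero_mul]
  rw [← Finset.sum_subset (s₁ := {k + 1, k})]
  · rw [Finset.sum_pair (Nat.succ_ne_self k), lo_self, lo_succ]
  · intro j hj
    simp only [Finset.mem_insert, Finset.mem_singleton] at hj
    rw [Finset.mem_range]
    omega
  · intro j _ hj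
    simp only [Finset.mem_insert, Finset.mem_singleton, not_or] at hj
    exact h0 j hj.1 hj.2

/-- upper times lower -/
theorem Dt_up_lo (hq : q N = 0) (h0 : ∀ l, A (l + 1) * D l = 0) :
    Dt (tot N (up A B) * tot N (lo C D)) = ∏ l ∈ Finset.range N, Dt (A l * C l + B l * D l) := by
  rw [tot_mul, Dt_tot]
  · refine Finset.prod_congr rfl fun l hl => ?_
    rw [sum_up_lo N A B C D hq (Finset.mem_range.1 hl), lo_self, lo_succ]
  · intro l k hkl hl
    rw [sum_up_lo N A B C D hq hl, lo_ne C D (k := l + 1) (l := k) (by omega) (by omega),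
      Matrix.mul_zero, add_zero]
    by_cases h : l = k + 1
    · subst h
      rw [lo_succ, h0]
    · rw [lo_ne C D (by omega) h, Matrix.mul_zero]

/-- lower times upper -/
theorem Dt_lo_up (h0 : ∀ l, D l * A l = 0) (M : ∀ k, Matrix (Fin (q k)) (Fin (q k)) (MonoidAlgebra ℤ G))
    (hM0 : M 0 = C 0 * A 0) (hM : ∀ k, M (k + 1) = C (k + 1) * A (k + 1) + D k * B k) :
    Dt (tot N (lo C D) * tot N (up A B)) = ∏ k ∈ Finset.range N, Dt (M k) := by
  rw [tot_mul, Dt_tot]
  · refine Finset.prod_congr rfl fun k hk => ?_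
    have hk' := Finset.mem_range.1 hk
    rcases k with _ | k
    · rw [sum_lo_up_zero N A B C D hk', up_self, hM0]
    · rw [sum_lo_up_succ N A B C D hk', up_self, up_succ, hM]
  · intro l k hkl hl
    rcases l with _ | l
    · omega
    · rw [sum_lo_up_succ N A B C D hl, up_ne A B (l := l + 1) (k := k) (by omega) (by omega),
        Matrix.mul_zero, zero_add]
      by_cases h : k = l
      · subst h
        rw [up_self, h0]
      · rw [up_ne A B h (by omega), Matrix.mul_zero]

end
end tot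

end Pool.Agent.Helper653_Tor
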