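import Pool.Agent.Helper653_Tor.Mult
import Pool.Agent.Helper993.Luck

/-!
# The tracial C*-algebra generated by the matrices over the group ring
-/

set_option autoImplicit false
set_option linter.unusedSectionVars false
open scoped InnerProductSpace Topology ComplexConjugate InnerProduct

noncomputable section

namespace Pool.Agent.Helper653_Tor
open Pool.Agent.Helper993.FK Pool.Agent.H712R5.BO

section
variable (G : Type) [Group G] (r : ℕ)

/-- the right multiplications by square matrices -/
def gens : Set (L2Pow G r →L[ℂ] L2Pow G r) :=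
  Set.range (fun A : Matrix (Fin r) (Fin r) (MonoidAlgebra ℚ G) => rMul A)

/-- their span -/
def M0 : Submodule ℂ (L2Pow G r →L[ℂ] L2Pow G r) := Submodule.span ℂ (gens G r)

theorem M0_one : (1 : L2Pow G r →L[ℂ] L2Pow G r) ∈ M0 G r :=
  Submodule.subset_span ⟨1, rMul_one⟩

theorem rMul_mul_rMul (A B : Matrix (Fin r) (Fin r) (MonoidAlgebra ℚ G)) :
    (rMul A * rMul B : L2Pow G r →L[ℂ] L2Pow G r) = rMul (B * A) := by
  rw [rMul_mul]
  rfl

theorem M0_mul {a b : L2Pow G r →L[ℂ] L2Pow G r} (ha : a ∈ M0 G r) (hb : b ∈ M0 G r) :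
    a * b ∈ M0 G r := by
  unfold M0 at ha hb ⊢
  induction ha using Submodule.span_induction with
  | mem x hx =>
    obtain ⟨A, rfl⟩ := hx
    induction hb using Submodule.span_induction with
    | mem y hy =>
      obtain ⟨B, rfl⟩ := hy
      rw [rMul_mul_rMul]
      exact Submodule.subset_span ⟨_, rfl⟩
    | zero => rw [mul_zero]; exact Submodule.zero_mem _
    | add y z _ _ h1 h2 => rw [mul_add]; exact Submodule.add_mem _ h1 h2
    | smul c y _ h1 => rw [mul_smul_comm]; exact Submodule.smul_mem _ _ h1
  | zero => rw [zero_mul]; exact Submodule.zero_mem _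
  | add y z _ _ h1 h2 => rw [add_mul]; exact Submodule.add_mem _ h1 h2
  | smul c y _ h1 => rw [smul_mul_assoc]; exact Submodule.smul_mem _ _ h1

theorem M0_star {a : L2Pow G r →L[ℂ] L2Pow G r} (ha : a ∈ M0 G r) : star a ∈ M0 G r := by
  unfold M0 at ha ⊢
  induction ha using Submodule.span_induction with
  | mem x hx =>
    obtain ⟨A, rfl⟩ := hx
    exact Submodule.subset_span ⟨adjQ A, (adjoint_rMul A).symm⟩
  | zero => rw [star_zero]; exact Submodule.zero_mem _
  | add y z _ _ h1 h2 => rw [star_add]; exact Submodule.add_mem _ h1 h2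
  | smul c y _ h1 => rw [star_smul]; exact Submodule.smul_mem _ _ h1

/-- the star subalgebra generated by right multiplications -/
def S0 : StarSubalgebra ℂ (L2Pow G r →L[ℂ] L2Pow G r) where
  carrier := M0 G r
  mul_mem' := M0_mul G r
  add_mem' := (M0 G r).add_mem
  algebraMap_mem' := by
    intro c
    rw [Algebra.algebraMap_eq_smul_one]
    exact (M0 G r).smul_mem c (M0_one G r)
  star_mem' := M0_star G r

/-- its closure -/
def VN : StarSubalgebra ℂ (L2Pow G r →L[ℂ] L2Pow G r) := (S0 G r).topologicalClosure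

instance closedVN : IsClosed ((VN G r : StarSubalgebra ℂ (L2Pow G r →L[ℂ] L2Pow G r)) :
    Set (L2Pow G r →L[ℂ] L2Pow G r)) := StarSubalgebra.isClosed_topologicalClosure _

instance csVN : CStarAlgebra (VN G r) := StarSubalgebra.cstarAlgebra (VN G r)

theorem rMul_mem_VN (A : Matrix (Fin r) (Fin r) (MonoidAlgebra ℚ G)) : rMul A ∈ VN G r :=
  StarSubalgebra.le_topologicalClosure _ (Submodule.subset_span ⟨A, rfl⟩)

/-- the normalized trace on all operators -/
def tauH : (L2Pow G r →L[ℂ] L2Pow G r) →L[ℂ] ℂ :=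
  (r : ℂ)⁻¹ • ∑ i : Fin r, (innerSL ℂ (unitVec i : L2Pow G r)) ∘L
    (ContinuousLinearMap.apply ℂ (L2Pow G r) (unitVec i : L2Pow G r))

theorem tauH_apply (T : L2Pow G r →L[ℂ] L2Pow G r) :
    tauH G r T = (r : ℂ)⁻¹ * ∑ i : Fin r, ⟪(unitVec i : L2Pow G r), T (unitVec i)⟫_ℂ := by
  unfold tauH
  rw [smul_apply, sum_apply, smul_eq_mul]
  rfl

theorem tauH_star (T : L2Pow G r →L[ℂ] L2Pow G r) :
    tauH G r (star T) = conj (tauH G r T) := by
  rw [tauH_apply, tauH_apply, map_mul, map_sum]
  congr 1
  · simp
  · refine Finset.sum_congr rfl fun i _ => ?_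
    rw [ContinuousLinearMap.star_eq_adjoint]
    have h := ContinuousLinearMap.adjoint_inner_right T (unitVec i) (unitVec i : L2Pow G r)
    refine h.trans ?_
    exact (inner_conj_symm _ _).symm

variable {G} in
/-- the coefficient at one is tracial -/
theorem coeff_one_comm {k : Type} [CommRing k] (a b : MonoidAlgebra k G) :
    (a * b).coeff 1 = (b * a).coeff 1 := by
  classical
  induction a using MonoidAlgebra.induction_linear with
  | zero => simp
  | add a a' h1 h2 =>
    rw [add_mul, mul_add, MonoidAlgebra.coeff_add, MonoidAlgebra.coeff_add, Finsupp.add_apply,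
      Finsupp.add_apply, h1, h2]
  | single g c =>
    induction b using MonoidAlgebra.induction_linear with
    | zero => simp
    | add b b' h1 h2 =>
      rw [add_mul, mul_add, MonoidAlgebra.coeff_add, MonoidAlgebra.coeff_add, Finsupp.add_apply,
        Finsupp.add_apply, h1, h2]
    | single h d =>
      rw [MonoidAlgebra.single_mul_single, MonoidAlgebra.single_mul_single,
        MonoidAlgebra.coeff_single, MonoidAlgebra.coeff_single, Finsupp.single_apply,
        Finsupp.single_apply, mul_comm c d]
      have : g * h = 1 ↔ h * g = 1 := by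
        constructor
        · intro h1
          rw [mul_eq_one_iff_eq_inv] at h1
          rw [h1]; group
        · intro h1
          rw [mul_eq_one_iff_eq_inv] at h1
          rw [h1]; group
      simp only [this]

variable {G} in
theorem sum_diag_comm {k : Type} [CommRing k] {ι κ : Type} [Fintype ι] [Fintype κ]
    (A : Matrix ι κ (MonoidAlgebra k G)) (B : Matrix κ ι (MonoidAlgebra k G)) :
    ∑ i, ((A * B) i i).coeff 1 = ∑ i, ((B * A) i i).coeff 1 := by
  simp only [Matrix.mul_apply]
  have e : ∀ (u : Type) [Fintype u] (f : u → MonoidAlgebra k G),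
      (∑ j, f j).coeff 1 = ∑ j, (f j).coeff 1 := by
    intro u _ f
    rw [MonoidAlgebra.coeff_sum, Finsupp.finsetSum_apply]
  simp only [e]
  rw [Finset.sum_comm]
  refine Finset.sum_congr rfl fun j _ => Finset.sum_congr rfl fun i _ => ?_
  exact coeff_one_comm _ _

theorem tauH_rMul (A : Matrix (Fin r) (Fin r) (MonoidAlgebra ℚ G)) :
    tauH G r (rMul A) = (r : ℂ)⁻¹ * ((∑ i, (A i i).coeff 1 : ℚ) : ℂ) := by
  rw [tauH_apply]
  congr 1
  push_cast
  exact Finset.sum_congr rfl fun i _ => inner_rMul_unitVec A i i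

theorem tauH_comm_gen (A B : Matrix (Fin r) (Fin r) (MonoidAlgebra ℚ G)) :
    tauH G r (rMul A * rMul B) = tauH G r (rMul B * rMul A) := by
  rw [rMul_mul_rMul, rMul_mul_rMul, tauH_rMul, tauH_rMul, sum_diag_comm]

theorem tauH_comm_M0 {a b : L2Pow G r →L[ℂ] L2Pow G r} (ha : a ∈ M0 G r) (hb : b ∈ M0 G r) :
    tauH G r (a * b) = tauH G r (b * a) := by
  unfold M0 at ha hb
  induction ha using Submodule.span_induction with
  | mem x hx =>
    obtain ⟨A, rfl⟩ := hx
    induction hb using Submodule.span_induction with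
    | mem y hy =>
      obtain ⟨B, rfl⟩ := hy
      exact tauH_comm_gen G r A B
    | zero => rw [mul_zero, zero_mul]
    | add y z _ _ h1 h2 => rw [mul_add, add_mul, map_add, map_add, h1, h2]
    | smul c y _ h1 => rw [mul_smul_comm, smul_mul_assoc, map_smul, map_smul, h1]
  | zero => rw [mul_zero, zero_mul]
  | add y z _ _ h1 h2 => rw [mul_add, add_mul, map_add, map_add, h1, h2]
  | smul c y _ h1 => rw [mul_smul_comm, smul_mul_assoc, map_smul, map_smul, h1]

theorem VN_mem_closure {a : L2Pow G r →L[ℂ] L2Pow G r} (ha : a ∈ VN G r) :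
    a ∈ closure (M0 G r : Set (L2Pow G r →L[ℂ] L2Pow G r)) := ha

theorem tauH_comm_VN {a b : L2Pow G r →L[ℂ] L2Pow G r} (ha : a ∈ VN G r) (hb : b ∈ VN G r) :
    tauH G r (a * b) = tauH G r (b * a) := by
  have h1 : ∀ x ∈ M0 G r, tauH G r (x * b) = tauH G r (b * x) := by
    intro x hx
    have hc : IsClosed {y : L2Pow G r →L[ℂ] L2Pow G r | tauH G r (x * y) = tauH G r (y * x)} :=
      isClosed_eq ((tauH G r).continuous.comp (continuous_const.mul continuous_id))
        ((tauH G r).continuous.comp (continuous_id.mul continuous_const))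
    exact closure_minimal (fun y hy => tauH_comm_M0 G r hx hy) hc (VN_mem_closure G r hb)
  have hc : IsClosed {y : L2Pow G r →L[ℂ] L2Pow G r | tauH G r (y * b) = tauH G r (b * y)} :=
    isClosed_eq ((tauH G r).continuous.comp (continuous_id.mul continuous_const))
      ((tauH G r).continuous.comp (continuous_const.mul continuous_id))
  exact closure_minimal h1 hc (VN_mem_closure G r ha)

/-- the inclusion -/
def incl : VN G r →⋆ₐ[ℂ] (L2Pow G r →L[ℂ] L2Pow G r) := (VN G r).subtype

theorem continuous_incl : Continuous (incl G r) := continuous_subtype_val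

/-- the normalized trace -/
def tau : VN G r →L[ℂ] ℂ :=
  (tauH G r).comp ⟨(incl G r).toAlgHom.toLinearMap, continuous_incl G r⟩

theorem tau_apply (T : VN G r) : tau G r T = tauH G r (incl G r T) := rfl

theorem tau_trSt (hr : 0 < r) : TrSt (tau G r) where
  one := by
    rw [tau_apply, map_one, tauH_apply]
    have h : ∀ i : Fin r, ⟪(unitVec i : L2Pow G r), (1 : L2Pow G r →L[ℂ] L2Pow G r) (unitVec i)⟫_ℂ
        = 1 := by
      intro i
      have h2 := inner_rMul_unitVec (1 : Matrix (Fin r) (Fin r) (MonoidAlgebra ℚ G)) i i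
      rw [rMul_one] at h2
      rw [h2, Matrix.one_apply_eq, MonoidAlgebra.one_def, MonoidAlgebra.coeff_single]
      simp
    simp only [h]
    have hr' : (r : ℂ) ≠ 0 := by exact_mod_cast hr.ne'
    simp [hr']
  pos := by
    intro a
    rw [tau_apply, map_mul, map_star, tauH_apply]
    have h : ∀ i : Fin r, ⟪(unitVec i : L2Pow G r), (star (incl G r a) * incl G r a)
        (unitVec i)⟫_ℂ = ((‖incl G r a (unitVec i)‖ ^ 2 : ℝ) : ℂ) := by
      intro i
      have h2 := ContinuousLinearMap.adjoint_inner_right (incl G r a) (unitVec i)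
        (incl G r a (unitVec i))
      refine Eq.trans h2 ?_
      rw [inner_self_eq_norm_sq_to_K]
      push_cast
      rfl
    simp only [h]
    rw [← Complex.ofReal_sum, ← Complex.ofReal_natCast, ← Complex.ofReal_inv, ← Complex.ofReal_mul,
      Complex.ofReal_re]
    positivity
  herm := by
    intro a
    rw [tau_apply, tau_apply, map_star, tauH_star]
  tr := by
    intro a b
    exact tauH_comm_VN G r a.2 b.2

/-- the element of the algebra given by a matrix -/
def el (A : Matrix (Fin r) (Fin r) (MonoidAlgebra ℚ G)) : VN G r := ⟨rMul A, rMul_mem_VN G r A⟩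

theorem incl_el (A : Matrix (Fin r) (Fin r) (MonoidAlgebra ℚ G)) : incl G r (el G r A) = rMul A :=
  rfl

theorem el_mul (A B : Matrix (Fin r) (Fin r) (MonoidAlgebra ℚ G)) :
    el G r A * el G r B = el G r (B * A) := by
  apply Subtype.ext
  exact rMul_mul_rMul G r A B

theorem star_el_mul (A : Matrix (Fin r) (Fin r) (MonoidAlgebra ℚ G)) :
    star (el G r A) * el G r A = el G r (A * adjQ A) := by
  apply Subtype.ext
  have h := adjoint_comp_rMul A
  exact h

theorem el_star_mul (A : Matrix (Fin r) (Fin r) (MonoidAlgebra ℚ G)) :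
    el G r A * star (el G r A) = el G r (adjQ A * A) := by
  apply Subtype.ext
  have h : (rMul A) * (ContinuousLinearMap.adjoint (rMul A)) = rMul (adjQ A * A) := by
    rw [adjoint_rMul, rMul_mul_rMul]
  exact h

/-- relation of the two functional calculi -/
theorem tau_cfc (hr : 0 < r) (f : ℝ → ℝ) (a : VN G r) (ha : IsSelfAdjoint a)
    (hf : ContinuousOn f (spectrum ℝ a)) :
    traceVal unitVec (incl G r a) f = r * (tau G r (cfc f a)).re := by
  have hf' : ContinuousOn f (spectrum ℝ a) := hf
  have h1 : incl G r (cfc f a) = cfc f (incl G r a) := by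
    exact StarAlgHomClass.map_cfc (incl G r) f a hf' (continuous_incl G r) ha
      (ha.map (incl G r))
  rw [tau_apply, h1, tauH_apply]
  unfold traceVal
  have hr' : (r : ℝ) ≠ 0 := by exact_mod_cast hr.ne'
  rw [← Complex.ofReal_natCast, ← Complex.ofReal_inv, Complex.re_ofReal_mul, Complex.re_sum,
    ← mul_assoc, mul_inv_cancel₀ hr', one_mul]

end
end Pool.Agent.Helper653_Tor
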